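import Pool.Agent.Y913.Wm.Fn
import Pool.Agent.Y913.Sm.Viol

/-!
Triples with few prime factors: all heights.
-/

set_option autoImplicit false

namespace Pool.Agent.Y913.Wm

open Finset Pool.Agent.Y913 Pool.Agent.Y913.Sm

lemma Ib.mono {n : ℕ} {K K' Y : ℝ} (hY : 1 ≤ Y) (hK : K ≤ K') {q : ℕ × ℕ} (h : Ib n K' Y q) :
    Ib n K Y q := by
  obtain ⟨h1, h2, h3, h4, h5⟩ := h
  exact ⟨h1, h2, h3, (Real.rpow_le_rpow_of_exponent_le hY hK).trans h4, h5⟩

/-- few primes, all at most `Y` -/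
def Fwp (n : ℕ) (K Y : ℝ) (q : ℕ × ℕ) : Prop :=
  0 < q.1 ∧ 0 < q.2 ∧ Nat.Coprime q.1 q.2 ∧
    (q.1 * q.2 * (q.1 + q.2)).primeFactors.card ≤ n ∧
    (∀ l ∈ (q.1 * q.2 * (q.1 + q.2)).primeFactors, (l : ℝ) ≤ Y) ∧
    Y ^ K ≤ ((q.1 + q.2 : ℕ) : ℝ)

lemma fwp_ib {n : ℕ} {K Y : ℝ} {q : ℕ × ℕ} (h : Fwp n K Y q) :
    Ib (q.1 * q.2 * (q.1 + q.2)).primeFactors.card K Y q := by
  classical
  obtain ⟨h1, h2, h3, h4, h5, h6⟩ := h
  obtain ⟨T, hT⟩ : ∃ T, T = (q.1 * q.2 * (q.1 + q.2)).primeFactors := ⟨_, rfl⟩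
  rw [← hT] at h5 ⊢
  have hTp : ∀ l ∈ T, l.Prime := by
    intro l hl
    rw [hT] at hl
    exact Nat.prime_of_mem_primeFactors hl
  have hne : q.1 * q.2 * (q.1 + q.2) ≠ 0 := by positivity
  have hT1 : q.1.primeFactors ⊆ T := by
    rw [hT]
    exact Nat.primeFactors_mono ⟨q.2 * (q.1 + q.2), by ring⟩ hne
  have hT2 : q.2.primeFactors ⊆ T := by
    rw [hT]
    exact Nat.primeFactors_mono ⟨q.1 * (q.1 + q.2), by ring⟩ hne
  have hT3 : (q.1 + q.2).primeFactors ⊆ T := by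
    rw [hT]
    exact Nat.primeFactors_mono ⟨q.1 * q.2, by ring⟩ hne
  let e : Fin T.card ≃ {l // l ∈ T} := T.equivFin.symm
  have hprod : ∀ m : ℕ, m ≠ 0 → m.primeFactors ⊆ T →
      m = ∏ r : Fin T.card, (e r).1 ^ m.factorization (e r).1 := by
    intro m hm hmT
    rw [Equiv.prod_comp e (fun l => l.1 ^ m.factorization l.1)]
    exact (prod_fact hm hmT).symm
  refine ⟨h1, h2, h3, h6, fun r => (e r).1, ![fun r => q.1.factorization (e r).1,
    fun r => q.2.factorization (e r).1, fun r => (q.1 + q.2).factorization (e r).1], ?_, ?_,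
    hprod q.1 h1.ne' hT1, hprod q.2 h2.ne' hT2, hprod (q.1 + q.2) (by omega) hT3⟩
  · intro r
    exact ⟨(hTp _ (e r).2).pos, h5 _ (e r).2⟩
  · intro κ hκ r
    have h7 : uq (pT T) (fun l => κ (e.symm l)) = 1 := by
      unfold uq
      have h8 : ∏ j : {l // l ∈ T}, ((pT T j : ℕ) : ℝ) ^ (2 * κ (e.symm j)) =
          (∏ r : Fin T.card, (((e r).1 : ℕ) : ℝ) ^ κ r) ^ 2 := by
        rw [← Finset.prod_pow, ← Equiv.prod_comp e]
        apply Finset.prod_congr rfl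
        intro r _
        rw [Equiv.symm_apply_apply, mul_comm, zpow_mul]
        norm_cast
      rw [h8]
      have h9 := congrArg (fun t : ℚ => (t : ℝ)) hκ
      simp only [Rat.cast_prod, Rat.cast_zpow, Rat.cast_natCast, Rat.cast_one] at h9
      rw [h9, one_pow]
    have h8 := congrFun (uq_indep hTp _ h7) (e r)
    simp only [Equiv.symm_apply_apply, Pi.zero_apply] at h8
    exact h8

/-- **few primes: the count** -/
theorem fwp_count (n : ℕ) (ε : ℝ) (hε : 0 < ε) : ∃ K C : ℝ, 0 < K ∧ 0 < C ∧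
    ∀ Y : ℝ, 1 ≤ Y → ∀ Q : Finset (ℕ × ℕ), (∀ q ∈ Q, Fwp n K Y q) →
      (Q.card : ℝ) ≤ C * Y ^ ε := by
  classical
  choose K C hK hC h using fun i : ℕ => ib_count i ε hε
  refine ⟨∑ i ∈ range (n + 1), K i, ∑ i ∈ range (n + 1), C i,
    Finset.sum_pos (fun i _ => hK i) ⟨0, by simp⟩, Finset.sum_pos (fun i _ => hC i) ⟨0, by simp⟩, ?_⟩
  intro Y hY Q hQ
  have hmaps : Set.MapsTo (fun q : ℕ × ℕ => (q.1 * q.2 * (q.1 + q.2)).primeFactors.card)
      (Q : Set (ℕ × ℕ)) (Finset.range (n + 1) : Set ℕ) := by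
    intro q hq
    obtain ⟨h1, h2, h3, h4, h5, h6⟩ := hQ q hq
    rw [Finset.mem_coe, Finset.mem_range]
    simp only
    omega
  have hsum := Finset.card_eq_sum_card_fiberwise hmaps
  calc (Q.card : ℝ) = ∑ i ∈ Finset.range (n + 1), ((Q.filter
        (fun q : ℕ × ℕ => (q.1 * q.2 * (q.1 + q.2)).primeFactors.card = i)).card : ℝ) := by
        rw [hsum]
        push_cast
        rfl
    _ ≤ ∑ i ∈ Finset.range (n + 1), C i * Y ^ ε := by
        apply Finset.sum_le_sum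
        intro i hi
        apply h i Y hY
        intro q hq
        rw [Finset.mem_filter] at hq
        obtain ⟨hqQ, hqi⟩ := hq
        have h7 := fwp_ib (hQ q hqQ)
        rw [hqi] at h7
        exact h7.mono hY (Finset.single_le_sum (f := K) (fun i _ => (hK i).le) hi)
    _ = (∑ i ∈ range (n + 1), C i) * Y ^ ε := by rw [Finset.sum_mul]

/-- **violations compared with their own radical** -/
theorem viol_eps (n : ℕ) (ε : ℝ) (hε : 0 < ε) : ∃ K C : ℝ, 0 < K ∧ 0 < C ∧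
    ∀ X : ℝ, 1 ≤ X → ∀ Q : Finset (ℕ × ℕ), (∀ q ∈ Q, Viol n K X q) →
      (Q.card : ℝ) ≤ C * X ^ ε := by
  classical
  obtain ⟨K, C, hK, hC, h⟩ := fwp_count n ε hε
  have h2s : (1 : ℝ) < 2 ^ ε := Real.one_lt_rpow (by norm_num) hε
  refine ⟨2 * K, C * (2 ^ ε * 2 ^ ε / (2 ^ ε - 1)), by positivity, ?_, ?_⟩
  · have : 0 < (2 : ℝ) ^ ε - 1 := by linarith
    positivity
  intro X hX Q hQ
  have hX0 : 0 < X := by linarith
  have hd : 0 < (2 : ℝ) ^ ε - 1 := by linarith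
  obtain ⟨I, hI⟩ : ∃ I : ℕ, I = Nat.log 2 ⌊X⌋₊ := ⟨_, rfl⟩
  have hmaps : Set.MapsTo (fun q : ℕ × ℕ => Nat.log 2 (radT q))
      (Q : Set (ℕ × ℕ)) (Finset.range (I + 1) : Set ℕ) := by
    intro q hq
    obtain ⟨h1, h2, h3, h4, h5, h6⟩ := hQ q hq
    rw [Finset.mem_coe, Finset.mem_range, Nat.lt_succ_iff, hI]
    exact Nat.log_mono_right (Nat.le_floor h5)
  have hsum := Finset.card_eq_sum_card_fiberwise hmaps
  have hfib : ∀ i ∈ Finset.range (I + 1), ((Q.filter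
      (fun q : ℕ × ℕ => Nat.log 2 (radT q) = i)).card : ℝ) ≤ C * ((2 : ℝ) ^ ε) ^ (i + 1) := by
    intro i _
    have h1 := h ((2 : ℝ) ^ (i + 1)) (one_le_pow₀ (by norm_num))
      (Q.filter (fun q : ℕ × ℕ => Nat.log 2 (radT q) = i)) (by
        intro q hq
        rw [Finset.mem_filter] at hq
        obtain ⟨hqQ, hqi⟩ := hq
        obtain ⟨h1, h2, h3, h4, h5, h6⟩ := hQ q hqQ
        have hr2 := radT_two_le h1 h2
        have hr2' : (2 : ℝ) ≤ radT q := by exact_mod_cast hr2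
        have hlow : 2 ^ i ≤ radT q := by
          rw [← hqi]
          exact Nat.pow_log_le_self 2 (by omega)
        have hupp : radT q < 2 ^ (i + 1) := by
          rw [← hqi]
          exact Nat.lt_pow_succ_log_self (by norm_num) _
        refine ⟨h1, h2, h3, h4, ?_, ?_⟩
        · intro l hl
          have h7 : l ≤ radT q := le_radical hl
          have : (l : ℝ) ≤ ((2 ^ (i + 1) : ℕ) : ℝ) := by exact_mod_cast h7.trans hupp.le
          push_cast at this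
          exact this
        · refine le_trans ?_ h6
          have e1 : ((2 : ℝ) ^ (i + 1)) ≤ (radT q : ℝ) ^ (2 : ℝ) := by
            rw [pow_succ, show (2 : ℝ) = ((2 : ℕ) : ℝ) by norm_num, Real.rpow_natCast, pow_two]
            have e2 : ((2 : ℕ) : ℝ) ^ i ≤ radT q := by exact_mod_cast hlow
            push_cast at e2 ⊢
            exact mul_le_mul e2 hr2' (by norm_num) (by positivity)
          calc ((2 : ℝ) ^ (i + 1)) ^ K ≤ ((radT q : ℝ) ^ (2 : ℝ)) ^ K :=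
                Real.rpow_le_rpow (by positivity) e1 hK.le
            _ = (radT q : ℝ) ^ (2 * K) := by rw [← Real.rpow_mul (Nat.cast_nonneg _)])
    refine h1.trans (le_of_eq ?_)
    rw [← Real.rpow_natCast 2 (i + 1), ← Real.rpow_natCast ((2 : ℝ) ^ ε) (i + 1),
      ← Real.rpow_mul (by norm_num), ← Real.rpow_mul (by norm_num), mul_comm ε]
  have h2I : ((2 : ℝ) ^ ε) ^ I ≤ X ^ ε := by
    rw [← Real.rpow_natCast ((2 : ℝ) ^ ε) I, ← Real.rpow_mul (by norm_num), mul_comm ε,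
      Real.rpow_mul (by norm_num)]
    apply Real.rpow_le_rpow (by positivity) _ hε.le
    rw [Real.rpow_natCast]
    have hne : ⌊X⌋₊ ≠ 0 := by
      have : 1 ≤ ⌊X⌋₊ := Nat.le_floor (by push_cast; exact hX)
      omega
    have h2 := Nat.pow_log_le_self 2 hne
    rw [← hI] at h2
    calc (2 : ℝ) ^ I ≤ (⌊X⌋₊ : ℝ) := by exact_mod_cast h2
      _ ≤ X := Nat.floor_le hX0.le
  have hgeom : ∑ i ∈ Finset.range (I + 1), ((2 : ℝ) ^ ε) ^ (i + 1) ≤
      2 ^ ε * 2 ^ ε / (2 ^ ε - 1) * X ^ ε := by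
    have h3 : ∑ i ∈ Finset.range (I + 1), ((2 : ℝ) ^ ε) ^ (i + 1) =
        2 ^ ε * ((((2 : ℝ) ^ ε) ^ (I + 1) - 1) / (2 ^ ε - 1)) := by
      rw [← geom_sum_eq h2s.ne', Finset.mul_sum]
      apply Finset.sum_congr rfl
      intro i _
      rw [pow_succ, mul_comm]
    rw [h3]
    have h4 : ((2 : ℝ) ^ ε) ^ (I + 1) - 1 ≤ 2 ^ ε * X ^ ε := by
      rw [pow_succ, mul_comm]
      have := mul_le_mul_of_nonneg_left h2I (by positivity : (0 : ℝ) ≤ 2 ^ ε)
      linarith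
    calc 2 ^ ε * ((((2 : ℝ) ^ ε) ^ (I + 1) - 1) / (2 ^ ε - 1)) ≤
          2 ^ ε * ((2 ^ ε * X ^ ε) / (2 ^ ε - 1)) := by gcongr
      _ = _ := by ring
  calc (Q.card : ℝ) = ∑ i ∈ Finset.range (I + 1), ((Q.filter
        (fun q : ℕ × ℕ => Nat.log 2 (radT q) = i)).card : ℝ) := by
        rw [hsum]
        push_cast
        rfl
    _ ≤ ∑ i ∈ Finset.range (I + 1), C * ((2 : ℝ) ^ ε) ^ (i + 1) := Finset.sum_le_sum hfib
    _ = C * ∑ i ∈ Finset.range (I + 1), ((2 : ℝ) ^ ε) ^ (i + 1) := by rw [Finset.mul_sum]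
    _ ≤ C * (2 ^ ε * 2 ^ ε / (2 ^ ε - 1) * X ^ ε) := mul_le_mul_of_nonneg_left hgeom hC.le
    _ = _ := by ring

end Pool.Agent.Y913.Wm
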