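import Pool.Agent.Y913.Wm.Dp

/-!
Auxiliary polynomials modulo a power series which is divisible only by a bounded power of `l`.
-/

set_option autoImplicit false

namespace Pool.Agent.Y913.Wm

open Finset MvPolynomial

section

variable {l : ℕ} [hlf : Fact l.Prime] {τ M : Type} [Fintype τ] [DecidableEq τ] [Fintype M]
  [DecidableEq M]

omit [Fintype τ] [DecidableEq τ] in
lemma dvd_of_mul {j0 k : ℕ} {S T : MvPolynomial τ ℤ_[l]} (hS : ∃ α, ¬ (l : ℤ_[l]) ^ (j0 + 1) ∣ coeff α S)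
    (h : ∀ α, (l : ℤ_[l]) ^ k ∣ coeff α (S * T)) : ∀ α, (l : ℤ_[l]) ^ (k - j0) ∣ coeff α T := by
  obtain ⟨p, hp⟩ : ∃ p : MvPolynomial τ ℤ_[l], p = C (l : ℤ_[l]) := ⟨_, rfl⟩
  have hpp : Prime p := by
    rw [hp, prime_C_iff]
    exact PadicInt.prime_p
  have hdv : ∀ (n : ℕ) (R : MvPolynomial τ ℤ_[l]), (∀ α, (l : ℤ_[l]) ^ n ∣ coeff α R) ↔ p ^ n ∣ R := by
    intro n R
    rw [hp, ← C_pow, MvPolynomial.C_dvd_iff_dvd_coeff]
  have hS0 : S ≠ 0 := by
    rintro rfl
    obtain ⟨α, hα⟩ := hS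
    apply hα
    rw [coeff_zero]
    exact dvd_zero _
  have hS' : ¬ p ^ (j0 + 1) ∣ S := by
    rw [← hdv]
    push Not
    exact hS
  obtain ⟨j1, S1, hS1, hS2⟩ : ∃ j1 S1, S = p ^ j1 * S1 ∧ ¬ p ∣ S1 := by
    obtain ⟨w, hw1, hw2⟩ := (FiniteMultiplicity.of_prime_left hpp hS0).exists_eq_pow_mul_and_not_dvd
    exact ⟨_, w, hw1, hw2⟩
  have hj : j1 ≤ j0 := by
    by_contra hlt
    apply hS'
    rw [hS1]
    exact (pow_dvd_pow p (by omega)).mul_right _
  rw [hdv] at h ⊢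
  rcases le_or_gt k j1 with hk | hk
  · rw [Nat.sub_eq_zero_of_le (by omega), pow_zero]
    exact one_dvd _
  · have h1 : p ^ j1 * p ^ (k - j1) ∣ p ^ j1 * (S1 * T) := by
      rw [← pow_add, Nat.add_sub_cancel' hk.le, ← mul_assoc, ← hS1]
      exact h
    have h2 := (mul_dvd_mul_iff_left (pow_ne_zero _ hpp.ne_zero)).mp h1
    have h3 := hpp.pow_dvd_of_dvd_mul_left _ hS2 h2
    exact (pow_dvd_pow p (by omega)).trans h3

/-- the total degree of an exponent in the box -/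
def bs {k : ℕ} (α : τ → Fin k) : ℕ := ∑ r, (α r : ℕ)

/-- the exponent -/
noncomputable def bx {k : ℕ} (α : τ → Fin k) : τ →₀ ℕ :=
  Finsupp.equivFunOnFinite.symm (fun r => (α r : ℕ))

omit [DecidableEq τ] in
lemma bx_inj {k : ℕ} : Function.Injective (bx : (τ → Fin k) → τ →₀ ℕ) := by
  intro α β h
  funext r
  have := congrArg (fun d : τ →₀ ℕ => d r) h
  exact Fin.ext this

/-- **pigeonhole** -/
theorem pig (k j0 H : ℕ) (Q : M → MvPolynomial τ ℤ_[l]) (S : MvPolynomial τ ℤ_[l])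
    (hQ : ∀ μ α, (l : ℤ_[l]) ^ (∑ r, α r) ∣ coeff α (Q μ))
    (hS : ∀ α, (l : ℤ_[l]) ^ (∑ r, α r) ∣ coeff α S)
    (hS2 : ∃ α, ¬ (l : ℤ_[l]) ^ (j0 + 1) ∣ coeff α S)
    (hpig : l ^ (j0 * k ^ Fintype.card τ) < (H + 1) ^ Fintype.card M) :
    ∃ G : M → ℤ, G ≠ 0 ∧ (∀ μ, |G μ| ≤ H) ∧ ∃ T : MvPolynomial τ ℤ_[l],
      ∀ α, (l : ℤ_[l]) ^ k ∣ coeff α (∑ μ, C (G μ : ℤ_[l]) * Q μ - S * T) := by
  classical
  have hl0 : 0 < l := hlf.out.pos
  have hlne : ∀ n, NeZero (l ^ n) := fun n => ⟨(pow_pos hl0 n).ne'⟩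
  let A : Type := (M → Fin (H + 1)) × (∀ α : τ → Fin k, Fin (l ^ (k - j0 - bs α)))
  let B : Type := ∀ α : τ → Fin k, ZMod (l ^ (k - bs α))
  have : ∀ α : τ → Fin k, Fintype (ZMod (l ^ (k - bs α))) := fun α => by
    have := hlne (k - bs α)
    infer_instance
  -- the second polynomial
  let Th : (∀ α : τ → Fin k, Fin (l ^ (k - j0 - bs α))) → MvPolynomial τ ℤ_[l] := fun h =>
    ∑ α : τ → Fin k, monomial (bx α) (((h α : ℕ) : ℤ_[l]) * (l : ℤ_[l]) ^ bs α)
  let Rr : A → MvPolynomial τ ℤ_[l] := fun a =>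
    ∑ μ, C (((a.1 μ : ℕ) : ℤ_[l])) * Q μ + S * Th a.2
  have hTh : ∀ h α, (l : ℤ_[l]) ^ (∑ r, α r) ∣ coeff α (Th h) := by
    intro h α
    simp only [Th, coeff_sum, coeff_monomial]
    apply Finset.dvd_sum
    intro β _
    split_ifs with hb
    · rw [← hb]
      apply Dvd.dvd.mul_left
      exact dvd_rfl
    · exact dvd_zero _
  have hRr : ∀ a α, (l : ℤ_[l]) ^ (∑ r, α r) ∣ coeff α (Rr a) := by
    intro a α
    simp only [Rr, coeff_add, coeff_sum]
    apply dvd_add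
    · apply Finset.dvd_sum
      intro μ _
      rw [coeff_C_mul]
      exact (hQ μ α).mul_left _
    · rw [coeff_mul]
      apply Finset.dvd_sum
      rintro ⟨β, γ⟩ hbg
      have hbg' : β + γ = α := by simpa using hbg
      have h1 : ∑ r, α r = ∑ r, β r + ∑ r, γ r := by
        rw [← hbg', ← Finset.sum_add_distrib]
        rfl
      rw [h1, pow_add]
      exact mul_dvd_mul (hS β) (hTh _ γ)
  choose quo hquo using hRr
  let Φ : A → B := fun a α => PadicInt.toZModPow (k - bs α) (quo a (bx α))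
  have hcard : Fintype.card B < Fintype.card A := by
    rw [Fintype.card_prod, Fintype.card_fun, Fintype.card_fin, Fintype.card_pi]
    simp only [Fintype.card_pi, Fintype.card_fin]
    have h1 : ∀ α : τ → Fin k, Fintype.card (ZMod (l ^ (k - bs α))) = l ^ (k - bs α) := by
      intro α
      exact ZMod.card _
    simp only [h1]
    have h2 : ∏ α : τ → Fin k, l ^ (k - bs α) ≤
        (∏ α : τ → Fin k, l ^ (k - j0 - bs α)) * l ^ (j0 * k ^ Fintype.card τ) := by
      have h3 : l ^ (j0 * k ^ Fintype.card τ) = ∏ _α : τ → Fin k, l ^ j0 := by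
        rw [Finset.prod_const, Finset.card_univ, Fintype.card_fun, Fintype.card_fin, ← pow_mul]
      rw [h3, ← Finset.prod_mul_distrib]
      apply Finset.prod_le_prod'
      intro α _
      rw [← pow_add]
      exact Nat.pow_le_pow_right hl0 (by omega)
    refine h2.trans_lt ?_
    rw [mul_comm]
    apply Nat.mul_lt_mul_of_pos_right hpig
    exact Finset.prod_pos (fun α _ => pow_pos hl0 _)
  obtain ⟨a, b, hab, hΦ⟩ := Fintype.exists_ne_map_eq_of_card_lt Φ hcard
  have hdiff : ∀ α, (l : ℤ_[l]) ^ k ∣ coeff α (Rr a - Rr b) := by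
    intro α
    rw [coeff_sub]
    by_cases hα : ∀ r, α r < k
    · have h1 : bx (fun r => (⟨α r, hα r⟩ : Fin k)) = α := by
        ext r
        rfl
      have h2 := congrFun hΦ (fun r => (⟨α r, hα r⟩ : Fin k))
      simp only [Φ] at h2
      rw [h1, ← sub_eq_zero, ← map_sub, ← RingHom.mem_ker, PadicInt.ker_toZModPow,
        Ideal.mem_span_singleton] at h2
      rw [hquo, hquo, ← mul_sub]
      have h3 : bs (fun r => (⟨α r, hα r⟩ : Fin k)) = ∑ r, α r := rfl
      rw [h3] at h2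
      rcases le_or_gt (∑ r, α r) k with hk | hk
      · calc (l : ℤ_[l]) ^ k = (l : ℤ_[l]) ^ (∑ r, α r) * (l : ℤ_[l]) ^ (k - ∑ r, α r) := by
              rw [← pow_add, Nat.add_sub_cancel' hk]
          _ ∣ _ := mul_dvd_mul_left _ h2
      · exact (pow_dvd_pow _ hk.le).mul_right _
    · push Not at hα
      obtain ⟨r, hr⟩ := hα
      have h1 : k ≤ ∑ r, α r := hr.trans (Finset.single_le_sum (f := fun r => α r)
        (fun _ _ => Nat.zero_le _) (Finset.mem_univ r))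
      rw [hquo, hquo, ← mul_sub]
      exact (pow_dvd_pow _ h1).mul_right _
  have hRd : Rr a - Rr b = ∑ μ, C ((((a.1 μ : ℕ) : ℤ) - ((b.1 μ : ℕ) : ℤ) : ℤ) : ℤ_[l]) * Q μ -
      S * (Th b.2 - Th a.2) := by
    simp only [Rr]
    have h1 : ∑ μ, C ((((a.1 μ : ℕ) : ℤ) - ((b.1 μ : ℕ) : ℤ) : ℤ) : ℤ_[l]) * Q μ =
        ∑ μ, C (((a.1 μ : ℕ) : ℤ_[l])) * Q μ - ∑ μ, C (((b.1 μ : ℕ) : ℤ_[l])) * Q μ := by
      rw [← Finset.sum_sub_distrib]
      apply Finset.sum_congr rfl
      intro μ _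
      rw [← sub_mul, ← C_sub]
      push_cast
      rfl
    rw [h1]
    ring
  refine ⟨fun μ => ((a.1 μ : ℕ) : ℤ) - ((b.1 μ : ℕ) : ℤ), ?_, ?_, Th b.2 - Th a.2, ?_⟩
  · intro h0
    apply hab
    have e1 : a.1 = b.1 := by
      funext μ
      have := congrFun h0 μ
      simp only [Pi.zero_apply] at this
      apply Fin.ext
      omega
    have h2 : ∀ α, (l : ℤ_[l]) ^ k ∣ coeff α (S * (Th a.2 - Th b.2)) := by
      intro α
      have h3 := hdiff α
      have h4 : Rr a - Rr b = S * (Th a.2 - Th b.2) := by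
        simp only [Rr, e1]
        ring
      rwa [h4] at h3
    have h3 := dvd_of_mul hS2 h2
    have e2 : a.2 = b.2 := by
      funext α
      have h4 := h3 (bx α)
      have h5 : ∀ h, coeff (bx α) (Th h) = ((h α : ℕ) : ℤ_[l]) * (l : ℤ_[l]) ^ bs α := by
        intro h
        simp only [Th, coeff_sum, coeff_monomial]
        rw [Finset.sum_eq_single α]
        · rw [if_pos rfl]
        · intro β _ hβ
          rw [if_neg (fun h => hβ (bx_inj h))]
        · intro h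
          exact absurd (Finset.mem_univ _) h
      rw [coeff_sub, h5, h5, ← sub_mul] at h4
      have hla := (a.2 α).isLt
      have hlb := (b.2 α).isLt
      apply Fin.ext
      rcases le_or_gt (k - j0) (bs α) with hk | hk
      · have h6 : k - j0 - bs α = 0 := by omega
        have h7 : l ^ (k - j0 - bs α) = 1 := by rw [h6, pow_zero]
        omega
      · have h6 : (l : ℤ_[l]) ^ (k - j0 - bs α) ∣ (((a.2 α : ℕ) : ℤ_[l]) - ((b.2 α : ℕ) : ℤ_[l])) := by
          have h7 : (l : ℤ_[l]) ^ (k - j0) = (l : ℤ_[l]) ^ (k - j0 - bs α) * (l : ℤ_[l]) ^ bs α := by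
            rw [← pow_add]
            congr 1
            omega
          rw [h7] at h4
          exact (mul_dvd_mul_iff_right (pow_ne_zero _
            (PadicInt.prime_p (p := l)).ne_zero)).mp h4
        have h7 : (l : ℤ) ^ (k - j0 - bs α) ∣ ((a.2 α : ℕ) : ℤ) - ((b.2 α : ℕ) : ℤ) := by
          rw [← PadicInt.pow_p_dvd_int_iff]
          push_cast
          exact h6
        by_contra hne
        have hne' : ((a.2 α : ℕ) : ℤ) - ((b.2 α : ℕ) : ℤ) ≠ 0 := by omega
        have h8 := Int.le_of_dvd (abs_pos.mpr hne') ((dvd_abs _ _).mpr h7)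
        have h9 : |((a.2 α : ℕ) : ℤ) - ((b.2 α : ℕ) : ℤ)| < (l : ℤ) ^ (k - j0 - bs α) := by
          rw [abs_lt]
          have hla' : ((a.2 α : ℕ) : ℤ) < (l : ℤ) ^ (k - j0 - bs α) := by exact_mod_cast hla
          have hlb' : ((b.2 α : ℕ) : ℤ) < (l : ℤ) ^ (k - j0 - bs α) := by exact_mod_cast hlb
          constructor <;> omega
        linarith
    exact Prod.ext e1 e2
  · intro μ
    have ha := (a.1 μ).isLt
    have hb := (b.1 μ).isLt
    rw [abs_le]
    constructor <;> push_cast <;> omega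
  · intro α
    rw [← hRd]
    exact hdiff α

end

end Pool.Agent.Y913.Wm
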