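import Pool.Agent.Y913.Wm.Hg
import Pool.Agent.Y913.Wm.Pg

/-!
The auxiliary polynomial in a residue class.
-/

set_option autoImplicit false

namespace Pool.Agent.Y913.Wm

open Finset MvPolynomial Matrix Pool.Agent.Y913.Vm

section

variable {l : ℕ} [hlf : Fact l.Prime] {τ : Type}

/-- coefficients of order `n` are divisible by `l ^ n` -/
def Gr [Fintype τ] (R : MvPolynomial τ ℤ_[l]) : Prop :=
  ∀ α, (l : ℤ_[l]) ^ (∑ r, α r) ∣ coeff α R

variable [Fintype τ] [DecidableEq τ]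

lemma Gr.mul {R S : MvPolynomial τ ℤ_[l]} (hR : Gr R) (hS : Gr S) : Gr (R * S) := by
  intro α
  rw [coeff_mul]
  apply Finset.dvd_sum
  rintro ⟨β, γ⟩ hbg
  have hbg' : β + γ = α := by simpa using hbg
  have h1 : ∑ r, α r = ∑ r, β r + ∑ r, γ r := by
    rw [← hbg', ← Finset.sum_add_distrib]
    rfl
  rw [h1, pow_add]
  exact mul_dvd_mul (hR β) (hS _)

lemma Gr.add {R S : MvPolynomial τ ℤ_[l]} (hR : Gr R) (hS : Gr S) : Gr (R + S) := by
  intro α
  rw [coeff_add]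
  exact dvd_add (hR α) (hS α)

lemma Gr.C (a : ℤ_[l]) : Gr (C a : MvPolynomial τ ℤ_[l]) := by
  intro α
  rw [coeff_C]
  split_ifs with h
  · rw [← h]
    simp
  · exact dvd_zero _

lemma Gr.X (r : τ) : Gr (MvPolynomial.C (l : ℤ_[l]) * MvPolynomial.X r : MvPolynomial τ ℤ_[l]) := by
  intro α
  rw [coeff_C_mul, coeff_X]
  split_ifs with h
  · rw [← h, mul_one]
    have : ∑ r', (Finsupp.single r 1 : τ →₀ ℕ) r' = 1 := by
      rw [Finset.sum_eq_single r]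
      · simp
      · intro b _ hb
        rw [Finsupp.single_eq_of_ne hb]
      · intro h
        exact absurd (Finset.mem_univ _) h
    rw [this, pow_one]
  · rw [mul_zero]
    exact dvd_zero _

lemma Gr.pow {R : MvPolynomial τ ℤ_[l]} (hR : Gr R) (n : ℕ) : Gr (R ^ n) := by
  induction n with
  | zero =>
    rw [pow_zero, ← C_1]
    exact Gr.C 1
  | succ n ih =>
    rw [pow_succ]
    exact ih.mul hR

lemma Gr.prod {J : Type} (s : Finset J) {R : J → MvPolynomial τ ℤ_[l]} (hR : ∀ j, Gr (R j)) :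
    Gr (∏ j ∈ s, R j) := by
  classical
  induction s using Finset.induction_on with
  | empty =>
    rw [Finset.prod_empty, ← C_1]
    exact Gr.C 1
  | insert j s hj ih =>
    rw [Finset.prod_insert hj]
    exact (hR j).mul ih

lemma dp_dvd_small (hl : 3 ≤ l) {n : ℕ} (hn : n < l) : (l : ℤ_[l]) ^ n ∣ dp l n := by
  have h1 := dp_mul hl n
  have h2 : ¬ l ∣ n.factorial := by
    rw [hlf.out.dvd_factorial]
    omega
  obtain ⟨u, hu⟩ := unit_nat (l := l) h2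
  rw [← hu] at h1
  exact ⟨(↑u⁻¹ : ℤ_[l]), by rw [← h1, mul_comm (u : ℤ_[l]), mul_assoc, Units.mul_inv, mul_one]⟩

lemma dp_not_dvd (hl : 3 ≤ l) {n m : ℕ} (hn : n ≤ m) : ¬ (l : ℤ_[l]) ^ (m + 1) ∣ dp l n := by
  intro h
  have h1 := dp_mul hl n
  have h2 : (l : ℤ_[l]) ^ (m + 1) ∣ (l : ℤ_[l]) ^ n := by
    rw [← h1]
    exact h.mul_left _
  have hp := PadicInt.prime_p (p := l)
  have h3 : m + 1 ≤ n := (pow_dvd_pow_iff hp.ne_zero hp.not_isUnit).mp h2
  omega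

end

section

variable {ν π κ : Type} [Fintype ν] [DecidableEq ν] [Fintype π] [DecidableEq π] [Fintype κ]
  [DecidableEq κ] {ι : κ → Vr ν} {F : κ → Rg (π ⊕ Vr ν)} {l : ℕ} [hlf : Fact l.Prime]

/-- **the auxiliary polynomial** -/
theorem aux2 (hl : 3 ≤ l) (hι : Function.Injective ι) {m0 : ℕ}
    (hm0 : ∀ n, (Xi ι F)^[n] (SU ι) ∈ Ideal.span {H | ∃ j ≤ m0, H = (Xi ι F)^[j] (SU ι)})
    {z : π → ℤ} {q : Vr ν → ℤ} {L : ν → ℤ_[l]} {Pu : ν → ℤ_[l]ˣ} {Ju : ℤ_[l]ˣ}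
    (hJ : (Ju : ℤ_[l]) = ((eval (Sum.elim z q) (jd Sum.inr ι F) : ℤ) : ℤ_[l]))
    (hF : ∀ a, eval (Sum.elim z q) (F a) = 0)
    (hPu : ∀ r, (Pu r : ℤ_[l]) = (q (Sum.inl r) : ℤ_[l]))
    (hL : ∀ r, Lo ((Pu r : ℤ_[l]) ^ (l - 1)) (((l : ℤ_[l]) - 1) * L r))
    (hL1 : ∀ r, (l : ℤ_[l]) ∣ (Pu r : ℤ_[l]) ^ (l - 1) - 1)
    (hne : ∃ n, ev (pf' ι (pv ι z q L Pu Ju 0)) ((Xi ι F)^[n] (SU ι)) ≠ 0)
    (k d H : ℕ) (hk : m0 < k) (hk2 : 2 * k ≤ l)
    (hpig : l ^ (m0 * k ^ Fintype.card (Fv ι)) < (H + 1) ^ (d ^ Fintype.card (Fv ι))) :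
    ∃ G : (Fv ι → Fin d) → ℤ, G ≠ 0 ∧ (∀ m, |G m| ≤ H) ∧ ∀ q' : Vr ν → ℤ,
      (∀ a, eval (Sum.elim z q') (F a) = 0) → (∀ k, (l : ℤ) ∣ q' k - q k) →
      (∀ j r, ((l : ℤ) - 1) ∣ q' (Sum.inr (j, r)) - q (Sum.inr (j, r))) →
      (∀ Pu' : ν → ℤ_[l]ˣ, (∀ r, (Pu' r : ℤ_[l]) = (q' (Sum.inl r) : ℤ_[l])) →
        ((∏ r, Pu' r ^ q' (Sum.inr (0, r)) : ℤ_[l]ˣ) : ℤ_[l]) +
          ((∏ r, Pu' r ^ q' (Sum.inr (1, r)) : ℤ_[l]ˣ) : ℤ_[l]) = 1) →
      (l : ℤ) ^ k ∣ ∑ m, G m * ∏ r : Fv ι, q' r.1 ^ (m r : ℕ) := by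
  classical
  obtain ⟨ph, hph⟩ : ∃ ph, ph = ev (pf' ι (pv ι z q L Pu Ju 0)) := ⟨_, rfl⟩
  obtain ⟨p, hp⟩ : ∃ p : ℕ → MvPolynomial (Fv ι) ℤ_[l], p = fun n => ph ((Xi ι F)^[n] (SU ι)) :=
    ⟨_, rfl⟩
  have hphom : ∀ n α, coeff α (p n) ≠ 0 → ∑ r, α r = n := by
    intro n α h
    rw [hp, hph] at h
    exact coeff_hom ι F _ n α h
  obtain ⟨cl, hcl⟩ : ∃ cl : MvPolynomial (Fv ι) ℤ_[l], cl = C (l : ℤ_[l]) := ⟨_, rfl⟩
  have hclp : Prime cl := by
    rw [hcl, prime_C_iff]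
    exact PadicInt.prime_p
  have hideal : ∀ (t : MvPolynomial (Fv ι) ℤ_[l]), (∀ j ≤ m0, t ∣ p j) → ∀ n, t ∣ p n := by
    intro t ht n
    have h1 : Ideal.span {H | ∃ j ≤ m0, H = (Xi ι F)^[j] (SU ι)} ≤
        (Ideal.span {t}).comap ph := by
      apply Ideal.span_le.mpr
      rintro G ⟨j, hj, rfl⟩
      show ph _ ∈ Ideal.span {t}
      rw [Ideal.mem_span_singleton]
      have := ht j hj
      rw [hp] at this
      exact this
    have h2 := h1 (hm0 n)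
    rw [Ideal.mem_comap, Ideal.mem_span_singleton] at h2
    rw [hp]
    exact h2
  obtain ⟨j1, hj1, hj1n⟩ : ∃ j ≤ m0, p j ≠ 0 := by
    by_contra hcon
    push Not at hcon
    obtain ⟨n, hn⟩ := hne
    have h1 := hideal 0 (fun j hj => by rw [hcon j hj]) n
    apply hn
    rw [hp, hph] at h1
    exact zero_dvd_iff.mp h1
  obtain ⟨τ, hτ1, hτ2⟩ : ∃ τ : ℕ, (∀ j ≤ m0, cl ^ τ ∣ p j) ∧ ∃ j ≤ m0, ¬ cl ^ (τ + 1) ∣ p j := by
    obtain ⟨N, hN⟩ := FiniteMultiplicity.of_prime_left hclp hj1n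
    have hex : ∃ t, ∃ j ≤ m0, ¬ cl ^ (t + 1) ∣ p j := ⟨N, j1, hj1, hN⟩
    refine ⟨Nat.find hex, ?_, Nat.find_spec hex⟩
    intro j hj
    rcases Nat.eq_zero_or_pos (Nat.find hex) with h0 | h0
    · rw [h0, pow_zero]
      exact one_dvd _
    · by_contra h1
      apply Nat.find_min hex (m := Nat.find hex - 1) (by omega)
      exact ⟨j, hj, by rwa [Nat.sub_add_cancel h0]⟩
  choose c hc using hideal (cl ^ τ) hτ1
  have hcnz : ∀ n α, coeff α (c n) ≠ 0 → ∑ r, α r = n := by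
    intro n α h
    apply hphom n α
    rw [hc n, hcl, ← C_pow, coeff_C_mul]
    exact mul_ne_zero (pow_ne_zero _ (PadicInt.prime_p (p := l)).ne_zero) h
  obtain ⟨S, hS⟩ : ∃ S : MvPolynomial (Fv ι) ℤ_[l], S = ∑ n ∈ range (2 * k), C (dp l n) * c n :=
    ⟨_, rfl⟩
  have hSc : ∀ α, coeff α S = ∑ n ∈ range (2 * k), dp l n * coeff α (c n) := by
    intro α
    rw [hS, coeff_sum]
    apply Finset.sum_congr rfl
    intro n _
    rw [coeff_C_mul]
  obtain ⟨Q, hQ⟩ : ∃ Q : (Fv ι → Fin d) → MvPolynomial (Fv ι) ℤ_[l], Q = fun m =>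
    ∏ r : Fv ι, (C ((q r.1 : ℤ) : ℤ_[l]) + C (l : ℤ_[l]) * X r) ^ (m r : ℕ) := ⟨_, rfl⟩
  obtain ⟨G, hG0, hGH, T, hGT⟩ := pig (l := l) k m0 H Q S (by
      intro m α
      rw [hQ]
      exact Gr.prod _ (fun r => ((Gr.C _).add (Gr.X r)).pow _) α) (by
      intro α
      rw [hSc]
      apply Finset.dvd_sum
      intro n hn
      rw [Finset.mem_range] at hn
      by_cases h0 : coeff α (c n) = 0
      · rw [h0, mul_zero]
        exact dvd_zero _
      · rw [hcnz n α h0]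
        exact (dp_dvd_small hl (by omega)).mul_right _) (by
      obtain ⟨j, hj, hjn⟩ := hτ2
      have h1 : ¬ cl ∣ c j := by
        intro h2
        apply hjn
        rw [hc j, pow_succ]
        exact mul_dvd_mul_left _ h2
      have h2 : ∃ α, ¬ (l : ℤ_[l]) ∣ coeff α (c j) := by
        by_contra hcon
        push Not at hcon
        apply h1
        rw [hcl, C_dvd_iff_dvd_coeff]
        exact hcon
      obtain ⟨α, hα⟩ := h2
      refine ⟨α, ?_⟩
      have h0 : coeff α (c j) ≠ 0 := by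
        intro h0
        rw [h0] at hα
        exact hα (dvd_zero _)
      have h3 := hcnz j α h0
      rw [hSc, Finset.sum_eq_single j]
      · intro h4
        have h5 := (PadicInt.prime_p (p := l)).pow_dvd_of_dvd_mul_right _ hα h4
        exact dp_not_dvd hl hj h5
      · intro n _ hn
        have : coeff α (c n) = 0 := by
          by_contra h4
          exact hn ((hcnz n α h4).symm.trans h3)
        rw [this, mul_zero]
      · intro h4
        rw [Finset.mem_range] at h4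
        omega) (by
      rw [Fintype.card_fun, Fintype.card_fin]
      exact hpig)
  refine ⟨G, hG0, hGH, ?_⟩
  intro q' hF' hcl1 hcl2 hSq
  rw [← PadicInt.pow_p_dvd_int_iff]
  -- the direction
  choose w0 hw0 using fun i : Fv ι => hcl1 i.1
  obtain ⟨w, hw⟩ : ∃ w : Fv ι → ℤ_[l], w = fun i => ((w0 i : ℤ) : ℤ_[l]) := ⟨_, rfl⟩
  have hpv : (fun s => eval w (pf' ι (pv ι z q L Pu Ju 0) s)) = pv ι z q L Pu Ju w0 := by
    funext s
    rcases s with s | (s | s) | s | s | i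
    · exact eval_C _
    · exact eval_C _
    · exact eval_C _
    · exact eval_C _
    · exact eval_C _
    · show eval w (X i) = _
      rw [eval_X, hw]
      rfl
  have hPu'l : ∀ r, ¬ (l : ℤ) ∣ q' (Sum.inl r) := by
    intro r h
    have h1 := dvd_sub h (hcl1 (Sum.inl r))
    rw [sub_sub_cancel] at h1
    obtain ⟨t, ht⟩ := h1
    have h2 : (l : ℤ_[l]) ∣ (Pu r : ℤ_[l]) := by
      rw [hPu, ht]
      push_cast
      exact dvd_mul_right _ _
    exact (PadicInt.prime_p (p := l)).not_isUnit (isUnit_of_dvd_unit h2 (Pu r).isUnit)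
  choose Pu' hPu' using fun r => unit_int (l := l) (hPu'l r)
  have hS1 := hSq Pu' hPu'
  have hlie : lie (Xi ι F) (ev (pv ι z q L Pu Ju w0)) (SU ι) = 0 := by
    have hv := fun j => flow_val (L := L) (Pu := Pu) (Pu' := Pu') hl hι hJ hF hF' hcl1 hw0 hPu hPu'
      hL hL1 hcl2 j
    unfold SU
    rw [← lieHom_apply _ _ hl, map_sub, map_add, map_one, lieHom_apply, lieHom_apply, hv 0, hv 1,
      hS1, sub_self]
  have hev : ∀ n, ev (pv ι z q L Pu Ju w0) ((Xi ι F)^[n] (SU ι)) =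
      (l : ℤ_[l]) ^ τ * eval w (c n) := by
    intro n
    rw [← hpv, ← eval_pf]
    have h1 := hc n
    rw [hp, hph] at h1
    simp only at h1
    rw [h1, hcl, ← C_pow, map_mul, eval_C]
  have hsum : ∑' n, eval w (c n) * dp l n = 0 := by
    unfold lie at hlie
    simp only [hev] at hlie
    have h1 : (l : ℤ_[l]) ^ τ * ∑' n, eval w (c n) * dp l n = 0 := by
      rw [← (summable_dp' hl _).tsum_mul_left, ← hlie]
      congr 1
      funext n
      ring
    exact (mul_eq_zero.mp h1).resolve_left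
      (pow_ne_zero _ (PadicInt.prime_p (p := l)).ne_zero)
  have hSw : (l : ℤ_[l]) ^ k ∣ eval w S := by
    have h1 := tsum_trunc hl (fun n => eval w (c n)) (2 * k) k (by omega)
    rw [hsum, zero_sub, dvd_neg] at h1
    have h2 : eval w S = ∑ n ∈ range (2 * k), eval w (c n) * dp l n := by
      rw [hS, map_sum]
      apply Finset.sum_congr rfl
      intro n _
      rw [map_mul, eval_C, mul_comm]
    rwa [h2]
  have hGw : (l : ℤ_[l]) ^ k ∣ eval w (∑ m, C (G m : ℤ_[l]) * Q m - S * T) := by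
    rw [MvPolynomial.eval_eq']
    apply Finset.dvd_sum
    intro α _
    exact (hGT α).mul_right _
  rw [map_sub, map_mul] at hGw
  have h1 := dvd_add hGw (hSw.mul_right (eval w T))
  rw [sub_add_cancel] at h1
  have h2 : eval w (∑ m, C (G m : ℤ_[l]) * Q m) =
      ((∑ m, G m * ∏ r : Fv ι, q' r.1 ^ (m r : ℕ) : ℤ) : ℤ_[l]) := by
    rw [map_sum]
    push_cast
    apply Finset.sum_congr rfl
    intro m _
    rw [map_mul, eval_C, hQ]
    simp only [map_prod, map_pow, map_add, map_mul, eval_C, eval_X]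
    congr 1
    apply Finset.prod_congr rfl
    intro r _
    congr 1
    have h3 := hw0 r
    have h4 : q' r.1 = q r.1 + l * w0 r := by linarith
    rw [h4, hw]
    push_cast
    rfl
  rw [h2] at h1
  exact h1

end

end Pool.Agent.Y913.Wm
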