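import Mathlib

/-!
Divided powers of `l` in the `l`-adic integers and exponentials of derivations.
-/

set_option autoImplicit false

namespace Pool.Agent.Y913.Wm

open Finset

section

variable {l : ℕ} [hlf : Fact l.Prime]

lemma unit_nat {m : ℕ} (h : ¬ l ∣ m) : IsUnit (m : ℤ_[l]) := by
  rw [PadicInt.isUnit_iff, PadicInt.norm_natCast_eq_one_iff]
  exact (Nat.Prime.coprime_iff_not_dvd hlf.out).mpr h

lemma unit_int {m : ℤ} (h : ¬ (l : ℤ) ∣ m) : IsUnit (m : ℤ_[l]) := by
  rw [PadicInt.isUnit_iff]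
  have h1 := PadicInt.norm_le_one (m : ℤ_[l])
  have h2 : ¬ ‖(m : ℤ_[l])‖ < 1 := by
    rw [PadicInt.norm_int_lt_one_iff_dvd]
    exact h
  exact le_antisymm h1 (not_lt.mp h2)

lemma exists_dp (hl : 3 ≤ l) (n : ℕ) : ∃ g : ℤ_[l], (n.factorial : ℤ_[l]) * g = (l : ℤ_[l]) ^ n ∧
    (l : ℤ_[l]) ^ ((n + 1) / 2) ∣ g := by
  have hp := hlf.out
  obtain ⟨v, m, hm, hn⟩ := Nat.exists_eq_pow_mul_and_not_dvd (Nat.factorial_ne_zero n) l hp.ne_one
  have hv : 2 * v ≤ n := by
    have h1 := sub_one_mul_padicValNat_factorial (p := l) n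
    have h2 : v ≤ padicValNat l n.factorial := by
      rw [← padicValNat_dvd_iff_le (Nat.factorial_ne_zero n), hn]
      exact dvd_mul_right _ _
    have h3 : 2 * padicValNat l n.factorial ≤ (l - 1) * padicValNat l n.factorial :=
      Nat.mul_le_mul_right _ (by omega)
    omega
  obtain ⟨u, hu⟩ := unit_nat (l := l) hm
  refine ⟨(l : ℤ_[l]) ^ (n - v) * (↑u⁻¹ : ℤ_[l]), ?_, ?_⟩
  · rw [hn]
    push_cast
    rw [← hu]
    calc (l : ℤ_[l]) ^ v * (u : ℤ_[l]) * ((l : ℤ_[l]) ^ (n - v) * (↑u⁻¹ : ℤ_[l])) =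
          ((l : ℤ_[l]) ^ v * (l : ℤ_[l]) ^ (n - v)) * ((u : ℤ_[l]) * (↑u⁻¹ : ℤ_[l])) := by ring
      _ = _ := by rw [← pow_add, Units.mul_inv, mul_one, Nat.add_sub_cancel' (by omega)]
  · apply Dvd.dvd.mul_right
    exact pow_dvd_pow _ (by omega)

/-- divided powers of `l` -/
noncomputable def dp (l : ℕ) [Fact l.Prime] (n : ℕ) : ℤ_[l] :=
  if h : 3 ≤ l then (exists_dp h n).choose else 0

lemma dp_mul (hl : 3 ≤ l) (n : ℕ) : (n.factorial : ℤ_[l]) * dp l n = (l : ℤ_[l]) ^ n := by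
  unfold dp
  rw [dif_pos hl]
  exact (exists_dp hl n).choose_spec.1

lemma dp_dvd (hl : 3 ≤ l) (n : ℕ) : (l : ℤ_[l]) ^ ((n + 1) / 2) ∣ dp l n := by
  unfold dp
  rw [dif_pos hl]
  exact (exists_dp hl n).choose_spec.2

lemma dp_zero (hl : 3 ≤ l) : dp l 0 = 1 := by
  have := dp_mul hl 0
  simpa using this

lemma dp_one (hl : 3 ≤ l) : dp l 1 = l := by
  have := dp_mul hl 1
  simpa using this

lemma dp_add (hl : 3 ≤ l) (i j : ℕ) :
    dp l i * dp l j = ((i + j).choose i : ℤ_[l]) * dp l (i + j) := by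
  have h1 := dp_mul hl i
  have h2 := dp_mul hl j
  have h3 := dp_mul hl (i + j)
  have h4 : ((i + j).choose i : ℤ_[l]) * i.factorial * j.factorial = (i + j).factorial := by
    have := Nat.add_choose_mul_factorial_mul_factorial i j
    rw [← Nat.choose_symm_add] at this
    exact_mod_cast this
  have h5 : (i.factorial : ℤ_[l]) ≠ 0 := Nat.cast_ne_zero.mpr (Nat.factorial_ne_zero _)
  have h6 : (j.factorial : ℤ_[l]) ≠ 0 := Nat.cast_ne_zero.mpr (Nat.factorial_ne_zero _)
  apply mul_left_cancel₀ (mul_ne_zero h5 h6)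
  calc (i.factorial : ℤ_[l]) * j.factorial * (dp l i * dp l j) =
        (i.factorial * dp l i) * (j.factorial * dp l j) := by ring
    _ = (l : ℤ_[l]) ^ (i + j) := by rw [h1, h2, pow_add]
    _ = (((i + j).choose i : ℤ_[l]) * i.factorial * j.factorial) * dp l (i + j) := by
        rw [h4, h3]
    _ = _ := by ring

lemma norm_of_dvd {x : ℤ_[l]} {n : ℕ} (h : (l : ℤ_[l]) ^ n ∣ x) : ‖x‖ ≤ ((1 : ℝ) / l) ^ n := by
  obtain ⟨y, rfl⟩ := h
  rw [norm_mul, norm_pow, PadicInt.norm_p]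
  have := PadicInt.norm_le_one y
  rw [one_div]
  calc ((l : ℝ)⁻¹) ^ n * ‖y‖ ≤ ((l : ℝ)⁻¹) ^ n * 1 := by gcongr
    _ = _ := mul_one _

lemma dvd_of_norm {x : ℤ_[l]} {n : ℕ} (h : ‖x‖ ≤ ((1 : ℝ) / l) ^ n) : (l : ℤ_[l]) ^ n ∣ x := by
  rw [← Ideal.mem_span_singleton, ← PadicInt.norm_le_pow_iff_mem_span_pow]
  rw [zpow_neg, zpow_natCast]
  rwa [one_div, inv_pow] at h

lemma dp_norm (hl : 3 ≤ l) (n : ℕ) : ‖dp l n‖ ≤ ((2 : ℝ) / 3) ^ n := by
  have h1 := norm_of_dvd (dp_dvd hl n)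
  have hl3 : (3 : ℝ) ≤ l := by exact_mod_cast hl
  have h2 : ((1 : ℝ) / l) ≤ ((2 : ℝ) / 3) ^ 2 := by
    rw [div_le_iff₀ (by linarith)]
    norm_num
    linarith
  calc ‖dp l n‖ ≤ ((1 : ℝ) / l) ^ ((n + 1) / 2) := h1
    _ ≤ (((2 : ℝ) / 3) ^ 2) ^ ((n + 1) / 2) := by gcongr
    _ = ((2 : ℝ) / 3) ^ (2 * ((n + 1) / 2)) := by rw [pow_mul]
    _ ≤ ((2 : ℝ) / 3) ^ n := by
        apply pow_le_pow_of_le_one (by norm_num) (by norm_num)
        omega

lemma summable_dp (hl : 3 ≤ l) (a : ℕ → ℤ_[l]) : Summable (fun n => ‖a n * dp l n‖) := by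
  apply Summable.of_nonneg_of_le (fun n => norm_nonneg _) (fun n => ?_)
    (summable_geometric_of_lt_one (by norm_num : (0 : ℝ) ≤ 2 / 3) (by norm_num))
  rw [norm_mul]
  calc ‖a n‖ * ‖dp l n‖ ≤ 1 * ((2 : ℝ) / 3) ^ n := by
        gcongr
        · exact PadicInt.norm_le_one _
        · exact dp_norm hl n
    _ = _ := one_mul _

lemma summable_dp' (hl : 3 ≤ l) (a : ℕ → ℤ_[l]) : Summable (fun n => a n * dp l n) :=
  (summable_dp hl a).of_norm

/-- a sum of multiples of a power of `l` -/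
lemma dvd_tsum (f : ℕ → ℤ_[l]) (n : ℕ) (h : ∀ i, (l : ℤ_[l]) ^ n ∣ f i) :
    (l : ℤ_[l]) ^ n ∣ ∑' i, f i := by
  by_cases hs : Summable f
  · apply dvd_of_norm
    have h1 : Filter.Tendsto (fun s : Finset ℕ => ‖∑ i ∈ s, f i‖) Filter.atTop
        (nhds ‖∑' i, f i‖) := hs.hasSum.norm
    apply le_of_tendsto' h1
    intro s
    exact norm_of_dvd (Finset.dvd_sum (fun i _ => h i))
  · rw [tsum_eq_zero_of_not_summable hs]
    exact dvd_zero _

/-- truncation -/
lemma tsum_trunc (hl : 3 ≤ l) (a : ℕ → ℤ_[l]) (N n : ℕ) (hN : 2 * n ≤ N + 1) :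
    (l : ℤ_[l]) ^ n ∣ (∑' i, a i * dp l i) - ∑ i ∈ range N, a i * dp l i := by
  rw [← (summable_dp' hl a).sum_add_tsum_nat_add N, add_sub_cancel_left]
  apply dvd_tsum
  intro i
  apply Dvd.dvd.mul_left
  exact (pow_dvd_pow _ (by omega)).trans (dp_dvd hl (i + N))

end

/-- derivations -/
structure Dn (R : Type) [CommRing R] where
  /-- the additive map -/
  ad : R →+ R
  /-- the product rule -/
  lb : ∀ a b, ad (a * b) = a * ad b + b * ad a

instance {R : Type} [CommRing R] : CoeFun (Dn R) fun _ => R → R := ⟨fun D => D.ad⟩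

section

variable {R : Type} [CommRing R]

lemma Dn.add (D : Dn R) (a b : R) : D (a + b) = D a + D b := map_add D.ad a b

lemma Dn.sub (D : Dn R) (a b : R) : D (a - b) = D a - D b := map_sub D.ad a b

lemma Dn.zero (D : Dn R) : D 0 = 0 := map_zero D.ad

lemma Dn.nsm (D : Dn R) (n : ℕ) (a : R) : D (n • a) = n • D a := map_nsmul D.ad n a

lemma Dn.zsm (D : Dn R) (n : ℤ) (a : R) : D (n • a) = n • D a := map_zsmul D.ad n a

lemma Dn.sum {J : Type} (D : Dn R) (s : Finset J) (f : J → R) :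
    D (∑ j ∈ s, f j) = ∑ j ∈ s, D (f j) := map_sum D.ad f s

lemma Dn.mul (D : Dn R) (a b : R) : D (a * b) = a * D b + b * D a := D.lb a b

lemma Dn.one (D : Dn R) : D 1 = 0 := by
  have h := D.mul 1 1
  rw [mul_one, one_mul] at h
  have h2 : D 1 + D 1 = D 1 + 0 := by rw [← h, add_zero]
  exact add_left_cancel h2

lemma Dn.int (D : Dn R) (n : ℤ) : D (n : R) = 0 := by
  have : (n : R) = n • (1 : R) := by simp
  rw [this, D.zsm, D.one, smul_zero]

lemma Dn.pow (D : Dn R) (a : R) (n : ℕ) : D (a ^ (n + 1)) = (n + 1 : ℕ) * a ^ n * D a := by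
  induction n with
  | zero => simp
  | succ n ih =>
    rw [pow_succ, D.mul, ih]
    push_cast
    ring

lemma iter_add (D : Dn R) (n : ℕ) (a b : R) :
    D^[n] (a + b) = D^[n] a + D^[n] b := by
  induction n generalizing a b with
  | zero => rfl
  | succ n ih => rw [Function.iterate_succ_apply, Function.iterate_succ_apply,
      Function.iterate_succ_apply, D.add, ih]

lemma iter_zero (D : Dn R) (n : ℕ) : D^[n] 0 = 0 := by
  induction n with
  | zero => rfl
  | succ n ih => rw [Function.iterate_succ_apply, D.zero, ih]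

lemma iter_sub (D : Dn R) (n : ℕ) (a b : R) :
    D^[n] (a - b) = D^[n] a - D^[n] b := by
  induction n generalizing a b with
  | zero => rfl
  | succ n ih => rw [Function.iterate_succ_apply, Function.iterate_succ_apply,
      Function.iterate_succ_apply, D.sub, ih]

lemma iter_mul (D : Dn R) (n : ℕ) (a b : R) :
    D^[n] (a * b) = ∑ ij ∈ Finset.HasAntidiagonal.antidiagonal n, n.choose ij.1 • (D^[ij.1] a * D^[ij.2] b) := by
  induction n with
  | zero => simp
  | succ n ih =>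
    rw [Function.iterate_succ_apply', ih, D.sum,
      Finset.sum_antidiagonal_choose_succ_nsmul (fun i j => D^[i] a * D^[j] b),
      ← Finset.sum_add_distrib]
    apply Finset.sum_congr rfl
    rintro ⟨i, j⟩ hij
    have hij' : i + j = n := by simpa using hij
    have hc : n.choose j = n.choose i := by
      rw [← hij']
      exact (Nat.choose_symm_add).symm
    simp only [hc]
    rw [D.nsm, D.mul, ← nsmul_add]
    congr 1
    rw [Function.iterate_succ_apply', Function.iterate_succ_apply']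
    ring

variable {l : ℕ} [hlf : Fact l.Prime] (D : Dn R) (φ : R →+* ℤ_[l])

/-- the value of the flow of a derivation at time `l` -/
noncomputable def lie (G : R) : ℤ_[l] := ∑' n, φ (D^[n] G) * dp l n

lemma lie_add (hl : 3 ≤ l) (G H : R) : lie D φ (G + H) = lie D φ G + lie D φ H := by
  unfold lie
  rw [← Summable.tsum_add (summable_dp' hl _) (summable_dp' hl _)]
  congr 1
  funext n
  rw [iter_add, map_add, add_mul]

lemma lie_mul (hl : 3 ≤ l) (G H : R) : lie D φ (G * H) = lie D φ G * lie D φ H := by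
  unfold lie
  rw [tsum_mul_tsum_eq_tsum_sum_antidiagonal_of_summable_norm (summable_dp hl _)
    (summable_dp hl _)]
  congr 1
  funext n
  rw [iter_mul, map_sum, Finset.sum_mul]
  apply Finset.sum_congr rfl
  rintro ⟨i, j⟩ hij
  have hij' : i + j = n := by simpa using hij
  subst hij'
  simp only [map_mul, nsmul_eq_mul, map_natCast]
  have := dp_add hl i j
  calc ((i + j).choose i : ℤ_[l]) * (φ (D^[i] G) * φ (D^[j] H)) * dp l (i + j) =
        (φ (D^[i] G) * φ (D^[j] H)) * (((i + j).choose i : ℤ_[l]) * dp l (i + j)) := by ring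
    _ = _ := by
        rw [← this]
        ring

lemma lie_const (hl : 3 ≤ l) (G : R) (h : ∀ n, φ (D^[n + 1] G) = 0) : lie D φ G = φ G := by
  unfold lie
  rw [tsum_eq_single 0]
  · rw [dp_zero hl, mul_one]
    rfl
  · intro n hn
    obtain ⟨m, rfl⟩ := Nat.exists_eq_succ_of_ne_zero hn
    have := h m
    rw [Nat.succ_eq_add_one, this, zero_mul]

lemma lie_one (hl : 3 ≤ l) : lie D φ 1 = 1 := by
  rw [lie_const D φ hl, map_one]
  intro n
  rw [Function.iterate_succ_apply, D.one, iter_zero, map_zero]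

/-- the flow as a ring homomorphism -/
noncomputable def lieHom (hl : 3 ≤ l) : R →+* ℤ_[l] where
  toFun := lie D φ
  map_one' := lie_one D φ hl
  map_mul' := lie_mul D φ hl
  map_zero' := by
    rw [lie_const D φ hl, map_zero]
    intro n
    rw [iter_zero, map_zero]
  map_add' := lie_add D φ hl

lemma lieHom_apply (hl : 3 ≤ l) (G : R) : lieHom D φ hl G = lie D φ G := rfl

/-- the functions vanishing along the flow -/
def Nul (G : R) : Prop := ∀ n, φ (D^[n] G) = 0

variable {D φ}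

lemma Nul.lie {G : R} (hl : 3 ≤ l) (h : Nul D φ G) : lie D φ G = 0 := by
  rw [lie_const D φ hl G (fun n => h (n + 1))]
  exact h 0

lemma Nul.deriv {G : R} (h : Nul D φ G) : Nul D φ (D G) := fun n => by
  have := h (n + 1)
  rwa [Function.iterate_succ_apply] at this

lemma Nul.iter {G : R} (h : Nul D φ G) (m : ℕ) : Nul D φ (D^[m] G) := fun n => by
  rw [← Function.iterate_add_apply]
  exact h (n + m)

lemma Nul.add {G H : R} (hG : Nul D φ G) (hH : Nul D φ H) : Nul D φ (G + H) := fun n => by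
  rw [iter_add, map_add, hG, hH, add_zero]

lemma Nul.sub {G H : R} (hG : Nul D φ G) (hH : Nul D φ H) : Nul D φ (G - H) := fun n => by
  rw [iter_sub, map_sub, hG, hH, sub_zero]

lemma Nul.mul {G : R} (Q : R) (hG : Nul D φ G) : Nul D φ (Q * G) := fun n => by
  rw [iter_mul, map_sum]
  apply Finset.sum_eq_zero
  intro ij _
  rw [map_nsmul, map_mul, hG, mul_zero, smul_zero]

lemma Nul.mul' {G : R} (Q : R) (hG : Nul D φ G) : Nul D φ (G * Q) := by
  rw [mul_comm]
  exact hG.mul Q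

lemma Nul.sum {J : Type} (s : Finset J) {G : J → R} (h : ∀ j ∈ s, Nul D φ (G j)) :
    Nul D φ (∑ j ∈ s, G j) := by
  classical
  induction s using Finset.induction_on with
  | empty =>
    intro n
    rw [Finset.sum_empty, iter_zero, map_zero]
  | insert j s hj ih =>
    rw [Finset.sum_insert hj]
    exact (h j (Finset.mem_insert_self _ _)).add (ih (fun i hi => h i (Finset.mem_insert_of_mem hi)))

lemma Nul.lie_eq {G H : R} (hl : 3 ≤ l) (h : Nul D φ (G - H)) :
    Wm.lie D φ G = Wm.lie D φ H := by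
  have h1 := h.lie hl
  rw [← lieHom_apply D φ hl, map_sub, lieHom_apply, lieHom_apply, sub_eq_zero] at h1
  exact h1

/-- a function proportional to its derivative by a power of `l` -/
lemma small_log (hl : 3 ≤ l) {W θ : R} (s : ℕ)
    (h : Nul D φ (D W - (l : R) ^ s * (W * D θ))) :
    (l : ℤ_[l]) ^ (2 * s) ∣ Wm.lie D φ W - φ W * (1 + (l : ℤ_[l]) ^ s *
      (Wm.lie D φ θ - φ θ)) := by
  have hcl : ∀ n, φ (D^[n] ((l : R) ^ s * (W * D θ))) =
      (l : ℤ_[l]) ^ s * φ (D^[n] (W * D θ)) := by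
    intro n
    have h1 : (l : R) ^ s * (W * D θ) = (l ^ s) • (W * D θ) := by
      rw [nsmul_eq_mul]
      push_cast
      rfl
    have h2 : ∀ (m n : ℕ) (G : R), D^[n] (m • G) = m • D^[n] G := by
      intro m n G
      induction n generalizing G with
      | zero => rfl
      | succ n ih => rw [Function.iterate_succ_apply, Function.iterate_succ_apply, D.nsm, ih]
    rw [h1, h2, map_nsmul, nsmul_eq_mul]
    push_cast
    rfl
  have h0 : ∀ n, φ (D^[n + 1] W) = (l : ℤ_[l]) ^ s * φ (D^[n] (W * D θ)) := by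
    intro n
    have h1 := h n
    rw [iter_sub, map_sub, sub_eq_zero, hcl] at h1
    rw [Function.iterate_succ_apply, h1]
  have h1 : ∀ n, (l : ℤ_[l]) ^ (2 * s) ∣ φ (D^[n + 1] W) -
      (l : ℤ_[l]) ^ s * (φ W * φ (D^[n + 1] θ)) := by
    intro n
    rw [h0, iter_mul, map_sum, ← mul_sub, two_mul, pow_add]
    apply mul_dvd_mul_left
    have hmem : ((0, n) : ℕ × ℕ) ∈ Finset.HasAntidiagonal.antidiagonal n := by simp
    rw [← Finset.add_sum_erase _ _ hmem]
    have h2 : φ (n.choose ((0, n) : ℕ × ℕ).1 • (D^[((0, n) : ℕ × ℕ).1] W *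
        D^[((0, n) : ℕ × ℕ).2] (D θ))) = φ W * φ (D^[n + 1] θ) := by
      simp only [Nat.choose_zero_right, one_smul, Function.iterate_zero, id_eq, map_mul]
      rw [Function.iterate_succ_apply]
    rw [h2, add_sub_cancel_left]
    apply Finset.dvd_sum
    rintro ⟨i, j⟩ hij
    rw [Finset.mem_erase] at hij
    obtain ⟨hne, hij⟩ := hij
    have hij' : i + j = n := by simpa using hij
    have hi : i ≠ 0 := by
      rintro rfl
      apply hne
      simp only [zero_add] at hij'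
      rw [hij']
    obtain ⟨i', rfl⟩ := Nat.exists_eq_succ_of_ne_zero hi
    simp only [map_nsmul, map_mul, Nat.succ_eq_add_one]
    rw [h0, nsmul_eq_mul]
    apply Dvd.dvd.mul_left
    rw [mul_assoc]
    exact dvd_mul_right _ _
  have e1 : Wm.lie D φ W = φ W + ∑' n, φ (D^[n + 1] W) * dp l (n + 1) := by
    unfold Wm.lie
    rw [(summable_dp' hl _).tsum_eq_zero_add, dp_zero hl, mul_one]
    rfl
  have e2 : Wm.lie D φ θ = φ θ + ∑' n, φ (D^[n + 1] θ) * dp l (n + 1) := by
    unfold Wm.lie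
    rw [(summable_dp' hl _).tsum_eq_zero_add, dp_zero hl, mul_one]
    rfl
  have hs : ∀ a : ℕ → ℤ_[l], Summable (fun n => a n * dp l (n + 1)) := by
    intro a
    have := (summable_nat_add_iff (f := fun n => a (n - 1) * dp l n) 1).mpr
      (summable_dp' hl (fun n => a (n - 1)))
    simpa using this
  have e3 : Wm.lie D φ W - φ W * (1 + (l : ℤ_[l]) ^ s * (Wm.lie D φ θ - φ θ)) =
      ∑' n, (φ (D^[n + 1] W) - (l : ℤ_[l]) ^ s * (φ W * φ (D^[n + 1] θ))) * dp l (n + 1) := by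
    rw [e1, e2]
    have h2 : φ W * ((l : ℤ_[l]) ^ s * ∑' n, φ (D^[n + 1] θ) * dp l (n + 1)) =
        ∑' n, (l : ℤ_[l]) ^ s * (φ W * φ (D^[n + 1] θ)) * dp l (n + 1) := by
      rw [← mul_assoc, ← (hs _).tsum_mul_left]
      congr 1
      funext n
      ring
    simp only [sub_mul]
    rw [Summable.tsum_sub (hs _) (hs _), ← h2]
    ring
  rw [e3]
  apply dvd_tsum
  intro n
  exact (h1 n).mul_right _

end

/-- an element congruent to one whose powers are very close to one -/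
lemma eq_one_of_pows {l : ℕ} [hlf : Fact l.Prime] (hl : 3 ≤ l) {x : ℤ_[l]}
    (h1 : (l : ℤ_[l]) ∣ x - 1) (h : ∀ N, (l : ℤ_[l]) ^ (2 * N) ∣ x ^ l ^ N - 1) : x = 1 := by
  by_contra hne
  have hx : x - 1 ≠ 0 := sub_ne_zero.mpr hne
  have hlp : Prime (l : ℤ_[l]) := PadicInt.prime_p
  have hfm : FiniteMultiplicity (l : ℤ_[l]) (x - 1) :=
    FiniteMultiplicity.of_prime_left hlp hx
  obtain ⟨k, w, hw, hw2⟩ : ∃ k w, x - 1 = (l : ℤ_[l]) ^ k * w ∧ ¬ (l : ℤ_[l]) ∣ w := by
    obtain ⟨w, hw1, hw2⟩ := hfm.exists_eq_pow_mul_and_not_dvd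
    exact ⟨_, w, hw1, hw2⟩
  have hk : 1 ≤ k := by
    by_contra hk
    have : k = 0 := by omega
    subst this
    rw [pow_zero, one_mul] at hw
    rw [hw] at h1
    exact hw2 h1
  have key : ∀ N, ∃ w, x ^ l ^ N = 1 + (l : ℤ_[l]) ^ (k + N) * w ∧ ¬ (l : ℤ_[l]) ∣ w := by
    intro N
    induction N with
    | zero =>
      refine ⟨w, ?_, hw2⟩
      rw [pow_zero, pow_one, add_zero, ← hw]
      ring
    | succ N ih =>
      obtain ⟨w, hw1, hw2⟩ := ih
      obtain ⟨m, hm⟩ : ∃ m, l = m + 3 := ⟨l - 3, by omega⟩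
      obtain ⟨y, hy⟩ : ∃ y : ℤ_[l], y = (l : ℤ_[l]) ^ (k + N) * w := ⟨_, rfl⟩
      have hyl : (l : ℤ_[l]) ∣ y := by
        rw [hy]
        exact (dvd_pow_self _ (by omega)).mul_right _
      -- the binomial expansion
      have hb : ∃ z, (1 + y) ^ l = 1 + (l : ℤ_[l]) * y + (l : ℤ_[l]) * (y * l) * z +
          y ^ l := by
        have h2 := add_pow y 1 l
        simp only [one_pow, mul_one] at h2
        have h3 : (1 + y) ^ l = ∑ i ∈ range (l + 1), y ^ i * ((l.choose i : ℕ) : ℤ_[l]) := by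
          rw [add_comm, h2]
        have h4 : ∀ i ∈ Finset.Ico 2 l, (l : ℤ_[l]) * (y * l) ∣
            y ^ i * ((l.choose i : ℕ) : ℤ_[l]) := by
          intro i hi
          rw [Finset.mem_Ico] at hi
          have h5 : l ∣ l.choose i := hlf.out.dvd_choose_self (by omega) (by omega)
          have h6 : (l : ℤ_[l]) ∣ ((l.choose i : ℕ) : ℤ_[l]) := by
            exact_mod_cast Nat.cast_dvd_cast (α := ℤ_[l]) h5
          have h7 : y * l ∣ y ^ i := by
            calc y * (l : ℤ_[l]) ∣ y * y := mul_dvd_mul_left _ hyl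
              _ = y ^ 2 := by ring
              _ ∣ y ^ i := pow_dvd_pow _ hi.1
          rw [mul_comm (l : ℤ_[l])]
          exact mul_dvd_mul h7 h6
        obtain ⟨z, hz⟩ := Finset.dvd_sum h4
        refine ⟨z, ?_⟩
        rw [h3, Finset.sum_range_succ, ← Finset.sum_range_add_sum_Ico _ (by omega : 2 ≤ l), hz]
        simp [Finset.sum_range_succ]
        ring
      obtain ⟨z, hz⟩ := hb
      have hyl2 : ∃ t, y ^ l = (l : ℤ_[l]) * (y * l) * t := by
        obtain ⟨t, ht⟩ := hyl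
        refine ⟨t * t * y ^ m, ?_⟩
        calc y ^ l = y ^ (m + 3) := by rw [← hm]
          _ = y * (y * y) * y ^ m := by ring
          _ = y * (((l : ℤ_[l]) * t) * ((l : ℤ_[l]) * t)) * y ^ m := by rw [← ht]
          _ = _ := by ring
      obtain ⟨t, ht⟩ := hyl2
      refine ⟨w + l * (w * z + w * t), ?_, ?_⟩
      · rw [pow_succ, pow_mul, hw1, ← hy, hz, ht, hy]
        ring
      · intro h5
        apply hw2
        rwa [dvd_add_left (dvd_mul_right _ _)] at h5
  obtain ⟨w', hw1, hw3⟩ := key (k + 1)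
  have h2 := h (k + 1)
  rw [hw1, add_sub_cancel_left] at h2
  apply hw3
  have h3 : (l : ℤ_[l]) ^ (k + (k + 1)) * l ∣ (l : ℤ_[l]) ^ (k + (k + 1)) * w' := by
    rw [← pow_succ]
    refine Dvd.dvd.trans ?_ h2
    exact pow_dvd_pow _ (by omega)
  exact (mul_dvd_mul_iff_left (pow_ne_zero _ hlp.ne_zero)).mp h3

end Pool.Agent.Y913.Wm
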