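import Pool.Agent.Y913.Wm.Xi

/-!
The flow computes the coordinates and the values of the products of powers at the integral points of
a residue class.
-/

set_option autoImplicit false

namespace Pool.Agent.Y913.Wm

open Finset MvPolynomial Matrix Pool.Agent.Y913.Vm

section

variable {l : ℕ} [hlf : Fact l.Prime]

/-- the `l`-adic filtration -/
noncomputable def lf (l : ℕ) [Fact l.Prime] : FR ℤ_[l] where
  W s := (Ideal.span {(l : ℤ_[l]) ^ s}).toAddSubgroup
  top a := by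
    show a ∈ Ideal.span {(l : ℤ_[l]) ^ 0}
    rw [Ideal.mem_span_singleton, pow_zero]
    exact one_dvd a
  mul s t a b ha hb := by
    have ha' : (l : ℤ_[l]) ^ s ∣ a := Ideal.mem_span_singleton.mp ha
    have hb' : (l : ℤ_[l]) ^ t ∣ b := Ideal.mem_span_singleton.mp hb
    show a * b ∈ Ideal.span {(l : ℤ_[l]) ^ (s + t)}
    rw [Ideal.mem_span_singleton, pow_add]
    exact mul_dvd_mul ha' hb'
  mono s t a hst ha := by
    have ha' : (l : ℤ_[l]) ^ t ∣ a := Ideal.mem_span_singleton.mp ha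
    show a ∈ Ideal.span {(l : ℤ_[l]) ^ s}
    rw [Ideal.mem_span_singleton]
    exact (pow_dvd_pow _ hst).trans ha'

lemma mem_lf {s : ℕ} {a : ℤ_[l]} : a ∈ (lf l).W s ↔ (l : ℤ_[l]) ^ s ∣ a :=
  Ideal.mem_span_singleton

lemma eq_zero_of_dvd {x : ℤ_[l]} (h : ∀ k, (l : ℤ_[l]) ^ k ∣ x) : x = 0 := by
  by_contra hx
  have hf := FiniteMultiplicity.of_prime_left (PadicInt.prime_p (p := l)) hx
  obtain ⟨n, hn⟩ := hf
  exact hn (h (n + 1))

variable {σ κ : Type} [Fintype σ] [DecidableEq σ] [Fintype κ] [DecidableEq κ]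

/-- uniqueness of the dependent coordinates -/
lemma uniq {V : Type} [Fintype V] [DecidableEq V] (u : V → σ) (ι : κ → V)
    (hinj : Function.Injective (fun b => u (ι b))) (F : κ → Rg σ) (p x y : σ → ℤ_[l])
    (hp : IsUnit (ev p (jd u ι F)))
    (hx : ∀ i, (l : ℤ_[l]) ∣ x i - p i) (hy : ∀ i, (l : ℤ_[l]) ∣ y i - p i)
    (hFx : ∀ a, ev x (F a) = 0) (hFy : ∀ a, ev y (F a) = 0)
    (hxy : ∀ i, (∀ b, i ≠ u (ι b)) → x i = y i) : x = y := by
  have key : ∀ k, 1 ≤ k → ∀ i, (l : ℤ_[l]) ^ k ∣ x i - y i := by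
    intro k hk
    induction k, hk using Nat.le_induction with
    | base =>
      intro i
      rw [pow_one]
      have := dvd_sub (hx i) (hy i)
      rwa [sub_sub_sub_cancel_right] at this
    | succ k hk ih =>
      have h1 : ∀ a, (l : ℤ_[l]) ^ (k + 1) ∣ ∑ b, ev p (pderiv (u (ι b)) (F a)) *
          (x (u (ι b)) - y (u (ι b))) := by
        intro a
        have h2 := taylor1 (lf l) k x y p (fun i => mem_lf.mpr (ih i))
          (fun i => mem_lf.mpr (by rw [pow_one]; exact hx i))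
          (fun i => mem_lf.mpr (by rw [pow_one]; exact hy i)) (F a)
        rw [mem_lf, hFx, hFy, sub_self, zero_sub, dvd_neg] at h2
        have h3 : ∑ i, ev p (pderiv i (F a)) * (x i - y i) =
            ∑ b, ev p (pderiv (u (ι b)) (F a)) * (x (u (ι b)) - y (u (ι b))) := by
          symm
          rw [← Finset.sum_image (s := Finset.univ) (g := fun b => u (ι b))
            (f := fun i => ev p (pderiv i (F a)) * (x i - y i)) (fun a _ b _ h => hinj h)]
          apply Finset.sum_subset (Finset.subset_univ _)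
          intro i _ hi
          rw [Finset.mem_image] at hi
          push Not at hi
          rw [hxy i (fun b h => hi b (Finset.mem_univ b) h.symm), sub_self, mul_zero]
        rwa [h3] at h2
      intro i
      by_cases hi : ∀ b, i ≠ u (ι b)
      · rw [hxy i hi, sub_self]
        exact dvd_zero _
      · push Not at hi
        obtain ⟨c, rfl⟩ := hi
        obtain ⟨M, hM⟩ : ∃ M : Matrix κ κ ℤ_[l], M = Matrix.of (fun a b =>
          ev p (pderiv (u (ι b)) (F a))) := ⟨_, rfl⟩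
        have hdet : M.det = ev p (jd u ι F) := by
          rw [hM]
          unfold jd
          rw [RingHom.map_det]
          rfl
        have h4 : M.det * (x (u (ι c)) - y (u (ι c))) =
            ∑ a, M.adjugate c a * ∑ b, ev p (pderiv (u (ι b)) (F a)) *
              (x (u (ι b)) - y (u (ι b))) := by
          have h5 : ∀ b, ∑ a, M.adjugate c a * ev p (pderiv (u (ι b)) (F a)) =
              if c = b then M.det else 0 := by
            intro b
            have h6 := congrFun (congrFun (Matrix.adjugate_mul M) c) b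
            rw [Matrix.mul_apply, Matrix.smul_apply, Matrix.one_apply, smul_eq_mul, mul_ite,
              mul_one, mul_zero] at h6
            rw [← h6]
            apply Finset.sum_congr rfl
            intro a _
            rw [hM]
            rfl
          simp only [Finset.mul_sum]
          rw [Finset.sum_comm]
          have h7 : ∀ b, ∑ a, M.adjugate c a * (ev p (pderiv (u (ι b)) (F a)) *
              (x (u (ι b)) - y (u (ι b)))) = (if c = b then M.det else 0) *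
              (x (u (ι b)) - y (u (ι b))) := by
            intro b
            rw [← h5, Finset.sum_mul]
            apply Finset.sum_congr rfl
            intro a _
            ring
          simp only [h7, ite_mul, zero_mul, Finset.sum_ite_eq, Finset.mem_univ, if_true]
        have h8 : (l : ℤ_[l]) ^ (k + 1) ∣ M.det * (x (u (ι c)) - y (u (ι c))) := by
          rw [h4]
          exact Finset.dvd_sum (fun a _ => (h1 a).mul_left _)
        rw [hdet] at h8
        obtain ⟨w, hw⟩ := hp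
        rw [← hw] at h8
        exact (Units.dvd_mul_left).mp h8
  funext i
  rw [← sub_eq_zero]
  apply eq_zero_of_dvd
  intro k
  exact (pow_dvd_pow _ (by omega : k ≤ k + 1)).trans (key (k + 1) (by omega) i)

end

section

variable {ν π κ : Type} [Fintype ν] [DecidableEq ν] [Fintype π] [DecidableEq π] [Fintype κ]
  [DecidableEq κ] {ι : κ → Vr ν} {F : κ → Rg (π ⊕ Vr ν)} {l : ℕ} [hlf : Fact l.Prime]

/-- the point with coordinates and auxiliary coordinates -/
noncomputable def pv (ι : κ → Vr ν) (z : π → ℤ) (q : Vr ν → ℤ) (L : ν → ℤ_[l]) (Pu : ν → ℤ_[l]ˣ)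
    (Ju : ℤ_[l]ˣ) (w : Fv ι → ℤ) : S2 π ν ι → ℤ_[l]
  | Sum.inl s => ((Sum.elim z q s : ℤ) : ℤ_[l])
  | Sum.inr (Sum.inl (Sum.inl r)) => L r
  | Sum.inr (Sum.inl (Sum.inr r)) => ((Pu r)⁻¹ : ℤ_[l]ˣ)
  | Sum.inr (Sum.inr (Sum.inl j)) => ((∏ r, Pu r ^ q (Sum.inr (j, r)) : ℤ_[l]ˣ) : ℤ_[l])
  | Sum.inr (Sum.inr (Sum.inr (Sum.inl _))) => (Ju⁻¹ : ℤ_[l]ˣ)
  | Sum.inr (Sum.inr (Sum.inr (Sum.inr i))) => (w i : ℤ_[l])

omit [Fintype π] [DecidableEq π] in
lemma ev_em (v : S2 π ν ι → ℤ_[l]) (x : π ⊕ Vr ν → ℤ) (hv : ∀ s, v (Sum.inl s) = (x s : ℤ_[l]))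
    (G : Rg (π ⊕ Vr ν)) : ev v (em ι G) = ((eval x G : ℤ) : ℤ_[l]) := by
  induction G using MvPolynomial.induction_on with
  | C a => rw [em_C, ev_C, eval_C]
  | add G H hG hH => rw [map_add, map_add, map_add, hG, hH, Int.cast_add]
  | mul_X G n hG => rw [map_mul, map_mul, map_mul, hG, em_X, ev_X, hv, eval_X, Int.cast_mul]

omit [Fintype π] [DecidableEq π] in
lemma lie_em (φ : Rg (S2 π ν ι) →+* ℤ_[l]) (hl : 3 ≤ l) (G : Rg (π ⊕ Vr ν)) :
    lie (Xi ι F) φ (em ι G) = ev (fun s => lie (Xi ι F) φ (X (Sum.inl s))) G := by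
  induction G using MvPolynomial.induction_on with
  | C a =>
    rw [em_C, ev_C, ← lieHom_apply _ _ hl]
    have : (C a : Rg (S2 π ν ι)) = ((a : ℤ) : Rg (S2 π ν ι)) := by simp
    rw [this, map_intCast]
  | add G H hG hH => rw [map_add, lie_add _ _ hl, hG, hH, map_add]
  | mul_X G n hG => rw [map_mul, lie_mul _ _ hl, hG, em_X, map_mul, ev_X]

/-- **the coordinates** -/
theorem flow_coord (hl : 3 ≤ l) (hι : Function.Injective ι) {z : π → ℤ} {q q' : Vr ν → ℤ}
    {L : ν → ℤ_[l]} {Pu : ν → ℤ_[l]ˣ} {Ju : ℤ_[l]ˣ} {w : Fv ι → ℤ}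
    (hJ : (Ju : ℤ_[l]) = ((eval (Sum.elim z q) (jd Sum.inr ι F) : ℤ) : ℤ_[l]))
    (hF : ∀ a, eval (Sum.elim z q) (F a) = 0) (hF' : ∀ a, eval (Sum.elim z q') (F a) = 0)
    (hcl : ∀ k, (l : ℤ) ∣ q' k - q k) (hw : ∀ i : Fv ι, q' i.1 - q i.1 = l * w i)
    (s : π ⊕ Vr ν) :
    lie (Xi ι F) (ev (pv ι z q L Pu Ju w)) (X (Sum.inl s)) = ((Sum.elim z q' s : ℤ) : ℤ_[l]) := by
  obtain ⟨φ, hφ⟩ : ∃ φ, φ = ev (pv ι z q L Pu Ju w) := ⟨_, rfl⟩
  have hv : ∀ s, pv ι z q L Pu Ju w (Sum.inl s) = ((Sum.elim z q s : ℤ) : ℤ_[l]) := fun s => rfl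
  have hφem : ∀ G, φ (em ι G) = ((eval (Sum.elim z q) G : ℤ) : ℤ_[l]) := by
    intro G
    rw [hφ]
    exact ev_em _ _ hv G
  have hJ1 : φ (vJ ι) * φ (em ι (jd Sum.inr ι F)) = 1 := by
    rw [hφem, ← hJ]
    have : φ (vJ ι) = ((Ju⁻¹ : ℤ_[l]ˣ) : ℤ_[l]) := by
      rw [hφ]
      unfold vJ
      rw [ev_X]
      rfl
    rw [this]
    exact Units.inv_mul _
  rw [← hφ]
  have key := uniq (l := l) (Sum.inr : Vr ν → π ⊕ Vr ν) ι
    (Sum.inr_injective.comp hι) F (fun s => ((Sum.elim z q s : ℤ) : ℤ_[l]))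
    (fun s => lie (Xi ι F) φ (X (Sum.inl s))) (fun s => ((Sum.elim z q' s : ℤ) : ℤ_[l])) (by
      have h1 := hφem (jd Sum.inr ι F)
      have h2 : ev (fun s => ((Sum.elim z q s : ℤ) : ℤ_[l])) (jd Sum.inr ι F) = (Ju : ℤ_[l]) := by
        rw [hJ, ← ev_em (pv ι z q L Pu Ju w) _ hv]
        have : ∀ G : Rg (π ⊕ Vr ν), ev (fun s => ((Sum.elim z q s : ℤ) : ℤ_[l])) G =
            ev (pv ι z q L Pu Ju w) (em ι G) := by
          intro G
          induction G using MvPolynomial.induction_on with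
          | C a => rw [em_C, ev_C, ev_C]
          | add G H hG hH => rw [map_add, map_add, map_add, hG, hH]
          | mul_X G n hG => rw [map_mul, map_mul, map_mul, hG, em_X, ev_X, ev_X, hv]
        exact this _
      rw [h2]
      exact Ju.isUnit)
    (fun s => by
      have := lie_cong (D := Xi ι F) (φ := φ) hl (X (Sum.inl s))
      have h1 : φ (X (Sum.inl s)) = ((Sum.elim z q s : ℤ) : ℤ_[l]) := by
        rw [hφ, ev_X]
        rfl
      rwa [h1] at this)
    (fun s => by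
      rcases s with j | k
      · simp
      · have h1 := hcl k
        have h2 : ((Sum.elim z q' (Sum.inr k) : ℤ) : ℤ_[l]) - ((Sum.elim z q (Sum.inr k) : ℤ) : ℤ_[l]) =
            (((q' k - q k : ℤ)) : ℤ_[l]) := by push_cast; rfl
        rw [h2]
        obtain ⟨c, hc⟩ := h1
        rw [hc]
        push_cast
        exact dvd_mul_right _ _)
    (fun a => by
      rw [← lie_em φ hl, lie_const _ _ hl, hφem, hF, Int.cast_zero]
      intro n
      rw [Function.iterate_succ_apply, Xi_F, iter_zero, map_zero])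
    (fun a => by
      have : ∀ G : Rg (π ⊕ Vr ν), ev (fun s => ((Sum.elim z q' s : ℤ) : ℤ_[l])) G =
          ((eval (Sum.elim z q') G : ℤ) : ℤ_[l]) := by
        intro G
        induction G using MvPolynomial.induction_on with
        | C a => rw [ev_C, eval_C]
        | add G H hG hH => rw [map_add, map_add, hG, hH, Int.cast_add]
        | mul_X G n hG => rw [map_mul, map_mul, hG, ev_X, eval_X, Int.cast_mul]
      rw [this, hF', Int.cast_zero])
    (fun s hs => by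
      rcases s with j | k
      · have h0 : Xi ι F (X (Sum.inl (Sum.inl j))) = 0 := by
          rw [Xi_X]
          rfl
        show lie (Xi ι F) φ (X (Sum.inl (Sum.inl j))) = _
        rw [lie_const _ _ hl]
        · rw [hφ, ev_X]
          rfl
        · intro n
          rw [Function.iterate_succ_apply, h0, iter_zero, map_zero]
      · have hk : ∀ b, k ≠ ι b := fun b h => hs b (by rw [h])
        show lie (Xi ι F) φ (X (Sum.inl (Sum.inr k))) = _
        have h1 := lie_free (F := F) (φ := φ) hl hJ1 (⟨k, hk⟩ : Fv ι)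
        rw [h1]
        have h2 : φ (X (Sum.inl (Sum.inr k))) = ((q k : ℤ) : ℤ_[l]) := by
          rw [hφ, ev_X]
          rfl
        have h3 : φ (vD ι ⟨k, hk⟩) = ((w ⟨k, hk⟩ : ℤ) : ℤ_[l]) := by
          rw [hφ]
          unfold vD
          rw [ev_X]
          rfl
        simp only
        rw [h2, h3]
        have h4 := hw ⟨k, hk⟩
        simp only at h4
        have h5 : q' k = q k + w ⟨k, hk⟩ * l := by linarith
        show _ = ((q' k : ℤ) : ℤ_[l])
        rw [h5]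
        push_cast
        rfl)
  exact congrFun key s

/-- **the values** -/
theorem flow_val (hl : 3 ≤ l) (hι : Function.Injective ι) {z : π → ℤ} {q q' : Vr ν → ℤ}
    {L : ν → ℤ_[l]} {Pu Pu' : ν → ℤ_[l]ˣ} {Ju : ℤ_[l]ˣ} {w : Fv ι → ℤ}
    (hJ : (Ju : ℤ_[l]) = ((eval (Sum.elim z q) (jd Sum.inr ι F) : ℤ) : ℤ_[l]))
    (hF : ∀ a, eval (Sum.elim z q) (F a) = 0) (hF' : ∀ a, eval (Sum.elim z q') (F a) = 0)
    (hcl : ∀ k, (l : ℤ) ∣ q' k - q k) (hw : ∀ i : Fv ι, q' i.1 - q i.1 = l * w i)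
    (hPu : ∀ r, (Pu r : ℤ_[l]) = (q (Sum.inl r) : ℤ_[l]))
    (hPu' : ∀ r, (Pu' r : ℤ_[l]) = (q' (Sum.inl r) : ℤ_[l]))
    (hL : ∀ r, Lo ((Pu r : ℤ_[l]) ^ (l - 1)) (((l : ℤ_[l]) - 1) * L r))
    (hL1 : ∀ r, (l : ℤ_[l]) ∣ (Pu r : ℤ_[l]) ^ (l - 1) - 1)
    (hcl2 : ∀ j r, ((l : ℤ) - 1) ∣ q' (Sum.inr (j, r)) - q (Sum.inr (j, r))) (j : Fin 2) :
    lie (Xi ι F) (ev (pv ι z q L Pu Ju w)) (vU ι j) =
      ((∏ r, Pu' r ^ q' (Sum.inr (j, r)) : ℤ_[l]ˣ) : ℤ_[l]) := by
  obtain ⟨φ, hφ⟩ : ∃ φ, φ = ev (pv ι z q L Pu Ju w) := ⟨_, rfl⟩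
  have hco := flow_coord (L := L) (Pu := Pu) hl hι hJ hF hF' hcl hw
  rw [← hφ] at hco ⊢
  have hQ : ∀ r, φ (vQ ι r) = (((Pu r)⁻¹ : ℤ_[l]ˣ) : ℤ_[l]) := by
    intro r
    rw [hφ]
    unfold vQ
    rw [ev_X]
    rfl
  have hP : ∀ r, φ (vP ι r) = (Pu r : ℤ_[l]) := by
    intro r
    rw [hφ, hPu]
    unfold vP
    rw [ev_X]
    rfl
  have hPQ : ∀ r, φ (vP ι r) * φ (vQ ι r) = 1 := by
    intro r
    rw [hQ, hP]
    exact Units.mul_inv _
  have hnQ : ∀ r, Nul (Xi ι F) φ (vP ι r * vQ ι r - 1) := fun r => nul_Q r (hPQ r)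
  have hEP : ∀ r, lie (Xi ι F) φ (vP ι r) = (Pu' r : ℤ_[l]) := by
    intro r
    rw [hPu']
    exact hco (Sum.inr (Sum.inl r))
  have hEQ : ∀ r, lie (Xi ι F) φ (vQ ι r) = (((Pu' r)⁻¹ : ℤ_[l]ˣ) : ℤ_[l]) := by
    intro r
    have h1 := (hnQ r).lie_eq hl
    rw [lie_mul _ _ hl, lie_one _ _ hl, hEP] at h1
    calc lie (Xi ι F) φ (vQ ι r) = (((Pu' r)⁻¹ : ℤ_[l]ˣ) : ℤ_[l]) *
          ((Pu' r : ℤ_[l]) * lie (Xi ι F) φ (vQ ι r)) := by
          rw [← mul_assoc, Units.inv_mul, one_mul]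
      _ = _ := by rw [h1, mul_one]
  -- the monomial with the opposite exponents
  obtain ⟨a', ha'⟩ : ∃ a' : ν → ℤ, a' = fun r => q' (Sum.inr (j, r)) := ⟨_, rfl⟩
  obtain ⟨m, hm⟩ : ∃ m : ν → Rg (S2 π ν ι), m = fun r => vQ ι r ^ (a' r).toNat *
    vP ι r ^ (-a' r).toNat := ⟨_, rfl⟩
  have hXP : ∀ r, Xi ι F (vP ι r) = xi ι F (Sum.inl r) := by
    intro r
    unfold vP
    rw [Xi_X]
    rfl
  have hXQ : ∀ r, Xi ι F (vQ ι r) = -(vQ ι r) ^ 2 * xi ι F (Sum.inl r) := by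
    intro r
    unfold vQ
    rw [Xi_X]
    rfl
  have hpowQ : ∀ r (n : ℕ), Xi ι F (vQ ι r ^ n) =
      -((n : Rg (S2 π ν ι)) * vQ ι r ^ n * (vQ ι r * xi ι F (Sum.inl r))) := by
    intro r n
    rcases n with _ | n
    · rw [pow_zero, (Xi ι F).one]
      simp
    · rw [(Xi ι F).pow, hXQ]
      push_cast
      ring
  have hpowP : ∀ r (n : ℕ), Nul (Xi ι F) φ (Xi ι F (vP ι r ^ n) -
      (n : Rg (S2 π ν ι)) * vP ι r ^ n * (vQ ι r * xi ι F (Sum.inl r))) := by
    intro r n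
    rcases n with _ | n
    · rw [pow_zero, (Xi ι F).one]
      simp only [Nat.cast_zero, zero_mul, sub_zero]
      exact nul_zero _ _
    · rw [(Xi ι F).pow, hXP]
      have e : ((n + 1 : ℕ) : Rg (S2 π ν ι)) * vP ι r ^ n * xi ι F (Sum.inl r) -
          ((n + 1 : ℕ) : Rg (S2 π ν ι)) * vP ι r ^ (n + 1) * (vQ ι r * xi ι F (Sum.inl r)) =
          -(((n + 1 : ℕ) : Rg (S2 π ν ι)) * vP ι r ^ n * xi ι F (Sum.inl r)) *
            (vP ι r * vQ ι r - 1) := by ring
      rw [e]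
      exact (hnQ r).mul _
  have hm1 : ∀ r, Nul (Xi ι F) φ (Xi ι F (m r) +
      m r * ((a' r : Rg (S2 π ν ι)) * (vQ ι r * xi ι F (Sum.inl r)))) := by
    intro r
    have e : Xi ι F (m r) + m r * ((a' r : Rg (S2 π ν ι)) * (vQ ι r * xi ι F (Sum.inl r))) =
        vQ ι r ^ (a' r).toNat * (Xi ι F (vP ι r ^ (-a' r).toNat) -
        (((-a' r).toNat : ℕ) : Rg (S2 π ν ι)) * vP ι r ^ (-a' r).toNat *
          (vQ ι r * xi ι F (Sum.inl r))) := by
      rw [hm]
      simp only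
      rw [(Xi ι F).mul, hpowQ]
      have h2 : (a' r : Rg (S2 π ν ι)) = (((a' r).toNat : ℕ) : Rg (S2 π ν ι)) -
          (((-a' r).toNat : ℕ) : Rg (S2 π ν ι)) := by
        have := Int.toNat_sub_toNat_neg (a' r)
        have h3 := congrArg (fun t : ℤ => (t : Rg (S2 π ν ι))) this
        simp only [Int.cast_sub, Int.cast_natCast] at h3
        exact h3.symm
      rw [h2]
      ring
    rw [e]
    exact (hpowP r _).mul _
  obtain ⟨MM, hMM⟩ : ∃ MM, MM = ∏ r, m r := ⟨_, rfl⟩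
  have hM1 : ∀ s : Finset ν, Nul (Xi ι F) φ (Xi ι F (∏ r ∈ s, m r) +
      (∏ r ∈ s, m r) * ∑ r ∈ s, (a' r : Rg (S2 π ν ι)) * (vQ ι r * xi ι F (Sum.inl r))) := by
    intro s
    induction s using Finset.induction_on with
    | empty =>
      rw [Finset.prod_empty, (Xi ι F).one, Finset.sum_empty, mul_zero, add_zero]
      exact nul_zero _ _
    | insert r s hr ih =>
      rw [Finset.prod_insert hr, Finset.sum_insert hr, (Xi ι F).mul]
      have e : m r * Xi ι F (∏ r ∈ s, m r) + (∏ r ∈ s, m r) * Xi ι F (m r) +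
          m r * (∏ r ∈ s, m r) * ((a' r : Rg (S2 π ν ι)) * (vQ ι r * xi ι F (Sum.inl r)) +
            ∑ r ∈ s, (a' r : Rg (S2 π ν ι)) * (vQ ι r * xi ι F (Sum.inl r))) =
          m r * (Xi ι F (∏ r ∈ s, m r) + (∏ r ∈ s, m r) *
            ∑ r ∈ s, (a' r : Rg (S2 π ν ι)) * (vQ ι r * xi ι F (Sum.inl r))) +
          (∏ r ∈ s, m r) * (Xi ι F (m r) + m r * ((a' r : Rg (S2 π ν ι)) *
            (vQ ι r * xi ι F (Sum.inl r)))) := by ring
      rw [e]
      exact (ih.mul _).add ((hm1 r).mul _)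
  have hM2 := hM1 Finset.univ
  rw [← hMM] at hM2
  obtain ⟨θ, hθ⟩ : ∃ θ : Rg (S2 π ν ι), θ = ∑ r, (vA ι j r - (a' r : Rg (S2 π ν ι))) * vL ι r :=
    ⟨_, rfl⟩
  have hXθ : Xi ι F θ = ∑ r, ((vA ι j r - (a' r : Rg (S2 π ν ι))) * (vQ ι r * xi ι F (Sum.inl r)) +
      vL ι r * xi ι F (Sum.inr (j, r))) := by
    rw [hθ, (Xi ι F).sum]
    apply Finset.sum_congr rfl
    intro r _
    have h1 : Xi ι F (vL ι r) = vQ ι r * xi ι F (Sum.inl r) := by
      unfold vL
      rw [Xi_X]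
      rfl
    have h2 : Xi ι F (vA ι j r) = xi ι F (Sum.inr (j, r)) := by
      unfold vA
      rw [Xi_X]
      rfl
    rw [(Xi ι F).mul, (Xi ι F).sub, (Xi ι F).int, sub_zero, h1, h2]
  have hXU : Xi ι F (vU ι j) = vU ι j * ∑ r, (vA ι j r * vQ ι r * xi ι F (Sum.inl r) +
      vL ι r * xi ι F (Sum.inr (j, r))) := by
    unfold vU
    rw [Xi_X]
    rfl
  have hnul : Nul (Xi ι F) φ (Xi ι F (vU ι j * MM) - vU ι j * MM * Xi ι F θ) := by
    have e : Xi ι F (vU ι j * MM) - vU ι j * MM * Xi ι F θ =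
        vU ι j * (Xi ι F MM + MM * ∑ r, (a' r : Rg (S2 π ν ι)) *
          (vQ ι r * xi ι F (Sum.inl r))) := by
      rw [(Xi ι F).mul, hXU, hXθ]
      have e2 : ∑ r, ((vA ι j r - (a' r : Rg (S2 π ν ι))) * (vQ ι r * xi ι F (Sum.inl r)) +
          vL ι r * xi ι F (Sum.inr (j, r))) = ∑ r, (vA ι j r * vQ ι r * xi ι F (Sum.inl r) +
          vL ι r * xi ι F (Sum.inr (j, r))) - ∑ r, (a' r : Rg (S2 π ν ι)) *
          (vQ ι r * xi ι F (Sum.inl r)) := by
        rw [← Finset.sum_sub_distrib]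
        apply Finset.sum_congr rfl
        intro r _
        ring
      rw [e2]
      ring
    rw [e]
    exact hM2.mul _
  -- the value at the base point
  have hφM : φ MM = ((∏ r, Pu r ^ (-a' r) : ℤ_[l]ˣ) : ℤ_[l]) := by
    rw [hMM, map_prod, Units.coe_prod]
    apply Finset.prod_congr rfl
    intro r _
    rw [hm]
    simp only [map_mul, map_pow, hQ, hP]
    rw [← Units.val_pow_eq_pow_val, ← Units.val_pow_eq_pow_val, ← Units.val_mul]
    congr 1
    rw [inv_pow, ← zpow_natCast, ← zpow_natCast, ← _root_.zpow_neg, ← _root_.zpow_add]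
    congr 1
    have := Int.toNat_sub_toNat_neg (a' r)
    linarith
  have hEM : lie (Xi ι F) φ MM = ((∏ r, Pu' r ^ (-a' r) : ℤ_[l]ˣ) : ℤ_[l]) := by
    rw [← lieHom_apply _ _ hl, hMM, map_prod, Units.coe_prod]
    apply Finset.prod_congr rfl
    intro r _
    rw [hm]
    simp only [map_mul, map_pow, lieHom_apply, hEQ, hEP]
    rw [← Units.val_pow_eq_pow_val, ← Units.val_pow_eq_pow_val, ← Units.val_mul]
    congr 1
    rw [inv_pow, ← zpow_natCast, ← zpow_natCast, ← _root_.zpow_neg, ← _root_.zpow_add]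
    congr 1
    have := Int.toNat_sub_toNat_neg (a' r)
    linarith
  have hφU : φ (vU ι j) = ((∏ r, Pu r ^ q (Sum.inr (j, r)) : ℤ_[l]ˣ) : ℤ_[l]) := by
    rw [hφ]
    unfold vU
    rw [ev_X]
    rfl
  choose t ht using fun r => hcl2 j r
  have hφV : φ (vU ι j * MM) = ((∏ r, (Pu r ^ (l - 1)) ^ (-t r) : ℤ_[l]ˣ) : ℤ_[l]) := by
    rw [map_mul, hφU, hφM, ← Units.val_mul, ← Finset.prod_mul_distrib]
    congr 1
    apply Finset.prod_congr rfl
    intro r _
    rw [← _root_.zpow_add, ← zpow_natCast, ← _root_.zpow_mul]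
    congr 1
    rw [ha']
    simp only
    push_cast [Nat.cast_sub (by omega : 1 ≤ l)]
    have := ht r
    linear_combination (-1 : ℤ) * this
  have hφθ : φ θ = ∑ r, (((-t r : ℤ) : ℤ_[l])) * (((l : ℤ_[l]) - 1) * L r) := by
    rw [hθ, map_sum]
    apply Finset.sum_congr rfl
    intro r _
    have h1 : φ (vL ι r) = L r := by
      rw [hφ]
      unfold vL
      rw [ev_X]
      rfl
    have h2 : φ (vA ι j r) = (q (Sum.inr (j, r)) : ℤ_[l]) := by
      rw [hφ]
      unfold vA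
      rw [ev_X]
      rfl
    rw [map_mul, map_sub, h1, h2, map_intCast, ha']
    have h3 := congrArg (fun t : ℤ => (t : ℤ_[l])) (ht r)
    simp only [Int.cast_sub, Int.cast_mul, Int.cast_natCast, Int.cast_one] at h3
    push_cast
    linear_combination (-1 : ℤ_[l]) * L r * h3
  have hy : Lo (φ (vU ι j * MM)) (φ θ) := by
    rw [hφV, hφθ]
    apply Lo.prod
    intro r
    apply Lo.zpow
    rw [Units.val_pow_eq_pow_val]
    exact hL r
  have hEθ : lie (Xi ι F) φ θ = 0 := by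
    rw [← lieHom_apply _ _ hl, hθ, map_sum]
    apply Finset.sum_eq_zero
    intro r _
    have h1 : lie (Xi ι F) φ (vA ι j r) = (q' (Sum.inr (j, r)) : ℤ_[l]) :=
      hco (Sum.inr (Sum.inr (j, r)))
    rw [map_mul, map_sub, map_intCast, lieHom_apply, h1, ha']
    simp
  have h1 := lo_lie hl hnul hy
  rw [hEθ] at h1
  have h2 : φ θ + (0 - φ θ) = 0 := by ring
  rw [h2] at h1
  have h3 := h1.eq_one hl (by
    have h4 := lie_cong (D := Xi ι F) (φ := φ) hl (vU ι j * MM)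
    have h5 : (l : ℤ_[l]) ∣ φ (vU ι j * MM) - 1 := by
      rw [hφV]
      apply cong_prod
      intro r
      apply cong_zpow
      rw [Units.val_pow_eq_pow_val]
      exact hL1 r
    have h6 := dvd_add h4 h5
    rwa [sub_add_sub_cancel] at h6)
  rw [lie_mul _ _ hl, hEM] at h3
  calc lie (Xi ι F) φ (vU ι j) = lie (Xi ι F) φ (vU ι j) *
        (((∏ r, Pu' r ^ (-a' r) : ℤ_[l]ˣ) : ℤ_[l]) *
          ((∏ r, Pu' r ^ (a' r) : ℤ_[l]ˣ) : ℤ_[l])) := by
        rw [← Units.val_mul, ← Finset.prod_mul_distrib]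
        have : ∀ r, Pu' r ^ (-a' r) * Pu' r ^ (a' r) = 1 := by
          intro r
          rw [← _root_.zpow_add]
          simp
        simp [this]
    _ = _ := by
        rw [← mul_assoc, h3, one_mul, ha']

end

end Pool.Agent.Y913.Wm
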