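import Pool.Agent.Y913.Wm.Sc
import Pool.Agent.Y913.Vm.Heavy

/-!
Triples all of whose members are products of powers of the same few multiplicatively independent
integers: all heights.
-/

set_option autoImplicit false

namespace Pool.Agent.Y913.Wm

open Finset Filter Pool.Agent.Y913 Pool.Agent.Y913.Nb Pool.Agent.Y913.Vm

/-- the height bound -/
lemma ib_height (n : ℕ) : ∃ H : ℕ, ∀ Y : ℝ, 2 ≤ Y → ∀ a b : ℕ, 0 < a → 0 < b →
    Nat.Coprime a b → ∀ (P : Fin n → ℕ) (e : Fin 3 → Fin n → ℕ),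
    (∀ r, 1 < P r ∧ (P r : ℝ) ≤ Y) → a = ∏ r, P r ^ e 0 r → b = ∏ r, P r ^ e 1 r →
    a + b = ∏ r, P r ^ e 2 r → Real.log ((a + b : ℕ) : ℝ) ≤ Y ^ H := by
  obtain ⟨C4, κ4, hC4, hht⟩ := padic_height4 n (1 / (n + 1)) (by positivity)
  obtain ⟨t, ht⟩ := exists_nat_ge (C4 * 3 ^ κ4 + 1)
  refine ⟨t + κ4, ?_⟩
  intro Y hY a b ha hb hab P e hP ha' hb' hc'
  have hY0 : 0 < Y := by linarith
  have hY1 : 1 ≤ Y := by linarith
  have hlY : 0 ≤ Real.log Y := Real.log_nonneg hY1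
  have hMpos : (0 : ℝ) < ((a + b : ℕ) : ℝ) := by exact_mod_cast (by omega : 0 < a + b)
  have hlc : 0 < Real.log ((a + b : ℕ) : ℝ) :=
    Real.log_pos (by exact_mod_cast (by omega : 1 < a + b))
  -- a heavy base
  obtain ⟨r, hr⟩ : ∃ r, Real.log ((a + b : ℕ) : ℝ) ≤ (n + 1) * (e 2 r * Real.log (P r)) := by
    by_contra hcon
    push Not at hcon
    have h1 : Real.log ((a + b : ℕ) : ℝ) = ∑ r, (e 2 r : ℝ) * Real.log (P r) := by
      rw [hc']
      push_cast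
      rw [Real.log_prod (fun r _ => pow_ne_zero _ (by
        have := (hP r).1
        positivity))]
      apply Finset.sum_congr rfl
      intro r _
      rw [Real.log_pow]
    have h2 : ∑ r, (e 2 r : ℝ) * Real.log (P r) ≤
        ∑ _r : Fin n, Real.log ((a + b : ℕ) : ℝ) / (n + 1) := by
      apply Finset.sum_le_sum
      intro r _
      rw [le_div_iff₀ (by positivity)]
      have := hcon r
      linarith
    rw [Finset.sum_const, Finset.card_univ, Fintype.card_fin, nsmul_eq_mul, ← h1] at h2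
    have h3 : (n : ℝ) * (Real.log ((a + b : ℕ) : ℝ) / (n + 1)) =
        Real.log ((a + b : ℕ) : ℝ) - Real.log ((a + b : ℕ) : ℝ) / (n + 1) := by
      field_simp
      ring
    rw [h3] at h2
    have h4 : 0 < Real.log ((a + b : ℕ) : ℝ) / (n + 1) := by positivity
    linarith
  obtain ⟨p, hp, hpr⟩ := Nat.exists_prime_and_dvd (by have := (hP r).1; omega : P r ≠ 1)
  have hpY : (p : ℝ) ≤ Y :=
    le_trans (by exact_mod_cast Nat.le_of_dvd (by have := (hP r).1; omega) hpr) (hP r).2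
  obtain ⟨k, hk⟩ : ∃ k, k = e 2 r := ⟨_, rfl⟩
  have hpc : p ^ k ∣ a + b := by
    rw [hc', hk]
    exact (pow_dvd_pow_of_dvd hpr _).trans
      (Finset.dvd_prod_of_mem (fun r => P r ^ e 2 r) (Finset.mem_univ r))
  have hdv : ((p ^ k : ℕ) : ℤ) ∣ (a : ℤ) + b := by
    have : ((p ^ k : ℕ) : ℤ) ∣ ((a + b : ℕ) : ℤ) := by exact_mod_cast hpc
    push_cast at this ⊢
    exact this
  have hna : NB n Y a := ⟨P, e 0, fun i => ⟨by have := (hP i).1; omega, (hP i).2⟩, ha'⟩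
  have hnb : NB n Y b := ⟨P, e 1, fun i => ⟨by have := (hP i).1; omega, (hP i).2⟩, hb'⟩
  have hlP : Real.log (P r) ≤ Real.log Y :=
    Real.log_le_log (by have := (hP r).1; positivity) (hP r).2
  have hkl : ∀ t : ℝ, t ≤ Real.log ((a + b : ℕ) : ℝ) →
      1 / (n + 1) * t ≤ k * ((p : ℝ) + (1 + Real.log Y)) := by
    intro t ht
    have h9 : (0 : ℝ) ≤ (k : ℝ) * (p + 1) := by positivity
    have h10 : 1 / ((n : ℝ) + 1) * t ≤ 1 / (n + 1) * Real.log ((a + b : ℕ) : ℝ) :=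
      mul_le_mul_of_nonneg_left ht (by positivity)
    have h11 : 1 / ((n : ℝ) + 1) * Real.log ((a + b : ℕ) : ℝ) ≤ k * Real.log Y := by
      rw [one_div, inv_mul_eq_div, div_le_iff₀ (by positivity)]
      calc Real.log ((a + b : ℕ) : ℝ) ≤ (n + 1) * (e 2 r * Real.log (P r)) := hr
        _ ≤ (n + 1) * (e 2 r * Real.log Y) := by gcongr
        _ = k * Real.log Y * (n + 1) := by rw [hk]; ring
    linarith
  have hfinish : ∀ s : ℝ, s ≤ C4 * ((p : ℝ) + (1 + Real.log Y)) ^ κ4 →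
      Real.log ((a + b : ℕ) : ℝ) ≤ Real.log 2 + s →
      Real.log ((a + b : ℕ) : ℝ) ≤ Y ^ (t + κ4) := by
    intro s hs1 hs2
    have h1 : (p : ℝ) + (1 + Real.log Y) ≤ 3 * Y := by
      have := Real.log_le_sub_one_of_pos hY0
      linarith
    have h2 : C4 * ((p : ℝ) + (1 + Real.log Y)) ^ κ4 ≤ C4 * (3 * Y) ^ κ4 := by gcongr
    have h3 : Real.log 2 ≤ 1 := by
      have := Real.log_two_lt_d9
      linarith
    have h4 : (1 : ℝ) ≤ Y ^ κ4 := one_le_pow₀ hY1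
    calc Real.log ((a + b : ℕ) : ℝ) ≤ 1 + C4 * (3 * Y) ^ κ4 := by linarith
      _ ≤ (C4 * 3 ^ κ4 + 1) * Y ^ κ4 := by
          rw [mul_pow]
          nlinarith
      _ ≤ Y ^ t * Y ^ κ4 := by
          apply mul_le_mul_of_nonneg_right _ (by positivity)
          calc C4 * 3 ^ κ4 + 1 ≤ t := ht
            _ ≤ 2 ^ t := by exact_mod_cast (Nat.lt_two_pow_self (n := t)).le
            _ ≤ Y ^ t := pow_le_pow_left₀ (by norm_num) hY _
      _ = Y ^ (t + κ4) := (pow_add _ _ _).symm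
  have hnn : 0 ≤ C4 * ((p : ℝ) + (1 + Real.log Y)) ^ κ4 := by positivity
  rcases lt_trichotomy a b with hlt | heq | hgt
  · apply hfinish (Real.log b)
    · apply hht Y hY1 p k hp (-1) (Or.inr rfl) (a, b) ha hlt hab hna hnb
      · simp only
        have e1 : (b : ℤ) - -1 * (a : ℤ) = (a : ℤ) + b := by ring
        rw [e1]
        exact hdv
      · apply hkl
        apply Real.log_le_log (by exact_mod_cast hb)
        push_cast
        have : (0 : ℝ) ≤ (a : ℝ) := Nat.cast_nonneg _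
        linarith
    · rw [← Real.log_mul (by norm_num) (by exact_mod_cast hb.ne')]
      apply Real.log_le_log hMpos
      push_cast
      have : (a : ℝ) < b := by exact_mod_cast hlt
      linarith
  · rw [heq] at hab
    have h9 : b = 1 := (Nat.coprime_self _).mp hab
    apply hfinish 0 hnn
    rw [heq, h9]
    norm_num
  · apply hfinish (Real.log a)
    · apply hht Y hY1 p k hp (-1) (Or.inr rfl) (b, a) hb hgt hab.symm hnb hna
      · simp only
        have e1 : (a : ℤ) - -1 * (b : ℤ) = (a : ℤ) + b := by ring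
        rw [e1]
        exact hdv
      · apply hkl
        apply Real.log_le_log (by exact_mod_cast ha)
        push_cast
        have : (0 : ℝ) ≤ (b : ℝ) := Nat.cast_nonneg _
        linarith
    · rw [← Real.log_mul (by norm_num) (by exact_mod_cast ha.ne')]
      apply Real.log_le_log hMpos
      push_cast
      have : (b : ℝ) < a := by exact_mod_cast hgt
      linarith

/-- the triples counted: all members are products of powers of the same `n` multiplicatively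
independent integers `≤ Y` -/
def Ib (n : ℕ) (K Y : ℝ) (q : ℕ × ℕ) : Prop :=
  0 < q.1 ∧ 0 < q.2 ∧ Nat.Coprime q.1 q.2 ∧ Y ^ K ≤ ((q.1 + q.2 : ℕ) : ℝ) ∧
  ∃ (P : Fin n → ℕ) (e : Fin 3 → Fin n → ℕ), (∀ r, 0 < P r ∧ (P r : ℝ) ≤ Y) ∧
    (∀ κ : Fin n → ℤ, ∏ r, ((P r : ℕ) : ℚ) ^ κ r = 1 → ∀ r, κ r = 0) ∧
    q.1 = ∏ r, P r ^ e 0 r ∧ q.2 = ∏ r, P r ^ e 1 r ∧ q.1 + q.2 = ∏ r, P r ^ e 2 r

lemma mi_one_lt {n : ℕ} {P : Fin n → ℕ} (h0 : ∀ r, 0 < P r)
    (h : ∀ κ : Fin n → ℤ, ∏ r, ((P r : ℕ) : ℚ) ^ κ r = 1 → ∀ r, κ r = 0) (r : Fin n) :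
    1 < P r := by
  by_contra hcon
  have h1 : P r = 1 := by have := h0 r; omega
  have h2 := h (Pi.single r 1) (by
    apply Finset.prod_eq_one
    intro s _
    by_cases hs : s = r
    · rw [hs, h1]
      simp
    · rw [Pi.single_eq_of_ne hs, zpow_zero]) r
  rw [Pi.single_eq_same] at h2
  exact one_ne_zero h2

/-- the vector of bases and exponents -/
def vec {n : ℕ} (P : Fin n → ℕ) (e : Fin 3 → Fin n → ℕ) : Vr (Fin n) → ℤ
  | Sum.inl r => P r
  | Sum.inr (j, r) => (e j.castSucc r : ℤ) - e 2 r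

lemma rt_vec {n : ℕ} {P : Fin n → ℕ} (h0 : ∀ r, 0 < P r) (e : Fin 3 → Fin n → ℕ) (j : Fin 2) :
    rt (vec P e) j = ((∏ r, P r ^ e j.castSucc r : ℕ) : ℚ) / ((∏ r, P r ^ e 2 r : ℕ) : ℚ) := by
  unfold rt
  push_cast
  rw [← Finset.prod_div_distrib]
  apply Finset.prod_congr rfl
  intro r _
  have hne : ((P r : ℕ) : ℚ) ≠ 0 := Nat.cast_ne_zero.mpr (h0 r).ne'
  show (((P r : ℕ) : ℤ) : ℚ) ^ ((e j.castSucc r : ℤ) - e 2 r) = _
  rw [Int.cast_natCast, zpow_sub₀ hne, zpow_natCast, zpow_natCast]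

lemma exp_le {n : ℕ} {P : Fin n → ℕ} (h1 : ∀ r, 1 < P r) (e : Fin n → ℕ) (r : Fin n) {B : ℝ}
    (hB : Real.log ((∏ r, P r ^ e r : ℕ) : ℝ) ≤ B) : (e r : ℝ) ≤ 2 * B := by
  have h2 : P r ^ e r ∣ ∏ r, P r ^ e r :=
    Finset.dvd_prod_of_mem (fun r => P r ^ e r) (Finset.mem_univ r)
  have hpos : 0 < ∏ r, P r ^ e r := Finset.prod_pos (fun r _ => pow_pos (by
    have := h1 r
    omega) _)
  have h4 : 2 ^ e r ≤ ∏ r, P r ^ e r :=
    (Nat.pow_le_pow_left (h1 r) _).trans (Nat.le_of_dvd hpos h2)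
  have h5 : (e r : ℝ) * Real.log 2 ≤ Real.log ((∏ r, P r ^ e r : ℕ) : ℝ) := by
    rw [← Real.log_pow]
    apply Real.log_le_log (by positivity)
    exact_mod_cast h4
  have h6 : (0.6931471803 : ℝ) < Real.log 2 := Real.log_two_gt_d9
  have h7 : (0 : ℝ) ≤ (e r : ℝ) := Nat.cast_nonneg _
  nlinarith

/-- **the count of triples of all heights** -/
theorem ib_count (n : ℕ) (ε : ℝ) (hε : 0 < ε) : ∃ K C : ℝ, 0 < K ∧ 0 < C ∧
    ∀ Y : ℝ, 1 ≤ Y → ∀ Q : Finset (ℕ × ℕ), (∀ q ∈ Q, Ib n K Y q) →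
      (Q.card : ℝ) ≤ C * Y ^ ε := by
  classical
  obtain ⟨H, hH⟩ := ib_height n
  obtain ⟨K1, hev⟩ := count_all (Fin n) (H + 2) ε hε
  obtain ⟨Z1, hZ1⟩ := eventually_atTop.mp hev
  obtain ⟨Z0, hZ0⟩ : ∃ Z0 : ℝ, Z0 = max Z1 4 := ⟨_, rfl⟩
  have hZ04 : 4 ≤ Z0 := by rw [hZ0]; exact le_max_right _ _
  have hZ01 : Z1 ≤ Z0 := by rw [hZ0]; exact le_max_left _ _
  have hl2 : 0 < Real.log 2 := Real.log_pos (by norm_num)
  obtain ⟨K, hK⟩ : ∃ K : ℝ, K = K1 + K1 * (Real.log Z0 / Real.log 2) + 1 := ⟨_, rfl⟩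
  have hlZ0 : 0 < Real.log Z0 := Real.log_pos (by linarith)
  refine ⟨K, Z0 ^ ε, by rw [hK]; positivity, by positivity, ?_⟩
  intro Y hY Q hQ
  rcases lt_or_ge Y 2 with hY2 | hY2
  · have hQ0 : Q = ∅ := by
      apply Finset.eq_empty_of_forall_notMem
      intro q hq
      obtain ⟨h1, h2, h3, h4, P, e, h5, h6, h7, h8, h9⟩ := hQ q hq
      have e1 : IsEmpty (Fin n) := by
        constructor
        intro r
        have f1 := mi_one_lt (fun r => (h5 r).1) h6 r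
        have f2 : (2 : ℝ) ≤ (P r : ℝ) := by exact_mod_cast f1
        linarith [(h5 r).2]
      simp only [Finset.univ_eq_empty, Finset.prod_empty] at h7 h8 h9
      omega
    rw [hQ0]
    simp only [Finset.card_empty, Nat.cast_zero]
    positivity
  have hYpos : 0 < Y := by linarith
  obtain ⟨Z, hZ⟩ : ∃ Z : ℝ, Z = Z0 * Y := ⟨_, rfl⟩
  have hZY : Y ≤ Z := by rw [hZ]; nlinarith
  have hZZ0 : Z0 ≤ Z := by rw [hZ]; nlinarith
  have hZpos : 0 < Z := by linarith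
  have hZ1' : 1 ≤ Z := by linarith
  have hZ4 : 4 ≤ Z := by linarith
  have hZfin : Z ^ ε = Z0 ^ ε * Y ^ ε := by
    rw [hZ, Real.mul_rpow (by linarith) (by linarith)]
  have hcount := hZ1 Z (hZ01.trans hZZ0)
  have hZK : Z ^ K1 ≤ Y ^ K := by
    rw [← Real.rpow_natCast, hZ, Real.mul_rpow (by linarith) (by linarith)]
    have h1 : Z0 ^ (K1 : ℝ) ≤ Y ^ (K1 * (Real.log Z0 / Real.log 2)) := by
      rw [Real.rpow_def_of_pos (by linarith), Real.rpow_def_of_pos hYpos]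
      apply Real.exp_le_exp.mpr
      have h2 : Real.log 2 ≤ Real.log Y := Real.log_le_log (by norm_num) hY2
      calc Real.log Z0 * K1 = Real.log 2 * (K1 * (Real.log Z0 / Real.log 2)) := by
            field_simp
        _ ≤ Real.log Y * (K1 * (Real.log Z0 / Real.log 2)) := by
            apply mul_le_mul_of_nonneg_right h2
            positivity
    calc Z0 ^ (K1 : ℝ) * Y ^ (K1 : ℝ) ≤ Y ^ (K1 * (Real.log Z0 / Real.log 2)) * Y ^ (K1 : ℝ) := by
          gcongr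
      _ = Y ^ (K1 * (Real.log Z0 / Real.log 2) + K1) := by rw [← Real.rpow_add hYpos]
      _ ≤ Y ^ K := by
          apply Real.rpow_le_rpow_of_exponent_le hY
          rw [hK]
          linarith
  rw [← hZfin]
  have hrep : ∀ q ∈ Q, ∃ (P : Fin n → ℕ) (e : Fin 3 → Fin n → ℕ),
      (∀ r, 0 < P r ∧ (P r : ℝ) ≤ Y) ∧
      (∀ κ : Fin n → ℤ, ∏ r, ((P r : ℕ) : ℚ) ^ κ r = 1 → ∀ r, κ r = 0) ∧
      q.1 = ∏ r, P r ^ e 0 r ∧ q.2 = ∏ r, P r ^ e 1 r ∧ q.1 + q.2 = ∏ r, P r ^ e 2 r :=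
    fun q hq => (hQ q hq).2.2.2.2
  choose! P e hP hmi ha hb hc using hrep
  have hv : ∀ q ∈ Q, rt (vec (P q) (e q)) 0 = (q.1 : ℚ) / ((q.1 + q.2 : ℕ) : ℚ) ∧
      rt (vec (P q) (e q)) 1 = (q.2 : ℚ) / ((q.1 + q.2 : ℕ) : ℚ) := by
    intro q hq
    have e0 := rt_vec (fun r => (hP q hq r).1) (e q) 0
    have e1 := rt_vec (fun r => (hP q hq r).1) (e q) 1
    have f0 : (Fin.castSucc (0 : Fin 2)) = (0 : Fin 3) := rfl
    have f1 : (Fin.castSucc (1 : Fin 2)) = (1 : Fin 3) := rfl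
    rw [f0] at e0
    rw [f1] at e1
    rw [e0, e1, ← ha q hq, ← hb q hq, ← hc q hq]
    exact ⟨rfl, rfl⟩
  have hinj : ∀ q ∈ Q, ∀ q' ∈ Q, rt (vec (P q) (e q)) 0 = rt (vec (P q') (e q')) 0 →
      rt (vec (P q) (e q)) 1 = rt (vec (P q') (e q')) 1 → q = q' := by
    intro q hq q' hq' h1 h2
    rw [(hv q hq).1, (hv q' hq').1] at h1
    rw [(hv q hq).2, (hv q' hq').2] at h2
    obtain ⟨g1, g2, g3, -⟩ := hQ q hq
    obtain ⟨g1', g2', g3', -⟩ := hQ q' hq'
    have hs : ((q.1 + q.2 : ℕ) : ℚ) ≠ 0 := Nat.cast_ne_zero.mpr (by omega)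
    have hs' : ((q'.1 + q'.2 : ℕ) : ℚ) ≠ 0 := Nat.cast_ne_zero.mpr (by omega)
    rw [div_eq_div_iff hs hs'] at h1
    have heq' : q.1 * (q'.1 + q'.2) = q'.1 * (q.1 + q.2) := by exact_mod_cast h1
    have heq2 : q.1 * q'.2 = q'.1 * q.2 := by nlinarith
    have d1 : q.1 ∣ q'.1 := by
      apply g3.dvd_of_dvd_mul_right
      exact ⟨q'.2, heq2.symm⟩
    have d2 : q'.1 ∣ q.1 := by
      apply g3'.dvd_of_dvd_mul_right
      exact ⟨q.2, heq2⟩
    have e1 : q.1 = q'.1 := Nat.dvd_antisymm d1 d2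
    have e2 : q.2 = q'.2 := by
      rw [e1] at heq2
      exact (Nat.eq_of_mul_eq_mul_left g1' heq2).symm
    exact Prod.ext e1 e2
  obtain ⟨E, hE⟩ : ∃ E, E = Q.image (fun q => vec (P q) (e q)) := ⟨_, rfl⟩
  have hcard : Q.card = E.card := by
    rw [hE, Finset.card_image_of_injOn]
    intro q hq q' hq' heq
    beta_reduce at heq
    exact hinj q hq q' hq' (by rw [heq]) (by rw [heq])
  rw [hcard]
  apply hcount E
  · intro v hv'
    rw [hE, Finset.mem_image] at hv'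
    obtain ⟨q, hq, rfl⟩ := hv'
    obtain ⟨g1, g2, g3, g4, -⟩ := hQ q hq
    have hP1 := mi_one_lt (fun r => (hP q hq r).1) (hmi q hq)
    have hht := hH Y hY2 q.1 q.2 g1 g2 g3 (P q) (e q) (fun r => ⟨hP1 r, (hP q hq r).2⟩)
      (ha q hq) (hb q hq) (hc q hq)
    have hMpos : (0 : ℝ) < ((q.1 + q.2 : ℕ) : ℝ) := by exact_mod_cast (by omega : 0 < q.1 + q.2)
    have hYZ : Y ^ H ≤ Z ^ H := pow_le_pow_left₀ hYpos.le hZY _
    have hexp : ∀ j : Fin 3, ∀ r, (e q j r : ℝ) ≤ 2 * Z ^ H := by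
      intro j r
      apply exp_le hP1
      refine le_trans (le_trans ?_ hht) hYZ
      fin_cases j
      · show Real.log ((∏ r, P q r ^ e q 0 r : ℕ) : ℝ) ≤ _
        rw [← ha q hq]
        apply Real.log_le_log (by exact_mod_cast g1)
        exact_mod_cast (by omega : q.1 ≤ q.1 + q.2)
      · show Real.log ((∏ r, P q r ^ e q 1 r : ℕ) : ℝ) ≤ _
        rw [← hb q hq]
        apply Real.log_le_log (by exact_mod_cast g2)
        exact_mod_cast (by omega : q.2 ≤ q.1 + q.2)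
      · show Real.log ((∏ r, P q r ^ e q 2 r : ℕ) : ℝ) ≤ _
        rw [← hc q hq]
    have hZH : 0 < Z ^ H := by positivity
    refine ⟨?_, ?_, ?_, q.1, q.2, g1, g2, g3, (hv q hq).1, (hv q hq).2, hZK.trans g4⟩
    · rintro (r | ⟨j, r⟩)
      · show |((((P q r : ℕ) : ℤ)) : ℝ)| ≤ _
        rw [Int.cast_natCast, abs_of_nonneg (Nat.cast_nonneg _)]
        calc (P q r : ℝ) ≤ Y := (hP q hq r).2
          _ ≤ Z := hZY
          _ = Z ^ 1 := (pow_one Z).symm
          _ ≤ Z ^ (H + 2) := pow_le_pow_right₀ hZ1' (by omega)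
      · show |((((e q j.castSucc r : ℕ) : ℤ) - ((e q 2 r : ℕ) : ℤ) : ℤ) : ℝ)| ≤ _
        push_cast
        have f1 := hexp j.castSucc r
        have f2 := hexp 2 r
        have f3 : (0 : ℝ) ≤ (e q j.castSucc r : ℝ) := Nat.cast_nonneg _
        have f4 : (0 : ℝ) ≤ (e q 2 r : ℝ) := Nat.cast_nonneg _
        have f5 : 2 * Z ^ H ≤ Z ^ (H + 2) := by
          have f6 : (2 : ℝ) ≤ Z ^ 2 := by nlinarith
          rw [pow_add, mul_comm]
          exact mul_le_mul_of_nonneg_left f6 hZH.le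
        rw [abs_le]
        constructor
        · linarith
        · linarith
    · intro r
      show (0 : ℤ) < ((P q r : ℕ) : ℤ)
      exact_mod_cast (hP q hq r).1
    · intro κ hκ
      apply hmi q hq κ
      rw [← hκ]
      apply Finset.prod_congr rfl
      intro r _
      show _ = ((((P q r : ℕ) : ℤ)) : ℚ) ^ κ r
      rw [Int.cast_natCast]
  · intro v hv' v' hv'' h1 h2
    rw [hE, Finset.mem_image] at hv' hv''
    obtain ⟨q, hq, rfl⟩ := hv'
    obtain ⟨q', hq', rfl⟩ := hv''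
    rw [hinj q hq q' hq' h1 h2]

end Pool.Agent.Y913.Wm
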