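import Pool.Agent.Y913.Wm.Fl

/-!
Homogeneity in the direction, and stabilisation of the derivatives.
-/

set_option autoImplicit false

namespace Pool.Agent.Y913.Wm

open Finset MvPolynomial Matrix Pool.Agent.Y913.Vm

/-- the derivatives of a function lie in the ideal generated by finitely many of them -/
lemma stab {σ : Type} [Finite σ] (D : Dn (Rg σ)) (G : Rg σ) : ∃ m0 : ℕ, ∀ n,
    D^[n] G ∈ Ideal.span {H | ∃ j ≤ m0, H = D^[j] G} := by
  let J : ℕ →o Ideal (Rg σ) :=
    ⟨fun n => Ideal.span {H | ∃ j ≤ n, H = D^[j] G}, by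
      intro m n hmn
      apply Ideal.span_mono
      rintro H ⟨j, hj, rfl⟩
      exact ⟨j, by omega, rfl⟩⟩
  obtain ⟨n0, hn0⟩ := (monotone_stabilizes_iff_noetherian (R := Rg σ) (M := Rg σ)).mpr
    inferInstance J
  refine ⟨n0, ?_⟩
  intro n
  have h1 : D^[n] G ∈ J n0 := by
    rw [hn0 (max n0 n) (le_max_left _ _)]
    apply Ideal.subset_span
    exact ⟨n, le_max_right _ _, rfl⟩
  exact h1

section

variable {ν π κ : Type} [Fintype ν] [DecidableEq ν] [Fintype π] [DecidableEq π] [Fintype κ]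
  [DecidableEq κ] (ι : κ → Vr ν) (F : κ → Rg (π ⊕ Vr ν))

/-- the derivation in terms of partial derivatives -/
lemma Xi_sum (G : Rg (S2 π ν ι)) : Xi ι F G = ∑ s, vals ι F s * pderiv s G := by
  induction G using MvPolynomial.induction_on with
  | C a =>
    rw [Xi_C]
    symm
    apply Finset.sum_eq_zero
    intro k _
    rw [pderiv_C, mul_zero]
  | add G H hG hH =>
    rw [(Xi ι F).add, hG, hH, ← Finset.sum_add_distrib]
    apply Finset.sum_congr rfl
    intro k _
    rw [map_add, mul_add]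
  | mul_X G n hG =>
    have h1 : Xi ι F (X n) = ∑ s, vals ι F s * pderiv s (X n) := by
      rw [Xi_X, Finset.sum_eq_single n]
      · rw [pderiv_X_self, mul_one]
      · intro k _ hk
        rw [pderiv_X_of_ne hk.symm, mul_zero]
      · intro h
        exact absurd (Finset.mem_univ _) h
    rw [(Xi ι F).mul, hG, h1, Finset.mul_sum, Finset.mul_sum, ← Finset.sum_add_distrib]
    apply Finset.sum_congr rfl
    intro k _
    rw [Derivation.leibniz, smul_eq_mul, smul_eq_mul]
    ring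

/-- the weights -/
def wt : S2 π ν ι → ℕ
  | Sum.inl _ => 0
  | Sum.inr (Sum.inl _) => 0
  | Sum.inr (Sum.inr (Sum.inl _)) => 0
  | Sum.inr (Sum.inr (Sum.inr (Sum.inl _))) => 0
  | Sum.inr (Sum.inr (Sum.inr (Sum.inr _))) => 1

lemma wh_em (G : Rg (π ⊕ Vr ν)) : IsWeightedHomogeneous (wt ι) (em ι G) 0 := by
  induction G using MvPolynomial.induction_on with
  | C a =>
    rw [em_C]
    exact isWeightedHomogeneous_C _ _
  | add G H hG hH =>
    rw [map_add]
    exact hG.add hH
  | mul_X G n hG =>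
    rw [map_mul, em_X]
    exact hG.mul (isWeightedHomogeneous_X ℤ (wt ι) (Sum.inl n))

lemma wh_xi (k : Vr ν) : IsWeightedHomogeneous (wt ι) (xi ι F k) 1 := by
  unfold xi
  have h1 : IsWeightedHomogeneous (wt ι) (vJ ι : Rg (S2 π ν ι)) 0 :=
    isWeightedHomogeneous_X ℤ (wt ι) _
  have h2 : IsWeightedHomogeneous (wt ι) (∑ i : Fv ι, vD ι i * em ι (kp Sum.inr ι F i.1 k)) 1 := by
    apply IsWeightedHomogeneous.sum
    intro i _
    have h3 : IsWeightedHomogeneous (wt ι) (vD ι i : Rg (S2 π ν ι)) 1 :=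
      isWeightedHomogeneous_X ℤ (wt ι) _
    have := h3.mul (wh_em ι (kp Sum.inr ι F i.1 k))
    rwa [add_zero] at this
  have := h1.mul h2
  rwa [zero_add] at this

lemma wh_vals (s : S2 π ν ι) (hs : wt ι s = 0) :
    IsWeightedHomogeneous (wt ι) (vals ι F s) 1 := by
  have hx : ∀ t : S2 π ν ι, wt ι t = 0 → IsWeightedHomogeneous (wt ι) (X t : Rg (S2 π ν ι)) 0 := by
    intro t ht
    have := isWeightedHomogeneous_X ℤ (wt ι) t
    rwa [ht] at this
  have hneg : ∀ {G : Rg (S2 π ν ι)} {n : ℕ}, IsWeightedHomogeneous (wt ι) G n →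
      IsWeightedHomogeneous (wt ι) (-G) n := by
    intro G n hG
    have := (isWeightedHomogeneous_C (wt ι) (-1 : ℤ)).mul hG
    rw [zero_add] at this
    have e : (C (-1 : ℤ) : Rg (S2 π ν ι)) * G = -G := by
      rw [C_neg, C_1, neg_one_mul]
    rwa [e] at this
  rcases s with (z | k) | (r | r) | j | j | i
  · exact isWeightedHomogeneous_zero _ _ _
  · exact wh_xi ι F k
  · have := (hx (Sum.inr (Sum.inl (Sum.inr r))) rfl).mul (wh_xi ι F (Sum.inl r))
    rw [zero_add] at this
    exact this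
  · have h1 := (hx (Sum.inr (Sum.inl (Sum.inr r))) rfl).pow 2
    rw [smul_zero] at h1
    have := (hneg h1).mul (wh_xi ι F (Sum.inl r))
    rw [zero_add] at this
    exact this
  · show IsWeightedHomogeneous (wt ι) (vU ι j * ∑ r, (vA ι j r * vQ ι r * xi ι F (Sum.inl r) +
      vL ι r * xi ι F (Sum.inr (j, r)))) 1
    have h1 : IsWeightedHomogeneous (wt ι) (∑ r, (vA ι j r * vQ ι r * xi ι F (Sum.inl r) +
        vL ι r * xi ι F (Sum.inr (j, r)))) 1 := by
      apply IsWeightedHomogeneous.sum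
      intro r _
      apply IsWeightedHomogeneous.add
      · have := ((hx (Sum.inl (Sum.inr (Sum.inr (j, r)))) rfl).mul
          (hx (Sum.inr (Sum.inl (Sum.inr r))) rfl)).mul (wh_xi ι F (Sum.inl r))
        rw [zero_add, zero_add] at this
        exact this
      · have := (hx (Sum.inr (Sum.inl (Sum.inl r))) rfl).mul (wh_xi ι F (Sum.inr (j, r)))
        rw [zero_add] at this
        exact this
    have := (hx (Sum.inr (Sum.inr (Sum.inl j))) rfl).mul h1
    rw [zero_add] at this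
    exact this
  · show IsWeightedHomogeneous (wt ι) (-(vJ ι) ^ 2 *
      ∑ k, xi ι F k * em ι (pderiv (Sum.inr k) (jd Sum.inr ι F))) 1
    have h1 : IsWeightedHomogeneous (wt ι) (∑ k, xi ι F k *
        em ι (pderiv (Sum.inr k) (jd Sum.inr ι F))) 1 := by
      apply IsWeightedHomogeneous.sum
      intro k _
      have := (wh_xi ι F k).mul (wh_em ι (pderiv (Sum.inr k) (jd Sum.inr ι F)))
      rwa [add_zero] at this
    have h2 := (hx (Sum.inr (Sum.inr (Sum.inr (Sum.inl ())))) rfl).pow 2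
    rw [smul_zero] at h2
    have := (hneg h2).mul h1
    rw [zero_add] at this
    exact this
  · exact absurd (show (1 : ℕ) = 0 from hs) one_ne_zero

lemma wh_Xi {G : Rg (S2 π ν ι)} {n : ℕ} (hG : IsWeightedHomogeneous (wt ι) G n) :
    IsWeightedHomogeneous (wt ι) (Xi ι F G) (n + 1) := by
  rw [Xi_sum]
  apply IsWeightedHomogeneous.sum
  intro s _
  by_cases hs : wt ι s = 0
  · have h1 := hG.pderiv (i := s) (n' := n) (by rw [hs, add_zero])
    have := (wh_vals ι F s hs).mul h1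
    rwa [add_comm] at this
  · have : vals ι F s = 0 := by
      rcases s with (z | k) | (r | r) | j | j | i
      all_goals first | exact absurd rfl hs | rfl
    rw [this, zero_mul]
    exact isWeightedHomogeneous_zero _ _ _

/-- the function whose zeros are studied -/
noncomputable def SU : Rg (S2 π ν ι) := vU ι 0 + vU ι 1 - 1

lemma wh_SU (n : ℕ) : IsWeightedHomogeneous (wt ι) ((Xi ι F)^[n] (SU ι)) n := by
  induction n with
  | zero =>
    show IsWeightedHomogeneous (wt ι) (vU ι 0 + vU ι 1 - 1 : Rg (S2 π ν ι)) 0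
    have h0 : IsWeightedHomogeneous (wt ι) (vU ι 0 : Rg (S2 π ν ι)) 0 :=
      isWeightedHomogeneous_X ℤ (wt ι) _
    have h1 : IsWeightedHomogeneous (wt ι) (vU ι 1 : Rg (S2 π ν ι)) 0 :=
      isWeightedHomogeneous_X ℤ (wt ι) _
    have h2 : IsWeightedHomogeneous (wt ι) (C (-1 : ℤ) : Rg (S2 π ν ι)) 0 :=
      isWeightedHomogeneous_C _ _
    have e : (vU ι 0 + vU ι 1 - 1 : Rg (S2 π ν ι)) = vU ι 0 + vU ι 1 + C (-1 : ℤ) := by
      rw [C_neg, C_1, sub_eq_add_neg]
    rw [e]
    exact (h0.add h1).add h2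
  | succ n ih =>
    rw [Function.iterate_succ_apply']
    exact wh_Xi ι F ih

variable {l : ℕ} [hlf : Fact l.Prime]

/-- the point with formal direction -/
noncomputable def pf' (v : S2 π ν ι → ℤ_[l]) : S2 π ν ι → MvPolynomial (Fv ι) ℤ_[l]
  | Sum.inl s => C (v (Sum.inl s))
  | Sum.inr (Sum.inl s) => C (v (Sum.inr (Sum.inl s)))
  | Sum.inr (Sum.inr (Sum.inl s)) => C (v (Sum.inr (Sum.inr (Sum.inl s))))
  | Sum.inr (Sum.inr (Sum.inr (Sum.inl s))) => C (v (Sum.inr (Sum.inr (Sum.inr (Sum.inl s)))))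
  | Sum.inr (Sum.inr (Sum.inr (Sum.inr i))) => X i

omit [Fintype ν] [DecidableEq ν] [Fintype π] [DecidableEq π] [Fintype κ] [DecidableEq κ] in
lemma pf_hom (v : S2 π ν ι → ℤ_[l]) (s : S2 π ν ι) : (pf' ι v s).IsHomogeneous (wt ι s) := by
  rcases s with s | s | s | s | i
  · exact isHomogeneous_C _ _
  · exact isHomogeneous_C _ _
  · exact isHomogeneous_C _ _
  · exact isHomogeneous_C _ _
  · exact isHomogeneous_X _ _

omit [DecidableEq ν] [DecidableEq π] [DecidableEq κ] in
lemma ev_hom (v : S2 π ν ι → ℤ_[l]) {G : Rg (S2 π ν ι)} {n : ℕ}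
    (hG : IsWeightedHomogeneous (wt ι) G n) : (ev (pf' ι v) G).IsHomogeneous n := by
  classical
  unfold ev
  rw [coe_eval₂Hom, eval₂_eq']
  apply IsHomogeneous.sum
  intro d hd
  rw [mem_support_iff] at hd
  have h1 := hG hd
  have h2 : (∏ i, pf' ι v i ^ d i).IsHomogeneous (∑ i, wt ι i * d i) := by
    apply IsHomogeneous.prod
    intro i _
    exact (pf_hom ι v i).pow (d i)
  have h3 : ∑ i, wt ι i * d i = n := by
    rw [← h1, Finsupp.weight_apply, Finsupp.sum_fintype _ _ (fun i => by simp)]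
    apply Finset.sum_congr rfl
    intro i _
    rw [smul_eq_mul, mul_comm]
  rw [h3] at h2
  have h4 : (Int.castRingHom (MvPolynomial (Fv ι) ℤ_[l])) (coeff d G) =
      C ((coeff d G : ℤ) : ℤ_[l]) := by simp
  rw [h4]
  have := (isHomogeneous_C (Fv ι) ((coeff d G : ℤ) : ℤ_[l])).mul h2
  rwa [zero_add] at this

lemma coeff_hom (v : S2 π ν ι → ℤ_[l]) (n : ℕ) (α : Fv ι →₀ ℕ)
    (h : coeff α (ev (pf' ι v) ((Xi ι F)^[n] (SU ι))) ≠ 0) : ∑ r, α r = n := by
  have h1 := ev_hom ι v (wh_SU ι F n)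
  have h2 := h1 h
  rw [Finsupp.weight_apply, Finsupp.sum_fintype _ _ (fun i => by simp)] at h2
  simpa using h2

omit [Fintype ν] [DecidableEq ν] [Fintype π] [DecidableEq π] [Fintype κ] [DecidableEq κ] in
lemma eval_pf (v : S2 π ν ι → ℤ_[l]) (w : Fv ι → ℤ_[l]) (G : Rg (S2 π ν ι)) :
    eval w (ev (pf' ι v) G) = ev (fun s => eval w (pf' ι v s)) G := by
  induction G using MvPolynomial.induction_on with
  | C a =>
    rw [ev_C, ev_C]
    simp
  | add G H hG hH => rw [map_add, map_add, map_add, hG, hH]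
  | mul_X G n hG => rw [map_mul, map_mul, map_mul, hG, ev_X, ev_X]

end

end Pool.Agent.Y913.Wm
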