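import Pool.Agent.Y913.Wm.Ze

/-!
A nonzero integer is not the `l`-adic logarithm of a rational number.
-/

set_option autoImplicit false

namespace Pool.Agent.Y913.Wm

open Finset Polynomial

section

variable {l : ℕ} [hlf : Fact l.Prime]

lemma iter_sumD {R : Type} [CommRing R] (D : Dn R) {J : Type} (s : Finset J) (m : ℕ) (f : J → R) :
    D^[m] (∑ k ∈ s, f k) = ∑ k ∈ s, D^[m] (f k) := by
  induction m generalizing f with
  | zero => rfl
  | succ m ih => rw [Function.iterate_succ_apply, D.sum, ih]; rfl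

/-- **logarithms of rational numbers are not nonzero integers** -/
theorem no_log (hl : 3 ≤ l) {a c : ℕ} (ha0 : 0 < a) (hc0 : 0 < c) (hc : ¬ l ∣ c) {x : ℤ_[l]}
    (hx : (c : ℤ_[l]) * x = a) (hx1 : (l : ℤ_[l]) ∣ x - 1) {n : ℤ} (hlo : Lo x n) : n = 0 := by
  classical
  by_contra hn
  have hx0 : x ≠ 0 := by
    rintro rfl
    rw [mul_zero] at hx
    have : (a : ℤ_[l]) ≠ 0 := Nat.cast_ne_zero.mpr ha0.ne'
    exact this hx.symm
  obtain ⟨κ, hκ⟩ : ∃ κ : ℕ, κ = 1 + 8 * n.natAbs := ⟨_, rfl⟩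
  obtain ⟨Hx, hHx⟩ : ∃ Hx : ℕ, Hx = max a c := ⟨_, rfl⟩
  have hHx1 : 1 ≤ Hx := by rw [hHx]; exact le_max_of_le_left ha0
  obtain ⟨r, hr⟩ : ∃ r : ℕ, r = 256 * 81 * κ ^ 8 * Hx ^ 7 := ⟨_, rfl⟩
  have hlr : r < l ^ r := Nat.lt_pow_self (by omega)
  obtain ⟨s, hs⟩ : ∃ s : ℕ, s = r + 3 := ⟨_, rfl⟩
  obtain ⟨T1, hT1⟩ : ∃ T1 : ℕ, T1 = 9 * l ^ s := ⟨_, rfl⟩
  have hls : 27 ≤ l ^ s := by
    calc 27 = 3 ^ 3 := by norm_num
      _ ≤ l ^ 3 := Nat.pow_le_pow_left hl 3
      _ ≤ l ^ s := Nat.pow_le_pow_right (by omega) (by omega)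
  have hT1pos : 36 ≤ T1 := by omega
  obtain ⟨T, hT⟩ : ∃ T : ℕ, T = 4 * T1 := ⟨_, rfl⟩
  have hκ1 : 1 ≤ κ := by omega
  obtain ⟨Bd, hBd⟩ : ∃ Bd : ℕ, Bd = κ ^ T * T1 ^ T1 := ⟨_, rfl⟩
  have hBd1 : 1 ≤ Bd := by
    rw [hBd]
    exact Nat.mul_pos (Nat.pow_pos hκ1) (Nat.pow_pos (by omega))
  obtain ⟨Hb, hHb⟩ : ∃ Hb : ℕ, Hb = 8 * T1 * Bd := ⟨_, rfl⟩
  have hHb1 : 1 ≤ Hb := by
    rw [hHb]
    exact Nat.mul_pos (by omega) hBd1
  -- bounds for the values
  have hop : ∀ (b : Fin 8) (m i : ℕ) (y : ℤ), m ≤ T → i < T1 → |y| ≤ T1 →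
      |((op ((b : ℕ) * n) ^ m) (X ^ i)).eval y| ≤ (Bd : ℤ) := by
    intro b m i y hm hi hy
    refine (op_bound _ m i y T1 hi.le hy (by omega)).trans ?_
    rw [hBd]
    push_cast
    have h1 : 1 + |(((b : ℕ) : ℤ)) * n| ≤ (κ : ℤ) := by
      rw [abs_mul, hκ, abs_of_nonneg (by positivity : (0 : ℤ) ≤ ((b : ℕ) : ℤ))]
      push_cast
      have h2 : ((b : ℕ) : ℤ) ≤ 8 := by
        have := b.isLt
        omega
      have h3 : 0 ≤ |n| := abs_nonneg n
      nlinarith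
    have h2 : (1 + |(((b : ℕ) : ℤ)) * n|) ^ m ≤ (κ : ℤ) ^ T :=
      (pow_le_pow_left₀ (by positivity) h1 m).trans
        (pow_le_pow_right₀ (by exact_mod_cast hκ1) hm)
    have h3 : (T1 : ℤ) ^ i ≤ (T1 : ℤ) ^ T1 :=
      pow_le_pow_right₀ (by exact_mod_cast (by omega : 1 ≤ T1)) hi.le
    exact mul_le_mul h2 h3 (by positivity) (by positivity)
  obtain ⟨q, hq⟩ : ∃ q : ℕ, q = Hb * Hb + 1 := ⟨_, rfl⟩
  have : NeZero q := ⟨by omega⟩
  obtain ⟨G, hG0, hGH, hG⟩ := Pool.Agent.Y913.Sm.mod_siegel (R := ZMod q) (I := Fin T1 × Fin 8)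
    (K := Fin T) Hb (fun k t => ((((op ((t.2 : ℕ) * n) ^ (k : ℕ)) (X ^ (t.1 : ℕ))).eval 0 : ℤ) :
      ZMod q)) (by
      rw [ZMod.card, Fintype.card_prod, Fintype.card_fin, Fintype.card_fin, Fintype.card_fin]
      have h1 : T1 * 8 = 2 * T := by omega
      rw [h1, pow_mul]
      apply Nat.pow_lt_pow_left _ (by omega)
      rw [hq]
      nlinarith)
  have hterm : ∀ (m : ℕ) (y : ℤ), m ≤ T → |y| ≤ T1 → ∀ t : Fin T1 × Fin 8,
      |G t * ((op ((t.2 : ℕ) * n) ^ m) (X ^ (t.1 : ℕ))).eval y| ≤ (Hb : ℤ) * Bd := by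
    intro m y hm hy t
    rw [abs_mul]
    exact mul_le_mul (hGH t) (hop t.2 m t.1 y hm t.1.isLt hy) (abs_nonneg _) (by positivity)
  have hzero : ∀ k < T, ∑ t : Fin T1 × Fin 8,
      G t * ((op ((t.2 : ℕ) * n) ^ k) (X ^ (t.1 : ℕ))).eval 0 = 0 := by
    intro k hk
    have h1 := hG ⟨k, hk⟩
    have h2 : ((∑ t : Fin T1 × Fin 8,
        G t * ((op ((t.2 : ℕ) * n) ^ k) (X ^ (t.1 : ℕ))).eval 0 : ℤ) : ZMod q) = 0 := by
      rw [← h1]
      push_cast
      rfl
    rw [ZMod.intCast_zmod_eq_zero_iff_dvd] at h2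
    by_contra hne
    have h3 := Int.le_of_dvd (abs_pos.mpr hne) ((dvd_abs _ _).mpr h2)
    have h4 : |∑ t : Fin T1 × Fin 8,
        G t * ((op ((t.2 : ℕ) * n) ^ k) (X ^ (t.1 : ℕ))).eval 0| ≤ (Hb : ℤ) * Hb := by
      refine (Finset.abs_sum_le_sum_abs _ _).trans ((Finset.sum_le_sum (fun t _ =>
        hterm k 0 hk.le (by simp) t)).trans ?_)
      rw [Finset.sum_const, Finset.card_univ, Fintype.card_prod, Fintype.card_fin,
        Fintype.card_fin, nsmul_eq_mul, hHb]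
      push_cast
      apply le_of_eq
      ring
    rw [hq] at h3
    push_cast at h3
    linarith
  -- the exponential polynomial
  obtain ⟨P, hP⟩ : ∃ P : Fin 8 → ℤ[X], P = fun b => ∑ i : Fin T1, G (i, b) • (X ^ (i : ℕ)) :=
    ⟨_, rfl⟩
  have hPc : ∀ b, ∀ i : Fin T1, (P b).coeff (i : ℕ) = G (i, b) := by
    intro b i
    rw [hP]
    simp only [finsetSum_coeff, coeff_smul, coeff_X_pow, smul_eq_mul]
    rw [Finset.sum_eq_single i]
    · simp
    · intro j _ hj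
      rw [if_neg (fun h => hj (Fin.ext h.symm)), mul_zero]
    · intro h
      exact absurd (Finset.mem_univ _) h
  have hP0 : P ≠ 0 := by
    intro h0
    apply hG0
    funext t
    rw [← hPc t.2 t.1, h0]
    simp
  have hPd : ∀ b, (P b).natDegree < T1 := by
    intro b
    rw [Nat.lt_iff_le_pred (by omega), hP]
    apply natDegree_sum_le_of_forall_le
    intro i _
    refine (natDegree_smul_le _ _).trans ?_
    rw [natDegree_X_pow]
    have := i.isLt
    show (i : ℕ) ≤ T1 - 1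
    omega
  have hPop : ∀ (b : Fin 8) (m : ℕ) (y : ℤ), ((op ((b : ℕ) * n) ^ m) (P b)).eval y =
      ∑ i : Fin T1, G (i, b) * ((op ((b : ℕ) * n) ^ m) (X ^ (i : ℕ))).eval y := by
    intro b m y
    rw [hP]
    simp only [map_sum, map_zsmul, eval_finsetSum]
    apply Finset.sum_congr rfl
    intro i _
    rw [← Int.cast_smul_eq_zsmul ℤ, eval_smul, smul_eq_mul]
    simp
  obtain ⟨F, hF⟩ : ∃ F : Ep, F = ∑ b : Fin 8, io (P b) * MvPolynomial.X 1 ^ (b : ℕ) := ⟨_, rfl⟩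
  have hFv : ∀ (m : ℕ) (y : ℤ) (v : ℤ_[l]), ps (y : ℤ_[l]) v ((De n)^[m] F) =
      ∑ b : Fin 8, ((((op ((b : ℕ) * n) ^ m) (P b)).eval y : ℤ) : ℤ_[l]) * v ^ (b : ℕ) := by
    intro m y v
    rw [hF, iter_sumD, map_sum]
    apply Finset.sum_congr rfl
    intro b _
    rw [De_iter, map_mul, ps_io, map_pow, ps_X1]
  have hF0 : ∀ m < T, ps (0 : ℤ_[l]) 1 ((De n)^[m] F) = 0 := by
    intro m hm
    have h1 := hFv m 0 1
    rw [Int.cast_zero] at h1
    rw [h1]
    have h2 := hzero m hm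
    rw [Fintype.sum_prod_type] at h2
    have h3 : ∑ b : Fin 8, ((((op ((b : ℕ) * n) ^ m) (P b)).eval 0 : ℤ) : ℤ_[l]) *
        (1 : ℤ_[l]) ^ (b : ℕ) = ((∑ i : Fin T1, ∑ b : Fin 8,
        G (i, b) * ((op ((b : ℕ) * n) ^ m) (X ^ (i : ℕ))).eval 0 : ℤ) : ℤ_[l]) := by
      rw [Finset.sum_comm]
      push_cast
      apply Finset.sum_congr rfl
      intro b _
      rw [hPop]
      push_cast
      rw [one_pow, mul_one]
    rw [h3, h2, Int.cast_zero]
  -- more zeros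
  obtain ⟨w, hw⟩ : ∃ w : Fin 10 → ℕ, w = fun (j : Fin 10) => l ^ (s - 1) * (j : ℕ) := ⟨_, rfl⟩
  have hlw : ∀ j : Fin 10, l * w j = l ^ s * (j : ℕ) := by
    intro j
    rw [hw]
    simp only
    rw [← mul_assoc, ← pow_succ', Nat.sub_add_cancel (by omega)]
  have hlwT : ∀ j : Fin 10, l * w j ≤ T1 := by
    intro j
    rw [hlw, hT1, mul_comm]
    apply Nat.mul_le_mul_right
    have := j.isLt
    omega
  have hmore : ∀ j : Fin 10, ∀ t ≤ T1, ps (((l * w j : ℕ) : ℤ) : ℤ_[l]) (x ^ (l * w j))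
      ((De n)^[t] F) = 0 := by
    intro j t ht
    obtain ⟨val, hval⟩ : ∃ val, val = ps (((l * w j : ℕ) : ℤ) : ℤ_[l]) (x ^ (l * w j))
      ((De n)^[t] F) := ⟨_, rfl⟩
    rw [← hval]
    have h1 : (l : ℤ_[l]) ^ ((s - 1) * (3 * T1)) ∣ val := by
      rw [hval, ← lie_Ep hl hx1 hlo (w j)]
      unfold lie
      apply dvd_tsum
      intro m
      apply Dvd.dvd.mul_right
      rw [iter_smul, map_zsmul, ← Function.iterate_add_apply]
      rcases lt_or_ge (m + t) T with hmt | hmt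
      · rw [hF0 _ hmt, smul_zero]
        exact dvd_zero _
      · rw [zsmul_eq_mul]
        apply Dvd.dvd.mul_right
        rw [hw]
        push_cast
        rw [mul_pow, ← pow_mul]
        apply Dvd.dvd.mul_right
        apply pow_dvd_pow
        apply Nat.mul_le_mul_left
        omega
    obtain ⟨y, hy⟩ : ∃ y : ℕ, y = l * w j := ⟨_, rfl⟩
    have hyT : y ≤ T1 := by rw [hy]; exact hlwT j
    obtain ⟨Z, hZ⟩ : ∃ Z : ℤ, Z = ∑ u : Fin T1 × Fin 8,
      G u * ((op ((u.2 : ℕ) * n) ^ t) (X ^ (u.1 : ℕ))).eval (y : ℤ) *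
        ((a : ℤ) ^ ((u.2 : ℕ) * y) * (c : ℤ) ^ ((7 - (u.2 : ℕ)) * y)) := ⟨_, rfl⟩
    have h2 : (c : ℤ_[l]) ^ (7 * y) * val = (Z : ℤ_[l]) := by
      rw [hval, ← hy, hFv, hZ, Finset.mul_sum, Fintype.sum_prod_type, Finset.sum_comm]
      push_cast
      apply Finset.sum_congr rfl
      intro b _
      rw [hPop]
      push_cast
      rw [Finset.sum_mul, Finset.mul_sum]
      apply Finset.sum_congr rfl
      intro i _
      have h3 : (c : ℤ_[l]) ^ (7 * y) * (x ^ y) ^ (b : ℕ) =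
          (a : ℤ_[l]) ^ ((b : ℕ) * y) * (c : ℤ_[l]) ^ ((7 - (b : ℕ)) * y) := by
        rw [← hx, ← pow_mul, mul_comm y (b : ℕ), mul_pow]
        have h4 : 7 * y = (b : ℕ) * y + (7 - (b : ℕ)) * y := by
          rw [← add_mul]
          congr 1
          have := b.isLt
          omega
        rw [h4, pow_add]
        ring
      calc (c : ℤ_[l]) ^ (7 * y) * ((G (i, b) : ℤ_[l]) *
          ((((op ((b : ℕ) * n) ^ t) (X ^ (i : ℕ))).eval (y : ℤ) : ℤ) : ℤ_[l]) *
            (x ^ y) ^ (b : ℕ)) = (G (i, b) : ℤ_[l]) *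
          ((((op ((b : ℕ) * n) ^ t) (X ^ (i : ℕ))).eval (y : ℤ) : ℤ) : ℤ_[l]) *
            ((c : ℤ_[l]) ^ (7 * y) * (x ^ y) ^ (b : ℕ)) := by ring
        _ = _ := by rw [h3]
    have hZ0 : Z = 0 := by
      by_contra hne
      have h3 : (l : ℤ) ^ ((s - 1) * (3 * T1)) ∣ Z := by
        rw [← PadicInt.pow_p_dvd_int_iff, ← h2]
        exact h1.mul_left _
      have h4 := Int.le_of_dvd (abs_pos.mpr hne) ((dvd_abs _ _).mpr h3)
      have h5 : |Z| ≤ (Hb : ℤ) * Hb * (Hx : ℤ) ^ (7 * T1) := by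
        rw [hZ]
        have h6 : ∀ u : Fin T1 × Fin 8, |G u * ((op ((u.2 : ℕ) * n) ^ t)
            (X ^ (u.1 : ℕ))).eval (y : ℤ) * ((a : ℤ) ^ ((u.2 : ℕ) * y) *
            (c : ℤ) ^ ((7 - (u.2 : ℕ)) * y))| ≤ (Hb : ℤ) * Bd * (Hx : ℤ) ^ (7 * T1) := by
          intro u
          rw [abs_mul]
          apply mul_le_mul (hterm t y (by omega) (by
            rw [abs_of_nonneg (by positivity)]
            exact_mod_cast hyT) u) _ (abs_nonneg _) (by positivity)
          rw [abs_of_nonneg (by positivity)]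
          have ha1 : (a : ℤ) ≤ Hx := by rw [hHx]; exact_mod_cast le_max_left a c
          have hc1 : (c : ℤ) ≤ Hx := by rw [hHx]; exact_mod_cast le_max_right a c
          calc (a : ℤ) ^ ((u.2 : ℕ) * y) * (c : ℤ) ^ ((7 - (u.2 : ℕ)) * y) ≤
                (Hx : ℤ) ^ ((u.2 : ℕ) * y) * (Hx : ℤ) ^ ((7 - (u.2 : ℕ)) * y) := by gcongr
            _ = (Hx : ℤ) ^ (7 * y) := by
                rw [← pow_add, ← add_mul]
                congr 2
                have := u.2.isLt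
                omega
            _ ≤ (Hx : ℤ) ^ (7 * T1) :=
                pow_le_pow_right₀ (by exact_mod_cast hHx1) (by omega)
        refine (Finset.abs_sum_le_sum_abs _ _).trans ((Finset.sum_le_sum (fun u _ =>
          h6 u)).trans ?_)
        rw [Finset.sum_const, Finset.card_univ, Fintype.card_prod, Fintype.card_fin,
          Fintype.card_fin, nsmul_eq_mul, hHb]
        push_cast
        apply le_of_eq
        ring
      have h7 : l ^ ((s - 1) * (3 * T1)) ≤ Hb * Hb * Hx ^ (7 * T1) := by exact_mod_cast h4.trans h5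
      have h8 : Hb * Hb * Hx ^ (7 * T1) < l ^ ((s - 1) * (3 * T1)) := by
        have h9 : 8 * T1 ≤ 16 ^ T1 := by
          calc 8 * T1 ≤ 8 ^ T1 * 2 ^ T1 := by
                apply Nat.mul_le_mul
                · calc 8 = 8 ^ 1 := by norm_num
                    _ ≤ 8 ^ T1 := Nat.pow_le_pow_right (by norm_num) (by omega)
                · exact Nat.lt_two_pow_self.le
            _ = 16 ^ T1 := by rw [← mul_pow]; norm_num
        calc Hb * Hb * Hx ^ (7 * T1) = (8 * T1) * (8 * T1) * (κ ^ T * κ ^ T) *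
              (T1 ^ T1 * T1 ^ T1) * Hx ^ (7 * T1) := by
              rw [hHb, hBd]
              ring
          _ ≤ 16 ^ T1 * 16 ^ T1 * (κ ^ T * κ ^ T) * (T1 ^ T1 * T1 ^ T1) * Hx ^ (7 * T1) := by
              gcongr
          _ = r ^ T1 * l ^ (2 * s * T1) := by
              rw [hr, hT]
              have e1 : T1 ^ T1 * T1 ^ T1 = 81 ^ T1 * l ^ (2 * s * T1) := by
                rw [← mul_pow]
                have : T1 * T1 = 81 * l ^ (2 * s) := by
                  rw [hT1, two_mul, pow_add]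
                  ring
                rw [this, mul_pow, ← pow_mul]
              rw [e1]
              have e2 : κ ^ (4 * T1) * κ ^ (4 * T1) = (κ ^ 8) ^ T1 := by
                rw [← pow_mul, ← pow_add]
                congr 1
                ring
              have e3 : Hx ^ (7 * T1) = (Hx ^ 7) ^ T1 := by rw [← pow_mul]
              rw [e2, e3]
              have e4 : (16 : ℕ) ^ T1 * 16 ^ T1 = 256 ^ T1 := by rw [← mul_pow]; norm_num
              rw [e4, mul_pow, mul_pow, mul_pow]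
              ring
          _ < (l ^ r) ^ T1 * l ^ (2 * s * T1) := by
              apply Nat.mul_lt_mul_of_pos_right
              · exact Nat.pow_lt_pow_left hlr (by omega)
              · exact Nat.pow_pos (by omega)
          _ = l ^ ((s - 1) * (3 * T1)) := by
              rw [← pow_mul, ← pow_add, hs]
              congr 1
              have : r + 3 - 1 = r + 2 := by omega
              rw [this]
              ring
      omega
    rw [hZ0, Int.cast_zero] at h2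
    have h3 : (c : ℤ_[l]) ≠ 0 := Nat.cast_ne_zero.mpr hc0.ne'
    exact (mul_eq_zero.mp h2).resolve_left (pow_ne_zero _ h3)
  refine zero_est (l := l) hT1pos hn P hP0 hPd (fun j => ((l * w j : ℕ) : ℤ)) ?_
    (fun j => x ^ (l * w j)) (fun j => pow_ne_zero _ hx0) (fun j t ht => ?_)
  · intro i j hij
    have hij' : ((l * w i : ℕ) : ℤ) = ((l * w j : ℕ) : ℤ) := hij
    have h1 : l ^ s * (i : ℕ) = l ^ s * (j : ℕ) := by
      rw [← hlw, ← hlw]
      exact_mod_cast hij'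
    exact Fin.ext (Nat.eq_of_mul_eq_mul_left (by omega) h1)
  · rw [← hF]
    exact hmore j t ht

end

end Pool.Agent.Y913.Wm
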