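import Pool.Agent.Y913.Wm.Dp

/-!
Logarithms in the `l`-adic integers.
-/

set_option autoImplicit false

namespace Pool.Agent.Y913.Wm

open Finset

section

variable {l : ℕ} [hlf : Fact l.Prime]

/-- `y` is the logarithm of `x`, which is close to one -/
def Lo (x y : ℤ_[l]) : Prop :=
  ∀ N : ℕ, (l : ℤ_[l]) ^ (2 * N) ∣ x ^ l ^ N - (1 + (l : ℤ_[l]) ^ N * y)

lemma Lo.mul {x y x' y' : ℤ_[l]} (h : Lo x y) (h' : Lo x' y') : Lo (x * x') (y + y') := by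
  intro N
  obtain ⟨a, ha⟩ := h N
  obtain ⟨b, hb⟩ := h' N
  have hx : x ^ l ^ N = (1 + (l : ℤ_[l]) ^ N * y) + (l : ℤ_[l]) ^ (2 * N) * a := by
    rw [← ha]; ring
  have hx' : x' ^ l ^ N = (1 + (l : ℤ_[l]) ^ N * y') + (l : ℤ_[l]) ^ (2 * N) * b := by
    rw [← hb]; ring
  rw [mul_pow, hx, hx']
  refine ⟨y * y' + (1 + (l : ℤ_[l]) ^ N * y) * b + a * (1 + (l : ℤ_[l]) ^ N * y') +
    a * (l : ℤ_[l]) ^ (2 * N) * b, ?_⟩
  have : (l : ℤ_[l]) ^ (2 * N) = (l : ℤ_[l]) ^ N * (l : ℤ_[l]) ^ N := by rw [two_mul, pow_add]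
  rw [this]
  ring

lemma Lo.inv {x y x' : ℤ_[l]} (h : Lo x y) (hx : x * x' = 1) : Lo x' (-y) := by
  intro N
  obtain ⟨a, ha⟩ := h N
  have hx1 : x ^ l ^ N * x' ^ l ^ N = 1 := by rw [← mul_pow, hx, one_pow]
  have hx2 : x ^ l ^ N = (1 + (l : ℤ_[l]) ^ N * y) + (l : ℤ_[l]) ^ (2 * N) * a := by
    rw [← ha]; ring
  refine ⟨x' ^ l ^ N * (y * y - a * (1 - (l : ℤ_[l]) ^ N * y)), ?_⟩
  have : (l : ℤ_[l]) ^ (2 * N) = (l : ℤ_[l]) ^ N * (l : ℤ_[l]) ^ N := by rw [two_mul, pow_add]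
  rw [this] at hx2 ⊢
  have e1 : (1 + (l : ℤ_[l]) ^ N * -y) = (1 - (l : ℤ_[l]) ^ N * y) * (x ^ l ^ N * x' ^ l ^ N) := by
    rw [hx1]; ring
  rw [e1, hx2]
  ring

lemma Lo.one : Lo (1 : ℤ_[l]) 0 := by
  intro N
  rw [one_pow, mul_zero, add_zero, sub_self]
  exact dvd_zero _

lemma Lo.zpow {u : ℤ_[l]ˣ} {y : ℤ_[l]} (h : Lo (u : ℤ_[l]) y) (k : ℤ) :
    Lo ((u ^ k : ℤ_[l]ˣ) : ℤ_[l]) ((k : ℤ_[l]) * y) := by
  have hn : ∀ n : ℕ, Lo ((u ^ n : ℤ_[l]ˣ) : ℤ_[l]) ((n : ℤ_[l]) * y) := by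
    intro n
    induction n with
    | zero =>
      have : (((0 : ℕ) : ℤ_[l]) * y) = 0 := by simp
      rw [this, pow_zero]
      exact Lo.one
    | succ n ih =>
      have h1 := ih.mul h
      have : (((n + 1 : ℕ) : ℤ_[l]) * y) = (n : ℤ_[l]) * y + y := by push_cast; ring
      rw [this, pow_succ]
      exact h1
  rcases Int.eq_nat_or_neg k with ⟨n, rfl | rfl⟩
  · have := hn n
    rw [zpow_natCast]
    push_cast
    exact this
  · have h1 := hn n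
    have h2 := h1.inv (x' := ((u ^ (-(n : ℤ)) : ℤ_[l]ˣ) : ℤ_[l])) (by
      rw [← Units.val_mul, ← zpow_natCast, ← zpow_add]
      simp)
    have : ((-(n : ℤ) : ℤ) : ℤ_[l]) * y = -((n : ℤ_[l]) * y) := by push_cast; ring
    rw [this]
    exact h2

lemma Lo.prod {J : Type} (s : Finset J) {u : J → ℤ_[l]ˣ} {y : J → ℤ_[l]}
    (h : ∀ j, Lo ((u j : ℤ_[l]ˣ) : ℤ_[l]) (y j)) :
    Lo ((∏ j ∈ s, u j : ℤ_[l]ˣ) : ℤ_[l]) (∑ j ∈ s, y j) := by
  classical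
  induction s using Finset.induction_on with
  | empty =>
    rw [Finset.prod_empty, Finset.sum_empty]
    exact Lo.one
  | insert j s hj ih =>
    rw [Finset.prod_insert hj, Finset.sum_insert hj, Units.val_mul]
    exact (h j).mul ih

lemma Lo.eq_one (hl : 3 ≤ l) {x : ℤ_[l]} (h : Lo x 0) (h1 : (l : ℤ_[l]) ∣ x - 1) : x = 1 := by
  apply eq_one_of_pows hl h1
  intro N
  have := h N
  rwa [mul_zero, add_zero] at this

/-- the flow and logarithms -/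
lemma lo_lie {R : Type} [CommRing R] {D : Dn R} {φ : R →+* ℤ_[l]} (hl : 3 ≤ l)
    {V θ : R} (h : Nul D φ (D V - V * D θ)) {y : ℤ_[l]} (hy : Lo (φ V) y) :
    Lo (lie D φ V) (y + (lie D φ θ - φ θ)) := by
  intro N
  have hpos : 0 < l ^ N := pow_pos hlf.out.pos N
  have h1 : Nul D φ (D (V ^ l ^ N) - (l : R) ^ N * (V ^ l ^ N * D θ)) := by
    have e1 : D (V ^ l ^ N) - (l : R) ^ N * (V ^ l ^ N * D θ) =
        ((l : R) ^ N * V ^ (l ^ N - 1)) * (D V - V * D θ) := by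
      obtain ⟨m, hm⟩ : ∃ m, l ^ N = m + 1 := ⟨l ^ N - 1, by omega⟩
      have hm' : (l : R) ^ N = (m + 1 : ℕ) := by rw [← hm]; push_cast; rfl
      rw [hm', hm, D.pow, Nat.add_sub_cancel, pow_succ]
      ring
    rw [e1]
    exact h.mul _
  obtain ⟨a, ha⟩ := small_log hl N h1
  obtain ⟨b, hb⟩ := hy N
  rw [map_pow] at ha
  have e3 : lie D φ (V ^ l ^ N) = lie D φ V ^ l ^ N := by
    rw [← lieHom_apply D φ hl, map_pow]
    rfl
  rw [e3] at ha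
  obtain ⟨t, ht⟩ : ∃ t, t = lie D φ θ - φ θ := ⟨_, rfl⟩
  rw [← ht] at ha ⊢
  have h2 : lie D φ V ^ l ^ N = φ V ^ l ^ N * (1 + (l : ℤ_[l]) ^ N * t) +
      (l : ℤ_[l]) ^ (2 * N) * a := by rw [← ha]; ring
  have h3 : φ V ^ l ^ N = (1 + (l : ℤ_[l]) ^ N * y) + (l : ℤ_[l]) ^ (2 * N) * b := by
    rw [← hb]; ring
  refine ⟨y * t + b * (1 + (l : ℤ_[l]) ^ N * t) + a, ?_⟩
  rw [h2, h3]
  have : (l : ℤ_[l]) ^ (2 * N) = (l : ℤ_[l]) ^ N * (l : ℤ_[l]) ^ N := by rw [two_mul, pow_add]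
  rw [this]
  ring

/-- the falling factorials -/
lemma desc_mod (n : ℕ) (k : ℕ) : ∃ t : ℤ, (n.descFactorial (k + 1) : ℤ) =
    n * ((-1) ^ k * (k.factorial : ℤ) + n * t) := by
  induction k with
  | zero => exact ⟨0, by simp⟩
  | succ k ih =>
    obtain ⟨t, ht⟩ := ih
    have h1 : (n.descFactorial (k + 1 + 1) : ℤ) = ((n : ℤ) - (k + 1)) *
        (n.descFactorial (k + 1) : ℤ) := by
      rw [Nat.descFactorial_succ n (k + 1)]
      rcases le_or_gt (k + 1) n with h | h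
      · push_cast [Nat.cast_sub h]
        ring
      · have : n.descFactorial (k + 1) = 0 := Nat.descFactorial_eq_zero_iff_lt.mpr h
        rw [this]
        simp
    refine ⟨(-1) ^ k * (k.factorial : ℤ) + n * t - (k + 1) * t, ?_⟩
    rw [h1, ht, Nat.factorial_succ, pow_succ]
    push_cast
    ring

/-- the logarithm of `1 + l z` -/
noncomputable def lg1 (z : ℤ_[l]) : ℤ_[l] :=
  ∑' k : ℕ, ((-1) ^ k * (k.factorial : ℤ_[l]) * z ^ (k + 1)) * dp l (k + 1)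

lemma two_mul_le_pow (N : ℕ) : 2 * N ≤ 3 ^ N := by
  induction N with
  | zero => simp
  | succ N ih =>
    rw [pow_succ]
    have : 1 ≤ 3 ^ N := Nat.one_le_pow _ _ (by omega)
    omega

lemma lo_lg1 (hl : 3 ≤ l) (z : ℤ_[l]) : Lo (1 + (l : ℤ_[l]) * z) (lg1 z) := by
  intro N
  obtain ⟨n, hn⟩ : ∃ n, n = l ^ N := ⟨_, rfl⟩
  have hn1 : 1 ≤ n := by
    rw [hn]
    exact Nat.one_le_pow _ _ (by omega)
  have hNn : 2 * N ≤ n := by
    rw [hn]
    exact (two_mul_le_pow N).trans (Nat.pow_le_pow_left hl N)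
  have e1 : (1 + (l : ℤ_[l]) * z) ^ n = 1 + ∑ k ∈ range n,
      (n.descFactorial (k + 1) : ℤ_[l]) * z ^ (k + 1) * dp l (k + 1) := by
    have h1 : (1 + (l : ℤ_[l]) * z) ^ n = ∑ k ∈ range (n + 1),
        (n.descFactorial k : ℤ_[l]) * z ^ k * dp l k := by
      rw [add_comm, add_pow]
      apply Finset.sum_congr rfl
      intro k _
      rw [one_pow, mul_one, mul_pow, Nat.descFactorial_eq_factorial_mul_choose, ← dp_mul hl k]
      push_cast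
      ring
    rw [h1, Finset.sum_range_succ', dp_zero hl]
    simp
    ring
  obtain ⟨a, ha⟩ : ∃ a : ℕ → ℤ_[l], a = fun k => ((-1) ^ k * (k.factorial : ℤ_[l]) *
    z ^ (k + 1)) * dp l (k + 1) := ⟨_, rfl⟩
  have hsum : Summable a := by
    have := (summable_nat_add_iff (f := fun k => ((-1) ^ (k - 1) * ((k - 1).factorial : ℤ_[l]) *
      z ^ k) * dp l k) 1).mpr (summable_dp' hl _)
    rw [ha]
    simpa using this
  have e2 : (l : ℤ_[l]) ^ N ∣ lg1 z - ∑ k ∈ range n, a k := by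
    have h1 : lg1 z = ∑' k, a k := by rw [ha]; rfl
    rw [h1, ← hsum.sum_add_tsum_nat_add n, add_sub_cancel_left]
    apply dvd_tsum
    intro i
    rw [ha]
    apply Dvd.dvd.mul_left
    exact (pow_dvd_pow _ (by omega)).trans (dp_dvd hl (i + n + 1))
  have e3 : (n : ℤ_[l]) * n ∣ (∑ k ∈ range n, (n.descFactorial (k + 1) : ℤ_[l]) * z ^ (k + 1) *
      dp l (k + 1)) - n * ∑ k ∈ range n, a k := by
    rw [Finset.mul_sum, ← Finset.sum_sub_distrib]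
    apply Finset.dvd_sum
    intro k _
    obtain ⟨t, ht⟩ := desc_mod n k
    have ht' : (n.descFactorial (k + 1) : ℤ_[l]) =
        n * ((-1) ^ k * (k.factorial : ℤ_[l]) + n * t) := by exact_mod_cast congrArg (Int.cast : ℤ → ℤ_[l]) ht
    rw [ht', ha]
    exact ⟨t * z ^ (k + 1) * dp l (k + 1), by ring⟩
  have hnl : (n : ℤ_[l]) = (l : ℤ_[l]) ^ N := by rw [hn]; push_cast; rfl
  rw [← hn, e1]
  obtain ⟨b, hb⟩ := e2
  obtain ⟨c, hc⟩ := e3
  rw [hnl] at hc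
  refine ⟨c - b, ?_⟩
  have : (l : ℤ_[l]) ^ (2 * N) = (l : ℤ_[l]) ^ N * (l : ℤ_[l]) ^ N := by rw [two_mul, pow_add]
  rw [this]
  calc _ = ((∑ k ∈ range n, (n.descFactorial (k + 1) : ℤ_[l]) * z ^ (k + 1) *
      dp l (k + 1)) - (l : ℤ_[l]) ^ N * ∑ k ∈ range n, a k) -
      (l : ℤ_[l]) ^ N * (lg1 z - ∑ k ∈ range n, a k) := by ring
    _ = _ := by
        rw [hc, hb]
        ring

/-- logarithms of integers -/
lemma exists_lgs (hl : 3 ≤ l) {P : ℤ} (hP : ¬ (l : ℤ) ∣ P) :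
    ∃ L : ℤ_[l], Lo ((P : ℤ_[l]) ^ (l - 1)) (((l : ℤ_[l]) - 1) * L) ∧
      (l : ℤ_[l]) ∣ (P : ℤ_[l]) ^ (l - 1) - 1 := by
  have h1 : (l : ℤ) ∣ P ^ (l - 1) - 1 := by
    have h2 : IsCoprime P (l : ℤ) := by
      rw [Int.isCoprime_iff_gcd_eq_one, Int.gcd_comm]
      have h3 : Nat.Coprime l P.natAbs := by
        rw [Nat.Prime.coprime_iff_not_dvd hlf.out]
        intro h4
        exact hP (Int.natCast_dvd.mpr h4)
      exact h3
    exact (Int.ModEq.pow_card_sub_one_eq_one hlf.out h2).symm.dvd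
  obtain ⟨z, hz⟩ := h1
  have hu : IsUnit ((l : ℤ_[l]) - 1) := by
    have h2 : ¬ (l : ℤ) ∣ ((l : ℤ) - 1) := by
      intro h3
      have h4 : (l : ℤ) ∣ 1 := by
        have := dvd_sub (dvd_refl (l : ℤ)) h3
        simpa using this
      have := Int.le_of_dvd one_pos h4
      omega
    have := unit_int (l := l) h2
    push_cast at this
    exact this
  obtain ⟨u, hu⟩ := hu
  have e : (P : ℤ_[l]) ^ (l - 1) = 1 + (l : ℤ_[l]) * z := by
    have : P ^ (l - 1) = 1 + l * z := by rw [← hz]; ring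
    exact_mod_cast congrArg (Int.cast : ℤ → ℤ_[l]) this
  refine ⟨(↑u⁻¹ : ℤ_[l]) * lg1 (z : ℤ_[l]), ?_, ?_⟩
  · rw [e, ← mul_assoc, ← hu, Units.mul_inv, one_mul]
    exact lo_lg1 hl _
  · rw [e, add_sub_cancel_left]
    exact dvd_mul_right _ _

end

end Pool.Agent.Y913.Wm
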