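import Pool.Agent.Y913.Wm.Ir

/-!
Linear independence of one and the logarithms of multiplicatively independent integers.
-/

set_option autoImplicit false

namespace Pool.Agent.Y913.Wm

open Finset

section

variable {l : ℕ} [hlf : Fact l.Prime]

lemma cong_zpow {u : ℤ_[l]ˣ} (h : (l : ℤ_[l]) ∣ (u : ℤ_[l]) - 1) (k : ℤ) :
    (l : ℤ_[l]) ∣ ((u ^ k : ℤ_[l]ˣ) : ℤ_[l]) - 1 := by
  have hn : ∀ n : ℕ, (l : ℤ_[l]) ∣ ((u ^ n : ℤ_[l]ˣ) : ℤ_[l]) - 1 := by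
    intro n
    rw [Units.val_pow_eq_pow_val]
    have := sub_dvd_pow_sub_pow (u : ℤ_[l]) 1 n
    rw [one_pow] at this
    exact h.trans this
  rcases Int.eq_nat_or_neg k with ⟨n, rfl | rfl⟩
  · rw [zpow_natCast]
    exact hn n
  · rw [zpow_neg, zpow_natCast]
    have e : (((u ^ n)⁻¹ : ℤ_[l]ˣ) : ℤ_[l]) - 1 =
        -(((u ^ n)⁻¹ : ℤ_[l]ˣ) : ℤ_[l]) * (((u ^ n : ℤ_[l]ˣ) : ℤ_[l]) - 1) := by
      have h1 := Units.inv_mul (u ^ n)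
      calc (((u ^ n)⁻¹ : ℤ_[l]ˣ) : ℤ_[l]) - 1 = (((u ^ n)⁻¹ : ℤ_[l]ˣ) : ℤ_[l]) -
            (((u ^ n)⁻¹ : ℤ_[l]ˣ) : ℤ_[l]) * ((u ^ n : ℤ_[l]ˣ) : ℤ_[l]) := by rw [h1]
        _ = _ := by ring
    rw [e]
    exact (hn n).mul_left _

lemma cong_prod {J : Type} (s : Finset J) {u : J → ℤ_[l]ˣ}
    (h : ∀ j, (l : ℤ_[l]) ∣ (u j : ℤ_[l]) - 1) :
    (l : ℤ_[l]) ∣ ((∏ j ∈ s, u j : ℤ_[l]ˣ) : ℤ_[l]) - 1 := by
  classical
  induction s using Finset.induction_on with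
  | empty => simp
  | insert j s hj ih =>
    rw [Finset.prod_insert hj, Units.val_mul]
    have e : (u j : ℤ_[l]) * ((∏ j ∈ s, u j : ℤ_[l]ˣ) : ℤ_[l]) - 1 =
        (u j : ℤ_[l]) * (((∏ j ∈ s, u j : ℤ_[l]ˣ) : ℤ_[l]) - 1) + ((u j : ℤ_[l]) - 1) := by ring
    rw [e]
    exact dvd_add (ih.mul_left _) (h j)

/-- **linear independence of one and the logarithms** -/
theorem lin_indep {ν : Type} [Fintype ν] (hl : 3 ≤ l) (P : ν → ℕ) (hP0 : ∀ r, 0 < P r)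
    (hP : ∀ r, ¬ l ∣ P r) (hmi : ∀ κ : ν → ℤ, ∏ r, ((P r : ℕ) : ℚ) ^ κ r = 1 → ∀ r, κ r = 0)
    (L : ν → ℤ_[l]) (hL : ∀ r, Lo ((P r : ℤ_[l]) ^ (l - 1)) (((l : ℤ_[l]) - 1) * L r))
    (hL1 : ∀ r, (l : ℤ_[l]) ∣ (P r : ℤ_[l]) ^ (l - 1) - 1) (κ0 : ℤ) (κ : ν → ℤ)
    (h : (κ0 : ℤ_[l]) + ∑ r, (κ r : ℤ_[l]) * L r = 0) : κ0 = 0 ∧ ∀ r, κ r = 0 := by
  classical
  choose Pu hPu using fun r => unit_nat (l := l) (hP r)
  obtain ⟨x, hx⟩ : ∃ x : ℤ_[l]ˣ, x = ∏ r, (Pu r ^ (l - 1)) ^ κ r := ⟨_, rfl⟩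
  have hlo : Lo (x : ℤ_[l]) (((-((l : ℤ) - 1) * κ0 : ℤ)) : ℤ_[l]) := by
    have h1 : Lo (x : ℤ_[l]) (∑ r, (κ r : ℤ_[l]) * (((l : ℤ_[l]) - 1) * L r)) := by
      rw [hx]
      apply Lo.prod
      intro r
      apply Lo.zpow
      rw [Units.val_pow_eq_pow_val, hPu]
      exact hL r
    have h2 : ∑ r, (κ r : ℤ_[l]) * (((l : ℤ_[l]) - 1) * L r) =
        (((-((l : ℤ) - 1) * κ0 : ℤ)) : ℤ_[l]) := by
      have h3 : ∑ r, (κ r : ℤ_[l]) * (((l : ℤ_[l]) - 1) * L r) =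
          ((l : ℤ_[l]) - 1) * ∑ r, (κ r : ℤ_[l]) * L r := by
        rw [Finset.mul_sum]
        apply Finset.sum_congr rfl
        intro r _
        ring
      have h4 : ∑ r, (κ r : ℤ_[l]) * L r = -(κ0 : ℤ_[l]) := by
        rw [eq_neg_iff_add_eq_zero, add_comm]
        exact h
      rw [h3, h4]
      push_cast
      ring
    rwa [h2] at h1
  have hx1 : (l : ℤ_[l]) ∣ (x : ℤ_[l]) - 1 := by
    rw [hx]
    apply cong_prod
    intro r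
    apply cong_zpow
    rw [Units.val_pow_eq_pow_val, hPu]
    exact hL1 r
  obtain ⟨a, ha⟩ : ∃ a : ℕ, a = ∏ r, P r ^ ((l - 1) * (κ r).toNat) := ⟨_, rfl⟩
  obtain ⟨c, hc⟩ : ∃ c : ℕ, c = ∏ r, P r ^ ((l - 1) * (-κ r).toNat) := ⟨_, rfl⟩
  have ha0 : 0 < a := by rw [ha]; exact Finset.prod_pos (fun r _ => pow_pos (hP0 r) _)
  have hc0 : 0 < c := by rw [hc]; exact Finset.prod_pos (fun r _ => pow_pos (hP0 r) _)
  have hcl : ¬ l ∣ c := by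
    rw [hc]
    intro h1
    rw [hlf.out.prime.dvd_finset_prod_iff] at h1
    obtain ⟨r, -, hr⟩ := h1
    exact hP r (hlf.out.dvd_of_dvd_pow hr)
  have hcx : (c : ℤ_[l]) * (x : ℤ_[l]) = a := by
    have h1 : (c : ℤ_[l]) = ((∏ r, Pu r ^ ((l - 1) * (-κ r).toNat) : ℤ_[l]ˣ) : ℤ_[l]) := by
      rw [hc]
      push_cast
      apply Finset.prod_congr rfl
      intro r _
      rw [hPu]
    have h2 : (a : ℤ_[l]) = ((∏ r, Pu r ^ ((l - 1) * (κ r).toNat) : ℤ_[l]ˣ) : ℤ_[l]) := by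
      rw [ha]
      push_cast
      apply Finset.prod_congr rfl
      intro r _
      rw [hPu]
    rw [h1, h2, ← Units.val_mul, hx, ← Finset.prod_mul_distrib]
    congr 1
    apply Finset.prod_congr rfl
    intro r _
    rw [← zpow_natCast, ← zpow_natCast, ← zpow_natCast, ← zpow_mul, ← zpow_add]
    congr 1
    have h3 := Int.toNat_sub_toNat_neg (κ r)
    push_cast
    linear_combination (-((l - 1 : ℕ) : ℤ)) * h3
  have h0 := no_log hl ha0 hc0 hcl hcx hx1 hlo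
  have hκ0 : κ0 = 0 := by
    rcases mul_eq_zero.mp h0 with h1 | h1
    · exfalso
      have : (3 : ℤ) ≤ l := by exact_mod_cast hl
      omega
    · exact h1
  refine ⟨hκ0, ?_⟩
  rw [h0, Int.cast_zero] at hlo
  have hx2 := hlo.eq_one hl hx1
  rw [hx2, mul_one] at hcx
  have hca : c = a := by exact_mod_cast hcx
  have h1 : ∏ r, ((P r : ℕ) : ℚ) ^ (((l : ℤ) - 1) * κ r) = 1 := by
    have h2 : ∀ r, ((P r : ℕ) : ℚ) ^ (((l : ℤ) - 1) * κ r) =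
        ((P r : ℕ) : ℚ) ^ ((l - 1) * (κ r).toNat) / ((P r : ℕ) : ℚ) ^ ((l - 1) * (-κ r).toNat) := by
      intro r
      have hne : ((P r : ℕ) : ℚ) ≠ 0 := Nat.cast_ne_zero.mpr (hP0 r).ne'
      rw [← zpow_natCast, ← zpow_natCast, ← zpow_sub₀ hne]
      congr 1
      have h3 := Int.toNat_sub_toNat_neg (κ r)
      push_cast [Nat.cast_sub (by omega : 1 ≤ l)]
      linear_combination (-((l : ℤ) - 1)) * h3
    simp only [h2]
    rw [Finset.prod_div_distrib]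
    have h3 : (∏ r, ((P r : ℕ) : ℚ) ^ ((l - 1) * (κ r).toNat)) = (a : ℚ) := by
      rw [ha]
      push_cast
      rfl
    have h4 : (∏ r, ((P r : ℕ) : ℚ) ^ ((l - 1) * (-κ r).toNat)) = (c : ℚ) := by
      rw [hc]
      push_cast
      rfl
    rw [h3, h4, hca]
    have : (a : ℚ) ≠ 0 := Nat.cast_ne_zero.mpr ha0.ne'
    field_simp
  intro r
  have h2 := hmi _ h1 r
  rcases mul_eq_zero.mp h2 with h3 | h3
  · exfalso
    have : (3 : ℤ) ≤ l := by exact_mod_cast hl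
    omega
  · exact h3

end

end Pool.Agent.Y913.Wm
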