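import Pool.Agent.Y913.Wm.Lg
import Pool.Agent.Y913.Sm.Fd

/-!
Exponential polynomials in one variable.
-/

set_option autoImplicit false

namespace Pool.Agent.Y913.Wm

open Finset Polynomial

/-- the operator `d / dY + c` -/
noncomputable def op (c : ℤ) : Module.End ℤ ℤ[X] := derivative + c • (1 : Module.End ℤ ℤ[X])

lemma op_apply (c : ℤ) (P : ℤ[X]) : op c P = derivative P + C c * P := by
  unfold op
  rw [LinearMap.add_apply, LinearMap.smul_apply, Module.End.one_apply, Polynomial.smul_eq_C_mul]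

lemma op_pow (c : ℤ) (m : ℕ) (P : ℤ[X]) :
    (op c ^ m) P = ∑ k ∈ range (m + 1), C (c ^ (m - k) * (m.choose k : ℤ)) * derivative^[k] P := by
  unfold op
  have hc : Commute (derivative : Module.End ℤ ℤ[X]) (c • (1 : Module.End ℤ ℤ[X])) := by
    apply Commute.smul_right
    exact Commute.one_right _
  rw [hc.add_pow, LinearMap.sum_apply]
  apply Finset.sum_congr rfl
  intro k _
  have h1 : (derivative : Module.End ℤ ℤ[X]) ^ k * (c • (1 : Module.End ℤ ℤ[X])) ^ (m - k) *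
      ((m.choose k : ℕ) : Module.End ℤ ℤ[X]) =
      (c ^ (m - k) * (m.choose k : ℤ)) • ((derivative : Module.End ℤ ℤ[X]) ^ k) := by
    rw [_root_.smul_pow, one_pow, mul_smul_comm, mul_one, ← nsmul_eq_mul', mul_comm, mul_smul,
      natCast_zsmul]
  rw [h1, LinearMap.smul_apply, Module.End.pow_apply, Polynomial.smul_eq_C_mul]

lemma op_bound (c : ℤ) (m i : ℕ) (y : ℤ) (M : ℕ) (hM : i ≤ M) (hy : |y| ≤ M) (hM1 : 1 ≤ M) :
    |((op c ^ m) (X ^ i)).eval y| ≤ (1 + |c|) ^ m * (M : ℤ) ^ i := by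
  rw [op_pow, eval_finsetSum]
  have h1 : ∀ k ∈ range (m + 1), |(C (c ^ (m - k) * (m.choose k : ℤ)) *
      derivative^[k] (X ^ i : ℤ[X])).eval y| ≤ (m.choose k : ℤ) * |c| ^ (m - k) * (M : ℤ) ^ i := by
    intro k _
    rw [iterate_derivative_X_pow_eq_natCast_mul, eval_mul, eval_C, eval_mul, eval_pow, eval_X,
      eval_natCast, abs_mul, abs_mul, abs_mul, abs_pow, abs_pow]
    have h2 : |((m.choose k : ℕ) : ℤ)| = (m.choose k : ℤ) := abs_of_nonneg (by positivity)
    have h3 : |((i.descFactorial k : ℕ) : ℤ)| = (i.descFactorial k : ℤ) :=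
      abs_of_nonneg (by positivity)
    rw [h2, h3]
    have h4 : (i.descFactorial k : ℤ) * |y| ^ (i - k) ≤ (M : ℤ) ^ i := by
      rcases le_or_gt k i with hk | hk
      · have h5 : (i.descFactorial k : ℤ) ≤ (M : ℤ) ^ k := by
          exact_mod_cast (Nat.descFactorial_le_pow i k).trans (Nat.pow_le_pow_left hM k)
        calc (i.descFactorial k : ℤ) * |y| ^ (i - k) ≤ (M : ℤ) ^ k * (M : ℤ) ^ (i - k) := by
              gcongr
          _ = (M : ℤ) ^ i := by rw [← pow_add, Nat.add_sub_cancel' hk]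
      · rw [Nat.descFactorial_eq_zero_iff_lt.mpr hk]
        simp
    calc |c| ^ (m - k) * (m.choose k : ℤ) * ((i.descFactorial k : ℤ) * |y| ^ (i - k)) ≤
          |c| ^ (m - k) * (m.choose k : ℤ) * (M : ℤ) ^ i := by gcongr
      _ = _ := by ring
  refine (Finset.abs_sum_le_sum_abs _ _).trans ((Finset.sum_le_sum h1).trans ?_)
  rw [← Finset.sum_mul, add_pow]
  apply le_of_eq
  congr 1
  apply Finset.sum_congr rfl
  intro k _
  rw [one_pow, one_mul, mul_comm]

/-- the ring of exponential polynomials -/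
abbrev Ep := MvPolynomial (Fin 2) ℤ

/-- derivations of polynomial rings -/
noncomputable def ofD {σ : Type} (D : Derivation ℤ (MvPolynomial σ ℤ) (MvPolynomial σ ℤ)) :
    Dn (MvPolynomial σ ℤ) where
  ad := ⟨⟨D, map_zero D⟩, map_add D⟩
  lb a b := by
    show D (a * b) = a * D b + b * D a
    rw [Derivation.leibniz, smul_eq_mul, smul_eq_mul]

lemma ofD_apply {σ : Type} (D : Derivation ℤ (MvPolynomial σ ℤ) (MvPolynomial σ ℤ))
    (G : MvPolynomial σ ℤ) : ofD D G = D G := rfl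

/-- the derivation `Y ↦ 1`, `E ↦ n E` -/
noncomputable def De (n : ℤ) : Dn Ep :=
  ofD (MvPolynomial.mkDerivation ℤ ![1, MvPolynomial.C n * MvPolynomial.X 1])

lemma De_X0 (n : ℤ) : De n (MvPolynomial.X 0) = 1 := by
  unfold De
  rw [ofD_apply, MvPolynomial.mkDerivation_X]
  rfl

lemma De_X1 (n : ℤ) : De n (MvPolynomial.X 1) = MvPolynomial.C n * MvPolynomial.X 1 := by
  unfold De
  rw [ofD_apply, MvPolynomial.mkDerivation_X]
  rfl

lemma De_C (n : ℤ) (a : ℤ) : De n (MvPolynomial.C a) = 0 := by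
  unfold De
  rw [ofD_apply, MvPolynomial.derivation_C]

/-- multiples of derivations -/
def Dn.scale {R : Type} [CommRing R] (D : Dn R) (w : R) : Dn R where
  ad := ⟨⟨fun a => w * D a, by show w * D 0 = 0; rw [D.zero, mul_zero]⟩, fun a b => by
    show w * D (a + b) = w * D a + w * D b
    rw [D.add, mul_add]⟩
  lb a b := by
    show w * D (a * b) = a * (w * D b) + b * (w * D a)
    rw [D.mul]
    ring

lemma Dn.scale_apply {R : Type} [CommRing R] (D : Dn R) (w a : R) : D.scale w a = w * D a := rfl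

/-- polynomials in `Y` -/
noncomputable def io : ℤ[X] →ₐ[ℤ] Ep := aeval (MvPolynomial.X 0)

lemma De_io (n : ℤ) (P : ℤ[X]) (b : ℕ) : De n (io P * MvPolynomial.X 1 ^ b) =
    io (op (b * n) P) * MvPolynomial.X 1 ^ b := by
  rw [(De n).mul, op_apply, map_add, map_mul]
  have h1 : De n (io P) = io (derivative P) := by
    unfold io De
    rw [ofD_apply, Derivation.map_aeval, MvPolynomial.mkDerivation_X, smul_eq_mul]
    exact mul_one _
  have h2 : io (C ((b : ℤ) * n)) = (b : Ep) * MvPolynomial.C n := by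
    unfold io
    rw [aeval_C]
    simp
  rw [h1, h2]
  rcases b with _ | b
  · rw [pow_zero, (De n).one]
    simp
  · rw [(De n).pow, De_X1]
    push_cast
    ring

lemma De_iter (n : ℤ) (t : ℕ) (P : ℤ[X]) (b : ℕ) : (De n)^[t] (io P * MvPolynomial.X 1 ^ b) =
    io ((op (b * n) ^ t) P) * MvPolynomial.X 1 ^ b := by
  induction t with
  | zero => simp
  | succ t ih => rw [Function.iterate_succ_apply', ih, De_io, pow_succ']; rfl

section

variable {R : Type} [CommRing R] {l : ℕ} [hlf : Fact l.Prime]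

lemma lie_two {D : Dn R} {φ : R →+* ℤ_[l]} (hl : 3 ≤ l) (G : R)
    (h : ∀ n, φ (D^[n + 2] G) = 0) : lie D φ G = φ G + φ (D G) * l := by
  unfold lie
  rw [(summable_dp' hl _).tsum_eq_zero_add, dp_zero hl, mul_one]
  congr 1
  rw [tsum_eq_single 0]
  · rw [zero_add, dp_one hl]
    rfl
  · intro n hn
    obtain ⟨m, rfl⟩ := Nat.exists_eq_succ_of_ne_zero hn
    have := h m
    rw [Nat.succ_eq_add_one, this, zero_mul]

lemma lie_cong {D : Dn R} {φ : R →+* ℤ_[l]} (hl : 3 ≤ l) (G : R) :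
    (l : ℤ_[l]) ∣ lie D φ G - φ G := by
  have h := tsum_trunc hl (fun n => φ (D^[n] G)) 1 1 (by omega)
  rw [pow_one, Finset.sum_range_one, dp_zero hl, mul_one] at h
  exact h

lemma iter_smul (D : Dn R) (w : ℤ) (n : ℕ) (G : R) :
    (D.scale (w : R))^[n] G = w ^ n • D^[n] G := by
  induction n with
  | zero => simp
  | succ n ih =>
    rw [Function.iterate_succ_apply', ih, Function.iterate_succ_apply', Dn.scale_apply, D.zsm,
      ← zsmul_eq_mul, smul_smul, pow_succ']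

/-- values of exponential polynomials -/
noncomputable def ps (y x : ℤ_[l]) : Ep →+* ℤ_[l] :=
  MvPolynomial.eval₂Hom (Int.castRingHom ℤ_[l]) ![y, x]

lemma ps_X0 (y x : ℤ_[l]) : ps y x (MvPolynomial.X 0) = y := by
  unfold ps
  rw [MvPolynomial.eval₂Hom_X']
  rfl

lemma ps_X1 (y x : ℤ_[l]) : ps y x (MvPolynomial.X 1) = x := by
  unfold ps
  rw [MvPolynomial.eval₂Hom_X']
  rfl

lemma ps_C (y x : ℤ_[l]) (a : ℤ) : ps y x (MvPolynomial.C a) = a := by
  unfold ps
  rw [MvPolynomial.eval₂Hom_C]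
  rfl

lemma ps_io (y : ℤ) (x : ℤ_[l]) (P : ℤ[X]) : ps (y : ℤ_[l]) x (io P) = ((P.eval y : ℤ) : ℤ_[l]) := by
  unfold io
  induction P using Polynomial.induction_on with
  | C a =>
    rw [aeval_C, eval_C]
    simp
  | add p q hp hq => rw [map_add, map_add, hp, hq, eval_add, Int.cast_add]
  | monomial n a h =>
    rw [map_mul, map_mul, map_pow, map_pow, aeval_X, ps_X0, eval_mul, eval_pow, eval_X, eval_C,
      aeval_C]
    simp

/-- the flow computes the values of exponential polynomials -/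
lemma lie_Ep (hl : 3 ≤ l) {x : ℤ_[l]} (hx1 : (l : ℤ_[l]) ∣ x - 1) {n : ℤ}
    (hx : Lo x n) (w : ℕ) (G : Ep) :
    lie ((De n).scale ((w : ℤ) : Ep)) (ps (0 : ℤ_[l]) 1) G = ps (((l * w : ℕ) : ℤ) : ℤ_[l]) (x ^ (l * w)) G := by
  have hxu : IsUnit x := by
    obtain ⟨z, hz⟩ := hx1
    rw [PadicInt.isUnit_iff]
    have h1 : ¬ ‖x‖ < 1 := by
      rw [PadicInt.norm_lt_one_iff_dvd]
      intro h2
      have h3 : (l : ℤ_[l]) ∣ 1 := by
        have := dvd_sub h2 (⟨z, hz⟩ : (l : ℤ_[l]) ∣ x - 1)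
        simpa using this
      exact (PadicInt.prime_p (p := l)).not_isUnit (isUnit_of_dvd_one h3)
    exact le_antisymm (PadicInt.norm_le_one _) (not_lt.mp h1)
  obtain ⟨u, hu⟩ := hxu
  have hX0 : lie ((De n).scale ((w : ℤ) : Ep)) (ps (0 : ℤ_[l]) 1) (MvPolynomial.X 0) =
      (((l * w : ℕ) : ℤ) : ℤ_[l]) := by
    rw [lie_two hl]
    · rw [ps_X0, Dn.scale_apply, De_X0, zero_add, mul_one]
      simp
      ring
    · intro m
      rw [iter_smul, map_zsmul, Function.iterate_succ_apply, Function.iterate_succ_apply, De_X0,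
        (De n).one, iter_zero, map_zero, smul_zero]
  have hX1 : lie ((De n).scale ((w : ℤ) : Ep)) (ps (0 : ℤ_[l]) 1) (MvPolynomial.X 1) = x ^ (l * w) := by
    obtain ⟨V, hV⟩ : ∃ V, V = lie ((De n).scale ((w : ℤ) : Ep)) (ps (0 : ℤ_[l]) 1) (MvPolynomial.X 1) :=
      ⟨_, rfl⟩
    rw [← hV]
    have h1 : Lo V ((((l * w : ℕ) : ℤ) : ℤ_[l]) * n) := by
      have h2 := lo_lie (D := (De n).scale ((w : ℤ) : Ep)) (φ := ps (0 : ℤ_[l]) 1) hl
        (V := MvPolynomial.X 1) (θ := MvPolynomial.C n * MvPolynomial.X 0) (y := 0) (by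
          have : ((De n).scale ((w : ℤ) : Ep)) (MvPolynomial.X 1) - MvPolynomial.X 1 *
              ((De n).scale ((w : ℤ) : Ep)) (MvPolynomial.C n * MvPolynomial.X 0) = 0 := by
            rw [Dn.scale_apply, Dn.scale_apply, De_X1, (De n).mul, De_X0, De_C, mul_zero,
              add_zero, mul_one]
            ring
          rw [this]
          intro m
          rw [iter_zero, map_zero]) (by rw [ps_X1]; exact Lo.one)
      rw [← hV, ← lieHom_apply _ _ hl, map_mul, lieHom_apply, lieHom_apply, hX0, map_mul, ps_X0,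
        mul_zero, sub_zero, zero_add] at h2
      have h3 : lie ((De n).scale ((w : ℤ) : Ep)) (ps (0 : ℤ_[l]) 1) (MvPolynomial.C n) = n := by
        rw [lie_const _ _ hl, ps_C]
        intro m
        rw [Function.iterate_succ_apply, Dn.scale_apply, De_C, mul_zero, iter_zero, map_zero]
      rw [h3, mul_comm] at h2
      exact h2
    have h2 : Lo (x ^ (l * w)) ((((l * w : ℕ) : ℤ) : ℤ_[l]) * n) := by
      have h3 := Lo.zpow (u := u) (y := (n : ℤ_[l])) (by rw [hu]; exact hx) ((l * w : ℕ) : ℤ)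
      rw [zpow_natCast, Units.val_pow_eq_pow_val, hu] at h3
      exact h3
    have hcx : (l : ℤ_[l]) ∣ x ^ (l * w) - 1 := by
      refine hx1.trans ?_
      have := sub_dvd_pow_sub_pow x 1 (l * w)
      rwa [one_pow] at this
    have hcV : (l : ℤ_[l]) ∣ V - 1 := by
      have := lie_cong (D := (De n).scale ((w : ℤ) : Ep)) (φ := ps (0 : ℤ_[l]) 1) hl (MvPolynomial.X 1)
      rwa [← hV, ps_X1] at this
    have hxu : x ^ (l * w) = ((u ^ (l * w) : ℤ_[l]ˣ) : ℤ_[l]) := by
      rw [Units.val_pow_eq_pow_val, hu]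
    have h4 := h1.mul (Lo.inv (x' := (((u ^ (l * w))⁻¹ : ℤ_[l]ˣ) : ℤ_[l])) h2 (by
      rw [hxu]
      exact Units.mul_inv _))
    rw [add_neg_cancel] at h4
    have h5 := h4.eq_one hl (by
      have e1 : V * (((u ^ (l * w))⁻¹ : ℤ_[l]ˣ) : ℤ_[l]) - 1 =
          (((u ^ (l * w))⁻¹ : ℤ_[l]ˣ) : ℤ_[l]) * ((V - 1) - (x ^ (l * w) - 1)) := by
        have e2 : (((u ^ (l * w))⁻¹ : ℤ_[l]ˣ) : ℤ_[l]) * x ^ (l * w) = 1 := by
          rw [hxu]
          exact Units.inv_mul _
        have e3 : (((u ^ (l * w))⁻¹ : ℤ_[l]ˣ) : ℤ_[l]) * ((V - 1) - (x ^ (l * w) - 1)) =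
            V * (((u ^ (l * w))⁻¹ : ℤ_[l]ˣ) : ℤ_[l]) -
            (((u ^ (l * w))⁻¹ : ℤ_[l]ˣ) : ℤ_[l]) * x ^ (l * w) := by ring
        rw [e3, e2]
      rw [e1]
      exact (dvd_sub hcV hcx).mul_left _)
    calc V = V * ((((u ^ (l * w))⁻¹ : ℤ_[l]ˣ) : ℤ_[l]) * x ^ (l * w)) := by
          have e2 : (((u ^ (l * w))⁻¹ : ℤ_[l]ˣ) : ℤ_[l]) * x ^ (l * w) = 1 := by
            rw [hxu]
            exact Units.inv_mul _
          rw [e2, mul_one]
      _ = (V * (((u ^ (l * w))⁻¹ : ℤ_[l]ˣ) : ℤ_[l])) * x ^ (l * w) := by ring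
      _ = _ := by rw [h5, one_mul]
  have key : lieHom ((De n).scale ((w : ℤ) : Ep)) (ps (0 : ℤ_[l]) 1) hl =
      ps (((l * w : ℕ) : ℤ) : ℤ_[l]) (x ^ (l * w)) := by
    apply MvPolynomial.ringHom_ext
    · intro a
      rw [lieHom_apply, ps_C, lie_const _ _ hl, ps_C]
      intro m
      rw [Function.iterate_succ_apply, Dn.scale_apply, De_C, mul_zero, iter_zero, map_zero]
    · intro i
      fin_cases i
      · exact hX0.trans (ps_X0 _ _).symm
      · exact hX1.trans (ps_X1 _ _).symm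
  rw [← key]
  rfl

end

end Pool.Agent.Y913.Wm
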