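import Pool.Agent.Y913.Wm.Nv

/-!
The statement proved by induction: bases and exponents are both variables.
-/

set_option autoImplicit false

namespace Pool.Agent.Y913.Wm

open Finset MvPolynomial Matrix Filter Pool.Agent.Y913.Vm

/-- the two ratios attached to a vector of bases and exponents -/
noncomputable def rt {ν : Type} [Fintype ν] (q : Vr ν → ℤ) (j : Fin 2) : ℚ :=
  ∏ r, ((q (Sum.inl r) : ℤ) : ℚ) ^ q (Sum.inr (j, r))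

/-- the admissible vectors -/
def Gd {ν : Type} [Fintype ν] (C0 : ℕ) (X : ℝ) (K : ℕ) (q : Vr ν → ℤ) : Prop :=
  (∀ k, |(q k : ℝ)| ≤ X ^ C0) ∧ (∀ r, 0 < q (Sum.inl r)) ∧
    (∀ κ : ν → ℤ, ∏ r, ((q (Sum.inl r) : ℤ) : ℚ) ^ κ r = 1 → ∀ r, κ r = 0) ∧
    ∃ A B : ℕ, 0 < A ∧ 0 < B ∧ Nat.Coprime A B ∧ rt q 0 = (A : ℚ) / ((A + B : ℕ) : ℚ) ∧
      rt q 1 = (B : ℚ) / ((A + B : ℕ) : ℚ) ∧ X ^ K ≤ ((A + B : ℕ) : ℝ)

/-- the vectors are determined by the ratios -/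
def Sp {ν : Type} [Fintype ν] (E : Finset (Vr ν → ℤ)) : Prop :=
  ∀ q ∈ E, ∀ q' ∈ E, rt q 0 = rt q' 0 → rt q 1 = rt q' 1 → q = q'

lemma Gd.mono {ν : Type} [Fintype ν] {C0 : ℕ} {X : ℝ} (hX : 1 ≤ X) {K K' : ℕ} (hK : K ≤ K')
    {q : Vr ν → ℤ} (h : Gd C0 X K' q) : Gd C0 X K q := by
  obtain ⟨h1, h2, h3, A, B, h4, h5, h6, h7, h8, h9⟩ := h
  exact ⟨h1, h2, h3, A, B, h4, h5, h6, h7, h8, (pow_le_pow_right₀ hX hK).trans h9⟩

lemma Sp.sub {ν : Type} [Fintype ν] {E E' : Finset (Vr ν → ℤ)} (h : Sp E) (hE : E' ⊆ E) : Sp E' :=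
  fun q hq q' hq' h1 h2 => h q (hE hq) q' (hE hq') h1 h2

/-- the bound for a system of equations -/
def Bq {ν π κ : Type} [Fintype ν] [DecidableEq ν] [Fintype κ] [DecidableEq κ]
    (C0 : ℕ) (ι : κ → Vr ν) (F : κ → Rg (π ⊕ Vr ν)) (D : ℕ) (ε : ℝ) (K : ℕ) (X : ℝ) : Prop :=
  ∀ z : π → ℤ, (∀ i, |(z i : ℝ)| ≤ X ^ D) → ∀ E : Finset (Vr ν → ℤ), (∀ q ∈ E, Gd C0 X K q ∧
      (∀ a, eval (Sum.elim z q) (F a) = 0) ∧ eval (Sum.elim z q) (jd Sum.inr ι F) ≠ 0) →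
    Sp E → (E.card : ℝ) ≤ X ^ ε

/-- the statement for `s` equations -/
def Sq (ν : Type) [Fintype ν] [DecidableEq ν] (C0 s : ℕ) : Prop :=
  ∀ (π κ : Type) [Fintype π] [DecidableEq π] [Fintype κ] [DecidableEq κ], Fintype.card κ = s →
    ∀ (ι : κ → Vr ν) (F : κ → Rg (π ⊕ Vr ν)) (D : ℕ) (ε : ℝ), 0 < ε →
    ∃ K : ℕ, ∀ᶠ X : ℝ in atTop, Bq C0 ι F D ε K X

lemma Bq.mono {ν π κ : Type} [Fintype ν] [DecidableEq ν] [Fintype κ] [DecidableEq κ]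
    {C0 : ℕ} {ι : κ → Vr ν} {F : κ → Rg (π ⊕ Vr ν)} {D : ℕ} {ε : ℝ} {K K' : ℕ}
    {X : ℝ} (hX : 1 ≤ X) (hK : K ≤ K') (h : Bq C0 ι F D ε K X) : Bq C0 ι F D ε K' X := by
  intro z hz E hE hS
  exact h z hz E (fun q hq => ⟨(hE q hq).1.mono hX hK, (hE q hq).2⟩) hS

/-- uniformity over finite families -/
lemma unif2 {T : Type} (s : Finset T) (Q : T → ℕ → ℝ → Prop)
    (hmono : ∀ t (K K' : ℕ) (X : ℝ), 1 ≤ X → K ≤ K' → Q t K X → Q t K' X)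
    (h : ∀ t ∈ s, ∃ K : ℕ, ∀ᶠ X : ℝ in atTop, Q t K X) :
    ∃ K : ℕ, ∀ᶠ X : ℝ in atTop, ∀ t ∈ s, Q t K X := by
  obtain ⟨K, η, hη, h1⟩ := unif s (fun t K _ X => Q t K X)
    (fun t K K' η η' X hX hK _ hQ => hmono t K K' X hX hK hQ)
    (fun t ht => by
      obtain ⟨K, hK⟩ := h t ht
      exact ⟨K, 1, one_pos, hK⟩)
  exact ⟨K, h1⟩

/-- sizes of the values of a fixed polynomial -/
lemma size2 {π ν : Type} (G : Rg (π ⊕ ν)) (D C0 : ℕ) : ∃ D' : ℕ, ∀ X : ℝ, 2 ≤ X →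
    ∀ (z : π → ℤ) (q : ν → ℤ), (∀ i, |(z i : ℝ)| ≤ X ^ D) → (∀ r, |(q r : ℝ)| ≤ X ^ C0) →
    |((eval (Sum.elim z q) G : ℤ) : ℝ)| ≤ X ^ D' := by
  obtain ⟨D1, h1⟩ := size G
  refine ⟨(D + C0 + 1) * D1, ?_⟩
  intro X hX z q hz hq
  rw [pow_mul]
  have hX1 : X ≤ X ^ (D + C0 + 1) := by
    calc X = X ^ 1 := (pow_one X).symm
      _ ≤ X ^ (D + C0 + 1) := pow_le_pow_right₀ (by linarith) (by omega)
  apply h1 _ (hX.trans hX1)
  rintro (i | r)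
  · exact (hz i).trans (pow_le_pow_right₀ (by linarith) (by omega))
  · exact (hq r).trans (pow_le_pow_right₀ (by linarith) (by omega))

section

variable {l : ℕ} [hlf : Fact l.Prime] {ν : Type} [Fintype ν]

lemma coe_zp (u : ℤ_[l]ˣ) (n : ℤ) :
    (((u ^ n : ℤ_[l]ˣ) : ℤ_[l]) : ℚ_[l]) = ((u : ℤ_[l]) : ℚ_[l]) ^ n := by
  have h1 := map_zpow (Units.map ((PadicInt.Coe.ringHom : ℤ_[l] →+* ℚ_[l]) : ℤ_[l] →* ℚ_[l])) u n
  have h2 := congrArg (fun t : ℚ_[l]ˣ => (t : ℚ_[l])) h1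
  simp only [Units.val_zpow_eq_zpow_val] at h2
  exact h2

lemma coe_rt (q : Vr ν → ℤ) (Pu : ν → ℤ_[l]ˣ)
    (hPu : ∀ r, (Pu r : ℤ_[l]) = (q (Sum.inl r) : ℤ_[l])) (j : Fin 2) :
    (((∏ r, Pu r ^ q (Sum.inr (j, r)) : ℤ_[l]ˣ) : ℤ_[l]) : ℚ_[l]) = ((rt q j : ℚ) : ℚ_[l]) := by
  unfold rt
  have h1 : (((∏ r, Pu r ^ q (Sum.inr (j, r)) : ℤ_[l]ˣ) : ℤ_[l]) : ℚ_[l]) =
      ∏ r, (((Pu r ^ q (Sum.inr (j, r)) : ℤ_[l]ˣ) : ℤ_[l]) : ℚ_[l]) := by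
    rw [Units.coe_prod]
    exact map_prod (PadicInt.Coe.ringHom : ℤ_[l] →+* ℚ_[l]) _ _
  rw [h1, Rat.cast_prod]
  apply Finset.prod_congr rfl
  intro r _
  rw [coe_zp, hPu, Rat.cast_zpow]
  push_cast
  rfl

end

/-- the parameters of the auxiliary polynomial -/
lemma pig2 {X ε2 : ℝ} (hX : 1 ≤ X) {l c d h n m0 : ℕ}
    (hl : (l : ℝ) ≤ X ^ ε2) (hh : ε2 * (m0 * (c : ℝ) ^ n) ≤ h) (hd : 0 < d) :
    l ^ (m0 * (c * d) ^ n) < (⌊X ^ h⌋₊ + 1) ^ (d ^ n) := by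
  have hX0 : 0 < X := by linarith
  have h2 : ((l ^ (m0 * (c * d) ^ n) : ℕ) : ℝ) ≤ (X ^ h) ^ (d ^ n) := by
    push_cast
    calc (l : ℝ) ^ (m0 * (c * d) ^ n) ≤ (X ^ ε2) ^ (m0 * (c * d) ^ n) :=
          pow_le_pow_left₀ (by positivity) hl _
      _ = X ^ (ε2 * (m0 * ((c : ℝ) * d) ^ n)) := by
          rw [← Real.rpow_natCast, ← Real.rpow_mul hX0.le]
          push_cast
          ring_nf
      _ ≤ X ^ ((h : ℝ) * (d : ℝ) ^ n) := by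
          apply Real.rpow_le_rpow_of_exponent_le hX
          rw [mul_pow, ← mul_assoc, ← mul_assoc, mul_assoc ε2]
          exact mul_le_mul_of_nonneg_right hh (by positivity)
      _ = (X ^ h) ^ (d ^ n) := by
          rw [← pow_mul, ← Real.rpow_natCast X (h * d ^ n)]
          push_cast
          rfl
  have h3 : (X ^ h) ^ (d ^ n) < (((⌊X ^ h⌋₊ + 1) ^ (d ^ n) : ℕ) : ℝ) := by
    push_cast
    apply pow_lt_pow_left₀ (Nat.lt_floor_add_one _) (by positivity)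
    positivity
  exact_mod_cast h2.trans_lt h3

lemma sum_small2 {μ κ : Type} [Fintype μ] [DecidableEq μ] [Fintype κ] [DecidableEq κ]
    {ι : κ → μ} {X ε2 : ℝ} (hX : 1 ≤ X) {l c d h n C0 : ℕ}
    (hl : X ^ (ε2 / 2) < l) (hc : ((C0 * n + 1 : ℕ) : ℝ) ≤ c * (ε2 / 2)) (hd : h + 1 ≤ d)
    (hcd : 0 < c * d)
    (hdX : (d : ℝ) ^ n ≤ X) (hn : Fintype.card (Fv ι) = n) (G : (Fv ι → Fin d) → ℤ)
    (hG : ∀ m, |G m| ≤ ((⌊X ^ h⌋₊ : ℕ) : ℤ)) (q : μ → ℤ) (hq : ∀ r, |(q r : ℝ)| ≤ X ^ C0)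
    (hdiv : (l : ℤ) ^ (c * d) ∣ ∑ m, G m * ∏ r : Fv ι, q r ^ (m r : ℕ)) :
    ∑ m, G m * ∏ r : Fv ι, q r ^ (m r : ℕ) = 0 := by
  have hX0 : 0 < X := by linarith
  by_contra hne
  have h1 := Int.le_of_dvd (abs_pos.mpr hne) ((dvd_abs _ _).mpr hdiv)
  have h2 : (l : ℝ) ^ (c * d) ≤ |((∑ m, G m * ∏ r : Fv ι, q r ^ (m r : ℕ) : ℤ) : ℝ)| := by
    exact_mod_cast h1
  have hXC : 1 ≤ X ^ C0 := one_le_pow₀ hX
  have h3 : |((∑ m, G m * ∏ r : Fv ι, q r ^ (m r : ℕ) : ℤ) : ℝ)| ≤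
      (d : ℝ) ^ n * (X ^ h * X ^ (C0 * n * d)) := by
    push_cast
    refine (Finset.abs_sum_le_sum_abs _ _).trans ?_
    calc ∑ m : Fv ι → Fin d, |(G m : ℝ) * ∏ r : Fv ι, (q r : ℝ) ^ (m r : ℕ)| ≤
          ∑ _m : Fv ι → Fin d, X ^ h * X ^ (C0 * n * d) := by
          apply Finset.sum_le_sum
          intro m _
          rw [abs_mul]
          apply mul_le_mul _ _ (abs_nonneg _) (by positivity)
          · have h4 : ((|G m| : ℤ) : ℝ) ≤ ((⌊X ^ h⌋₊ : ℕ) : ℝ) := by exact_mod_cast hG m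
            rw [Int.cast_abs] at h4
            exact h4.trans (Nat.floor_le (by positivity))
          · rw [Finset.abs_prod]
            calc ∏ r : Fv ι, |(q r : ℝ) ^ (m r : ℕ)| ≤ ∏ _r : Fv ι, (X ^ C0) ^ d := by
                  apply Finset.prod_le_prod (fun r _ => abs_nonneg _)
                  intro r _
                  rw [abs_pow]
                  calc |(q r : ℝ)| ^ (m r : ℕ) ≤ (X ^ C0) ^ (m r : ℕ) :=
                        pow_le_pow_left₀ (abs_nonneg _) (hq r) _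
                    _ ≤ (X ^ C0) ^ d := pow_le_pow_right₀ hXC (m r).isLt.le
              _ = X ^ (C0 * n * d) := by
                  rw [Finset.prod_const, Finset.card_univ, hn, ← pow_mul, ← pow_mul]
                  congr 1
                  ring
      _ = (d : ℝ) ^ n * (X ^ h * X ^ (C0 * n * d)) := by
          rw [Finset.sum_const, Finset.card_univ, Fintype.card_fun, Fintype.card_fin, hn,
            nsmul_eq_mul]
          push_cast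
          rfl
  have h4 : (d : ℝ) ^ n * (X ^ h * X ^ (C0 * n * d)) ≤ X ^ ((C0 * n + 1) * d) := by
    calc (d : ℝ) ^ n * (X ^ h * X ^ (C0 * n * d)) ≤ X * (X ^ h * X ^ (C0 * n * d)) := by gcongr
      _ = X ^ (h + 1 + C0 * n * d) := by ring
      _ ≤ X ^ ((C0 * n + 1) * d) := pow_le_pow_right₀ hX (by nlinarith)
  have h5 : X ^ ((C0 * n + 1) * d) < (l : ℝ) ^ (c * d) := by
    calc X ^ ((C0 * n + 1) * d) = X ^ (((C0 * n + 1 : ℕ) : ℝ) * d) := by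
          rw [← Real.rpow_natCast]
          push_cast
          ring_nf
      _ ≤ X ^ (c * (ε2 / 2) * d) := by
          apply Real.rpow_le_rpow_of_exponent_le hX
          exact mul_le_mul_of_nonneg_right hc (by positivity)
      _ = (X ^ (ε2 / 2)) ^ (c * d) := by
          rw [← Real.rpow_natCast, ← Real.rpow_mul hX0.le]
          push_cast
          ring_nf
      _ < (l : ℝ) ^ (c * d) := pow_lt_pow_left₀ hl (by positivity) (by omega)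
  linarith

end Pool.Agent.Y913.Wm
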