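import Pool.Agent.Y913.Wm.Sb

/-!
The induction.
-/

set_option autoImplicit false

namespace Pool.Agent.Y913.Wm

open Finset MvPolynomial Matrix Filter Pool.Agent.Y913.Vm

/-- splitting into residue classes modulo `l (l - 1)` -/
lemma split {ν : Type} [Fintype ν] [DecidableEq ν] {π κ : Type} [Fintype κ] [DecidableEq κ]
    (C0 : ℕ) (ι : κ → Vr ν) (F : κ → Rg (π ⊕ Vr ν)) (D : ℕ) (ε ε2 : ℝ) (hε : 0 < ε)
    (hε2 : 0 < ε2) (hN : ε2 * (2 * (Fintype.card (Vr ν) : ℝ) + 3) ≤ ε / 2) :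
    ∀ᶠ X : ℝ in atTop, ∀ z : π → ℤ, (∀ i, |(z i : ℝ)| ≤ X ^ D) → ∀ E : Finset (Vr ν → ℤ),
      (∀ q ∈ E, Gd C0 X 0 q ∧ eval (Sum.elim z q) (jd Sum.inr ι F) ≠ 0) → ∀ B : ℝ, 0 ≤ B →
      (∀ l : ℕ, l.Prime → X ^ (ε2 / 2) < l → (l : ℝ) ≤ X ^ ε2 → ∀ E' ⊆ E,
        (∀ q ∈ E', ¬ (l : ℤ) ∣ eval (Sum.elim z q) (jd Sum.inr ι F)) →
        (∀ q ∈ E', ∀ r, ¬ (l : ℤ) ∣ q (Sum.inl r)) →
        (∀ q ∈ E', ∀ q' ∈ E', ∀ k, (l : ℤ) ∣ q' k - q k) →
        (∀ q ∈ E', ∀ q' ∈ E', ∀ k, ((l : ℤ) - 1) ∣ q' k - q k) → (E'.card : ℝ) ≤ B) →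
      (E.card : ℝ) ≤ X ^ ε * B := by
  classical
  obtain ⟨N, hNN⟩ : ∃ N, Fintype.card (Vr ν) = N := ⟨_, rfl⟩
  rw [hNN] at hN
  obtain ⟨D', hsz⟩ := size2 (jd Sum.inr ι F * ∏ r : ν, X (Sum.inr (Sum.inl r)) :
    Rg (π ⊕ Vr ν)) D C0
  have hev2 := ev_size D' (by positivity : 0 < ε2 / 2)
  have hev3 : ∀ᶠ X : ℝ in atTop, (1000000 : ℝ) ≤ X ^ ε2 :=
    (tendsto_rpow_atTop hε2).eventually_ge_atTop _
  have hev4 : ∀ᶠ X : ℝ in atTop, (2 : ℝ) ^ N ≤ X ^ (ε / 2) :=
    (tendsto_rpow_atTop (by positivity)).eventually_ge_atTop _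
  filter_upwards [hev2, hev3, hev4, eventually_gt_atTop (2 : ℝ)] with X h2 h3 h4 hX z hz E hE B
    hB0 hB
  have hX0 : 0 < X := by linarith
  have hX1 : 1 ≤ X := by linarith
  obtain ⟨L, hL1, hL2, hL3⟩ := prime_set h3
  have hsq : Real.sqrt (X ^ ε2) = X ^ (ε2 / 2) := by
    rw [Real.sqrt_eq_rpow, ← Real.rpow_mul hX0.le]
    ring_nf
  have hch : ∀ q ∈ E, ∃ l ∈ L, ¬ (l : ℤ) ∣ eval (Sum.elim z q)
      (jd Sum.inr ι F * ∏ r : ν, MvPolynomial.X (Sum.inr (Sum.inl r)) : Rg (π ⊕ Vr ν)) := by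
    intro q hq
    obtain ⟨hg, hJ⟩ := hE q hq
    apply good_prime h3 hL1 hL2
    · rw [map_mul, map_prod]
      apply mul_ne_zero hJ
      rw [Finset.prod_ne_zero_iff]
      intro r _
      rw [eval_X]
      exact (hg.2.1 r).ne'
    · rw [hsq]
      refine (hsz X hX.le z q hz hg.1).trans_lt ?_
      rw [← Real.exp_log (by positivity : 0 < X ^ D')]
      apply Real.exp_lt_exp.mpr
      rw [Real.log_pow]
      have : 0 < X ^ (ε2 / 2 / 2) := by positivity
      linarith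
  choose! lam hlam hdv using hch
  obtain ⟨Y, hY⟩ : ∃ Y : ℝ, Y = X ^ ε2 := ⟨_, rfl⟩
  have hY1 : 1 ≤ Y := by rw [hY]; linarith
  have h6 := classes L (L.image (fun l => l * (l - 1))) (Y * Y) (by
      intro l hl
      rw [Finset.mem_image] at hl
      obtain ⟨p, hp, rfl⟩ := hl
      obtain ⟨hp1, hp2, hp3⟩ := hL1 p hp
      have hp4 := hp1.two_le
      refine ⟨Nat.mul_pos (by omega) (by omega), ?_⟩
      push_cast
      have h7 : ((p - 1 : ℕ) : ℝ) ≤ (p : ℝ) := by exact_mod_cast Nat.sub_le p 1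
      rw [hY]
      have h8 : (0 : ℝ) ≤ ((p - 1 : ℕ) : ℝ) := Nat.cast_nonneg _
      exact mul_le_mul hp3 (h7.trans hp3) h8 (by positivity)) (by nlinarith) (by
      have h7 : ((L.image (fun l => l * (l - 1))).card : ℝ) ≤ L.card := by
        exact_mod_cast Finset.card_image_le
      rw [← hY] at hL3
      nlinarith) E lam (fun q => lam q * (lam q - 1)) hlam
    (fun q hq => Finset.mem_image_of_mem _ (hlam q hq)) B hB0 (by
      intro t ht l hl E' hE' htl hcl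
      rcases Finset.eq_empty_or_nonempty E' with hE0 | ⟨q0, hq0⟩
      · rw [hE0]
        simp only [Finset.card_empty, Nat.cast_zero]
        exact hB0
      obtain ⟨ht1, ht2, ht3⟩ := hL1 t ht
      have htt := htl q0 hq0
      have hlt : l = t * (t - 1) := by
        rw [← htt.2, htt.1]
      have ht4 := ht1.two_le
      have hl1 : (t : ℤ) ∣ (l : ℤ) := by
        rw [hlt]
        exact_mod_cast Dvd.intro _ rfl
      have hl2 : ((t : ℤ) - 1) ∣ (l : ℤ) := by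
        rw [hlt]
        push_cast [Nat.cast_sub (by omega : 1 ≤ t)]
        exact Dvd.intro_left _ rfl
      refine hB t ht1 (by rw [← hsq]; exact ht2) ht3 E' hE' ?_ ?_
        (fun q hq q' hq' k => hl1.trans (hcl q hq q' hq' k))
        (fun q hq q' hq' k => hl2.trans (hcl q hq q' hq' k))
      · intro q hq h7
        have h8 := hdv q (hE' hq)
        rw [(htl q hq).1] at h8
        apply h8
        rw [map_mul]
        exact h7.mul_right _
      · intro q hq r h7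
        have h8 := hdv q (hE' hq)
        rw [(htl q hq).1] at h8
        apply h8
        rw [map_mul, map_prod]
        apply Dvd.dvd.mul_left
        refine dvd_trans ?_ (Finset.dvd_prod_of_mem _ (Finset.mem_univ r))
        rw [eval_X]
        exact h7)
  rw [hNN] at h6
  refine h6.trans ?_
  apply mul_le_mul_of_nonneg_right _ hB0
  have h7 : Y ^ (2 * N + 3) ≤ X ^ (ε / 2) := by
    rw [hY, ← Real.rpow_natCast, ← Real.rpow_mul hX0.le]
    apply Real.rpow_le_rpow_of_exponent_le hX1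
    push_cast
    exact hN
  calc (L.card : ℝ) * (Y * Y * (2 * (Y * Y)) ^ N) ≤ Y * (Y * Y * (2 * (Y * Y)) ^ N) := by
        rw [← hY] at hL3
        have : 0 ≤ Y * Y * (2 * (Y * Y)) ^ N := by positivity
        exact mul_le_mul_of_nonneg_right hL3 this
    _ = 2 ^ N * Y ^ (2 * N + 3) := by
        rw [mul_pow, mul_pow]
        ring
    _ ≤ X ^ (ε / 2) * X ^ (ε / 2) := by
        apply mul_le_mul h4 h7 (by positivity) (by positivity)
    _ = X ^ ε := by
        rw [← Real.rpow_add hX0]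
        ring_nf

/-- a small parameter -/
lemma small_par (N : ℕ) (ε : ℝ) (hε : 0 < ε) : ∃ ε2 : ℝ, 0 < ε2 ∧
    ε2 * (2 * (N : ℝ) + 3) ≤ ε / 2 := by
  refine ⟨ε / (2 * (2 * N + 3)), by positivity, ?_⟩
  have : (0 : ℝ) < 2 * N + 3 := by positivity
  rw [div_mul_eq_mul_div, div_le_div_iff₀ (by positivity) (by positivity)]
  nlinarith

/-- the transverse points -/
theorem part1' {ν : Type} [Fintype ν] [DecidableEq ν] {π κ : Type} [Fintype π] [DecidableEq π]
    [Fintype κ] [DecidableEq κ] {C0 : ℕ} (hst : Sq ν C0 (Fintype.card κ + 1))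
    (ι : κ → Vr ν) (hι : Function.Injective ι) (F : κ → Rg (π ⊕ Vr ν)) (D : ℕ) (ε : ℝ)
    (hε : 0 < ε) :
    ∃ K : ℕ, ∀ᶠ X : ℝ in atTop, ∀ z : π → ℤ, (∀ i, |(z i : ℝ)| ≤ X ^ D) →
      ∀ E : Finset (Vr ν → ℤ), (∀ q ∈ E, Gd C0 X K q ∧
      (∀ a, eval (Sum.elim z q) (F a) = 0) ∧ eval (Sum.elim z q) (jd Sum.inr ι F) ≠ 0 ∧
      ∃ t, eval (Sum.elim z q) (ga ι F t) ≠ 0) → Sp E → (E.card : ℝ) ≤ X ^ ε := by
  classical
  obtain ⟨ε2, hε2, hN⟩ := small_par (Fintype.card (Vr ν)) (ε / 2) (by positivity)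
  obtain ⟨K, h1⟩ := class2 hst ι hι F D (ε / 2) ε2 (by positivity) hε2
  have h2 := split C0 ι F D (ε / 2) ε2 (by positivity) hε2 hN
  refine ⟨K, ?_⟩
  filter_upwards [h1, h2, eventually_gt_atTop (2 : ℝ)] with X h1 h2 hX z hz E hE hS
  have hX0 : 0 < X := by linarith
  have hX1 : 1 ≤ X := by linarith
  have h3 := h2 z hz E (fun q hq => ⟨(hE q hq).1.mono hX1 (Nat.zero_le _), (hE q hq).2.2.1⟩)
    (X ^ (ε / 2)) (by positivity) (by
      intro l hl hl1 hl2 E' hE' hJ hP hc1 hc2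
      exact h1 z hz l hl hl1 hl2 E' (fun q hq => hE q (hE' hq)) hJ hP hc1 hc2 (hS.sub hE'))
  calc (E.card : ℝ) ≤ X ^ (ε / 2) * X ^ (ε / 2) := h3
    _ = X ^ ε := by
        rw [← Real.rpow_add hX0]
        ring_nf

/-- points at which an obstruction vanishes to finite order -/
theorem part2' {ν : Type} [Fintype ν] [DecidableEq ν] {π κ : Type} [Fintype π] [DecidableEq π]
    [Fintype κ] [DecidableEq κ] {C0 : ℕ} (hst : Sq ν C0 (Fintype.card κ + 1))
    (ι : κ → Vr ν) (F : κ → Rg (π ⊕ Vr ν)) (D : ℕ) (ε : ℝ) (hε : 0 < ε) (n0 : ℕ) :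
    ∃ K : ℕ, ∀ᶠ X : ℝ in atTop, ∀ z : π → ℤ, (∀ i, |(z i : ℝ)| ≤ X ^ D) →
      ∀ E : Finset (Vr ν → ℤ), (∀ q ∈ E, Gd C0 X K q ∧
      (∀ a, eval (Sum.elim z q) (F a) = 0) ∧ eval (Sum.elim z q) (jd Sum.inr ι F) ≠ 0 ∧
      (∀ t, eval (Sum.elim z q) (ga ι F t) = 0) ∧
      ∃ t, ¬ Van Sum.inr ι F (Sum.elim z q) n0 (ga ι F t)) →
      Sp E → (E.card : ℝ) ≤ X ^ ε := by
  classical
  have hfin : {w : List (Vr ν) | w.length ≤ n0}.Finite := List.finite_length_le (Vr ν) _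
  obtain ⟨W, hW⟩ : ∃ W : Finset ((Fv ι × Fin 2 × Option ν) × List (Vr ν) × Vr ν),
    W = Finset.univ ×ˢ hfin.toFinset ×ˢ Finset.univ := ⟨_, rfl⟩
  obtain ⟨K, hev⟩ := unif2 W (fun t K X => Bq C0
    (Sum.elim ι (fun _ : Unit => t.2.2)) (Sum.elim F
      (fun _ : Unit => word Sum.inr ι F t.2.1 (ga ι F t.1))) D (ε / 2) K X)
    (fun t K K' X hX hK hb => hb.mono hX hK)
    (fun t _ => hst π (κ ⊕ Unit) (by rw [Fintype.card_sum, Fintype.card_unit])
      _ _ _ _ (by positivity))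
  refine ⟨K, ?_⟩
  have hev3 : ∀ᶠ X : ℝ in atTop, (W.card : ℝ) ≤ X ^ (ε / 2) :=
    (tendsto_rpow_atTop (by positivity)).eventually_ge_atTop _
  filter_upwards [hev, hev3, eventually_ge_atTop (1 : ℝ)] with X h1 h3 hX z hz E hE hS
  have hX0 : 0 < X := by linarith
  have hnew : ∀ q ∈ E, ∃ t ∈ W, eval (Sum.elim z q) (word Sum.inr ι F t.2.1 (ga ι F t.1)) = 0 ∧
      eval (Sum.elim z q) (dd Sum.inr ι F t.2.2 (word Sum.inr ι F t.2.1 (ga ι F t.1))) ≠ 0 := by
    intro q hq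
    obtain ⟨-, hF, hJ, hg, i, hi⟩ := hE q hq
    obtain ⟨w, i', hw, h4, h5⟩ := first_word _ ι F _ _ n0 (hg i) hi
    refine ⟨(i, w, i'), ?_, h4, h5⟩
    rw [hW, Finset.mem_product, Finset.mem_product]
    refine ⟨Finset.mem_univ _, ?_, Finset.mem_univ _⟩
    rw [Set.Finite.mem_toFinset]
    exact hw
  rcases Finset.eq_empty_or_nonempty E with hE0 | ⟨q0, hq0⟩
  · rw [hE0]
    simp only [Finset.card_empty, Nat.cast_zero]
    positivity
  have hne : Nonempty ((Fv ι × Fin 2 × Option ν) × List (Vr ν) × Vr ν) :=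
    ⟨(hnew q0 hq0).choose⟩
  choose! f hf1 hf2 hf3 using hnew
  have h4 := fiber_bound E f W hf1 (X ^ (ε / 2)) (by
    intro t ht
    refine h1 t ht z hz _ ?_ (hS.sub (Finset.filter_subset _ _))
    intro q hq
    rw [Finset.mem_filter] at hq
    obtain ⟨hq, hft⟩ := hq
    obtain ⟨hg, hF, hJ, -⟩ := hE q hq
    refine ⟨hg, ?_, ?_⟩
    · rintro (a | a)
      · exact hF a
      · have := hf2 q hq
        rw [hft] at this
        exact this
    · have := hf3 q hq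
      rw [hft] at this
      rw [jd_snoc _ _ _ _ _ _ hJ]
      exact this)
  calc (E.card : ℝ) ≤ W.card * X ^ (ε / 2) := h4
    _ ≤ X ^ (ε / 2) * X ^ (ε / 2) := by gcongr
    _ = X ^ ε := by
        rw [← Real.rpow_add hX0]
        ring_nf

/-- points at which the obstructions vanish to all orders -/
theorem part3' {ν : Type} [Fintype ν] [DecidableEq ν] {π κ : Type} [Fintype π] [DecidableEq π]
    [Fintype κ] [DecidableEq κ] (C0 : ℕ)
    (ι : κ → Vr ν) (hι : Function.Injective ι) (F : κ → Rg (π ⊕ Vr ν)) (D : ℕ) (ε : ℝ)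
    (hε : 0 < ε) :
    ∀ᶠ X : ℝ in atTop, ∀ z : π → ℤ, (∀ i, |(z i : ℝ)| ≤ X ^ D) →
      ∀ E : Finset (Vr ν → ℤ), (∀ q ∈ E, Gd C0 X 0 q ∧
      (∀ a, eval (Sum.elim z q) (F a) = 0) ∧ eval (Sum.elim z q) (jd Sum.inr ι F) ≠ 0 ∧
      ∀ t n, Van Sum.inr ι F (Sum.elim z q) n (ga ι F t)) →
      Sp E → (E.card : ℝ) ≤ X ^ ε := by
  classical
  obtain ⟨ε2, hε2, hN⟩ := small_par (Fintype.card (Vr ν)) ε hε
  have h2 := split C0 ι F D ε ε2 hε hε2 hN
  have hev5 : ∀ᶠ X : ℝ in atTop, (3 : ℝ) ≤ X ^ (ε2 / 2) :=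
    (tendsto_rpow_atTop (by positivity)).eventually_ge_atTop _
  filter_upwards [h2, hev5, eventually_gt_atTop (2 : ℝ)] with X h2 h5 hX z hz E hE hS
  have hX0 : 0 < X := by linarith
  have hX1 : 1 ≤ X := by linarith
  have h3 := h2 z hz E (fun q hq => ⟨(hE q hq).1, (hE q hq).2.2.1⟩)
    1 zero_le_one (by
      intro l hl hl1 hl2 E' hE' hJ hP hc1 hc2
      have h7 : E'.card ≤ 1 := by
        rw [Finset.card_le_one]
        intro q hq q' hq'
        obtain ⟨hg, hF, hJ0, hv⟩ := hE q (hE' hq)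
        obtain ⟨hg', hF', hJ0', hv'⟩ := hE q' (hE' hq')
        have hll : 3 ≤ l := by
          have : (3 : ℝ) ≤ (l : ℝ) := h5.trans hl1.le
          exact_mod_cast this
        have hlf : Fact l.Prime := ⟨hl⟩
        obtain ⟨L, Pu, Ju, hJu, hPu, hL, hL1⟩ := data hll (hJ q hq) (hP q hq)
        choose w0 hw0 using fun i : Fv ι => hc1 q hq q' hq' i.1
        choose Pu' hPu' using fun r => unit_int (l := l) (hP q' hq' r)
        have key : ∀ j, rt q j = rt q' j := by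
          intro j
          have e1 := flow_val (L := L) (Pu := Pu) (Pu' := Pu') hll hι hJu hF hF'
            (hc1 q hq q' hq') hw0 hPu hPu' hL hL1 (fun j r => hc2 q hq q' hq' _) j
          have e2 := stat (ι := ι) (F := F) (z := z) (L := L) (Ju := Ju) (w := w0) hll hPu j
            (fun i w => hv (i, j, none) w.length w le_rfl)
            (fun i r w => hv (i, j, some r) w.length w le_rfl)
          have e3 := e2.symm.trans e1
          have e4 := congrArg (fun t : ℤ_[l] => (t : ℚ_[l])) e3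
          beta_reduce at e4
          rw [coe_rt q Pu hPu j, coe_rt q' Pu' hPu' j] at e4
          exact_mod_cast e4
        exact hS q (hE' hq) q' (hE' hq') (key 0) (key 1)
      exact_mod_cast h7)
  rwa [mul_one] at h3

/-- **the induction step** -/
theorem step' {ν : Type} [Fintype ν] [DecidableEq ν] {C0 s : ℕ} (hst : Sq ν C0 (s + 1)) :
    Sq ν C0 s := by
  classical
  intro π κ _ _ _ _ hs ι F D ε hε
  by_cases hι : Function.Injective ι
  swap
  · refine ⟨0, ?_⟩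
    filter_upwards [eventually_ge_atTop (1 : ℝ)] with X hX z hz E hE hS
    have hE0 : E = ∅ := by
      apply Finset.eq_empty_of_forall_notMem
      intro q hq
      apply (hE q hq).2.2
      rw [jd_eq_zero _ _ _ hι, map_zero]
    rw [hE0]
    simp only [Finset.card_empty, Nat.cast_zero]
    positivity
  subst hs
  -- a uniform order of vanishing
  have hn0 : ∃ n0 : ℕ, ∀ (t : Fv ι × Fin 2 × Option ν) (p : π ⊕ Vr ν → ℤ),
      Van Sum.inr ι F p n0 (ga ι F t) → ∀ n, Van Sum.inr ι F p n (ga ι F t) := by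
    choose n1 hn1 using fun t : Fv ι × Fin 2 × Option ν =>
      noeth (Sum.inr : Vr ν → π ⊕ Vr ν) ι F (ga ι F t)
    refine ⟨Finset.univ.sup n1, ?_⟩
    intro t p hp n
    apply hn1 t p
    intro w hw
    exact hp w (hw.trans (Finset.le_sup (Finset.mem_univ t)))
  obtain ⟨n0, hn0⟩ := hn0
  obtain ⟨K1, h1⟩ := part1' hst ι hι F D (ε / 2) (by positivity)
  obtain ⟨K2, h2⟩ := part2' hst ι F D (ε / 2) (by positivity) n0
  have h3 := part3' C0 ι hι F D (ε / 2) (by positivity)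
  refine ⟨max K1 K2, ?_⟩
  have hev3 : ∀ᶠ X : ℝ in atTop, (3 : ℝ) ≤ X ^ (ε / 2) :=
    (tendsto_rpow_atTop (by positivity)).eventually_ge_atTop _
  filter_upwards [h1, h2, h3, hev3, eventually_ge_atTop (1 : ℝ)] with X h1 h2 h3 h4 hX z hz
    E hE hS
  have hX0 : 0 < X := by linarith
  obtain ⟨E1, hE1⟩ : ∃ E1, E1 = E.filter (fun q => ∃ t,
    eval (Sum.elim z q) (ga ι F t) ≠ 0) := ⟨_, rfl⟩
  obtain ⟨E2, hE2⟩ : ∃ E2, E2 = E.filter (fun q => (∀ t,
    eval (Sum.elim z q) (ga ι F t) = 0) ∧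
    ∃ t, ¬ Van Sum.inr ι F (Sum.elim z q) n0 (ga ι F t)) := ⟨_, rfl⟩
  obtain ⟨E3, hE3⟩ : ∃ E3, E3 = E.filter (fun q =>
    ∀ t n, Van Sum.inr ι F (Sum.elim z q) n (ga ι F t)) := ⟨_, rfl⟩
  have hcov : E ⊆ E1 ∪ (E2 ∪ E3) := by
    intro q hq
    rw [Finset.mem_union, Finset.mem_union, hE1, hE2, hE3, Finset.mem_filter, Finset.mem_filter,
      Finset.mem_filter]
    by_cases h5 : ∃ t, eval (Sum.elim z q) (ga ι F t) ≠ 0
    · exact Or.inl ⟨hq, h5⟩
    · push Not at h5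
      by_cases h6 : ∃ t, ¬ Van Sum.inr ι F (Sum.elim z q) n0 (ga ι F t)
      · exact Or.inr (Or.inl ⟨hq, h5, h6⟩)
      · push Not at h6
        exact Or.inr (Or.inr ⟨hq, fun t n => hn0 t _ (h6 t) n⟩)
  have c1 : (E1.card : ℝ) ≤ X ^ (ε / 2) := by
    refine h1 z hz E1 ?_ (hS.sub (by rw [hE1]; exact Finset.filter_subset _ _))
    intro q hq
    rw [hE1, Finset.mem_filter] at hq
    obtain ⟨hq, h5⟩ := hq
    obtain ⟨hg, hF, hJ⟩ := hE q hq
    exact ⟨hg.mono hX (le_max_left _ _), hF, hJ, h5⟩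
  have c2 : (E2.card : ℝ) ≤ X ^ (ε / 2) := by
    refine h2 z hz E2 ?_ (hS.sub (by rw [hE2]; exact Finset.filter_subset _ _))
    intro q hq
    rw [hE2, Finset.mem_filter] at hq
    obtain ⟨hq, h5, h6⟩ := hq
    obtain ⟨hg, hF, hJ⟩ := hE q hq
    exact ⟨hg.mono hX (le_max_right _ _), hF, hJ, h5, h6⟩
  have c3 : (E3.card : ℝ) ≤ X ^ (ε / 2) := by
    refine h3 z hz E3 ?_ (hS.sub (by rw [hE3]; exact Finset.filter_subset _ _))
    intro q hq
    rw [hE3, Finset.mem_filter] at hq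
    obtain ⟨hq, h5⟩ := hq
    obtain ⟨hg, hF, hJ⟩ := hE q hq
    exact ⟨hg.mono hX (Nat.zero_le _), hF, hJ, h5⟩
  have c4 : (E.card : ℝ) ≤ E1.card + (E2.card + E3.card) := by
    have h5 := (Finset.card_le_card hcov).trans (Finset.card_union_le _ _)
    have h6 := Finset.card_union_le E2 E3
    exact_mod_cast h5.trans (by omega)
  calc (E.card : ℝ) ≤ 3 * X ^ (ε / 2) := by linarith
    _ ≤ X ^ (ε / 2) * X ^ (ε / 2) := by gcongr
    _ = X ^ ε := by
        rw [← Real.rpow_add hX0]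
        ring_nf

/-- the statement for more equations than variables -/
theorem base' {ν : Type} [Fintype ν] [DecidableEq ν] {C0 s : ℕ}
    (hs : Fintype.card (Vr ν) < s) : Sq ν C0 s := by
  intro π κ _ _ _ _ hκ ι F D ε hε
  refine ⟨0, ?_⟩
  filter_upwards [eventually_ge_atTop (1 : ℝ)] with X hX z hz E hE hS
  have hι : ¬ Function.Injective ι := by
    intro h
    have := Fintype.card_le_of_injective ι h
    omega
  have hE0 : E = ∅ := by
    apply Finset.eq_empty_of_forall_notMem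
    intro q hq
    apply (hE q hq).2.2
    rw [jd_eq_zero _ _ _ hι, map_zero]
  rw [hE0]
  simp only [Finset.card_empty, Nat.cast_zero]
  positivity

/-- **the statement holds for all numbers of equations** -/
theorem sq_all (ν : Type) [Fintype ν] [DecidableEq ν] (C0 : ℕ) : ∀ s : ℕ, Sq ν C0 s := by
  have h : ∀ t s : ℕ, Fintype.card (Vr ν) < s + t → Sq ν C0 s := by
    intro t
    induction t with
    | zero => intro s hs; exact base' (by omega)
    | succ t ih => intro s hs; exact step' (ih (s + 1) (by omega))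
  intro s
  exact h (Fintype.card (Vr ν) + 1) s (by omega)

/-- **the count** -/
theorem count_all (ν : Type) [Fintype ν] [DecidableEq ν] (C0 : ℕ) (ε : ℝ) (hε : 0 < ε) :
    ∃ K : ℕ, ∀ᶠ X : ℝ in atTop, ∀ E : Finset (Vr ν → ℤ), (∀ q ∈ E, Gd C0 X K q) → Sp E →
      (E.card : ℝ) ≤ X ^ ε := by
  classical
  obtain ⟨K, h⟩ := sq_all ν C0 0 Empty Empty (by simp) Empty.elim Empty.elim 1 ε hε
  refine ⟨K, ?_⟩
  filter_upwards [h] with X h E hE hS
  refine h (fun t => t.elim) (fun t => t.elim) E ?_ hS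
  intro q hq
  refine ⟨hE q hq, fun a => a.elim, ?_⟩
  unfold jd
  rw [Matrix.det_isEmpty, map_one]
  exact one_ne_zero

end Pool.Agent.Y913.Wm
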