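import Pool.Agent.Y913.Vm.Cl
import Pool.Agent.Y913.Wm.Li

/-!
The tangent derivation of a system of equations for bases and exponents, extended to logarithms of
the bases and products of powers.
-/

set_option autoImplicit false

namespace Pool.Agent.Y913.Wm

open Finset MvPolynomial Matrix Pool.Agent.Y913.Vm

/-- the coordinates: bases and exponents -/
abbrev Vr (ν : Type) : Type := ν ⊕ (Fin 2 × ν)

section

variable {ν π κ : Type} [Fintype ν] [DecidableEq ν] [Fintype κ] [DecidableEq κ]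

/-- auxiliary variables: logarithms, inverses of the bases, values, inverse Jacobian, direction -/
abbrev Ax (ν : Type) {κ : Type} (ι : κ → Vr ν) : Type := (ν ⊕ ν) ⊕ (Fin 2 ⊕ (Unit ⊕ Fv ι))

/-- all variables -/
abbrev S2 (π ν : Type) {κ : Type} (ι : κ → Vr ν) : Type := (π ⊕ Vr ν) ⊕ Ax ν ι

variable (ι : κ → Vr ν) (F : κ → Rg (π ⊕ Vr ν))

/-- logarithms -/
noncomputable def vL (r : ν) : Rg (S2 π ν ι) := X (Sum.inr (Sum.inl (Sum.inl r)))
/-- inverses of the bases -/
noncomputable def vQ (r : ν) : Rg (S2 π ν ι) := X (Sum.inr (Sum.inl (Sum.inr r)))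
/-- values -/
noncomputable def vU (j : Fin 2) : Rg (S2 π ν ι) := X (Sum.inr (Sum.inr (Sum.inl j)))
/-- inverse of the Jacobian -/
noncomputable def vJ : Rg (S2 π ν ι) := X (Sum.inr (Sum.inr (Sum.inr (Sum.inl ()))))
/-- direction -/
noncomputable def vD (i : Fv ι) : Rg (S2 π ν ι) := X (Sum.inr (Sum.inr (Sum.inr (Sum.inr i))))
/-- bases -/
noncomputable def vP (r : ν) : Rg (S2 π ν ι) := X (Sum.inl (Sum.inr (Sum.inl r)))
/-- exponents -/
noncomputable def vA (j : Fin 2) (r : ν) : Rg (S2 π ν ι) := X (Sum.inl (Sum.inr (Sum.inr (j, r))))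

/-- the embedding -/
noncomputable def em : Rg (π ⊕ Vr ν) →+* Rg (S2 π ν ι) := (rename Sum.inl : _ →ₐ[ℤ] _).toRingHom

lemma em_X (s : π ⊕ Vr ν) : em ι (X s) = X (Sum.inl s) := by
  unfold em
  exact rename_X _ _

lemma em_C (a : ℤ) : em ι (C a : Rg (π ⊕ Vr ν)) = C a := by
  unfold em
  exact rename_C _ _

/-- the velocities of the coordinates -/
noncomputable def xi (k : Vr ν) : Rg (S2 π ν ι) :=
  vJ ι * ∑ i : Fv ι, vD ι i * em ι (kp Sum.inr ι F i.1 k)

/-- the velocities of all variables -/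
noncomputable def vals : S2 π ν ι → Rg (S2 π ν ι)
  | Sum.inl (Sum.inl _) => 0
  | Sum.inl (Sum.inr k) => xi ι F k
  | Sum.inr (Sum.inl (Sum.inl r)) => vQ ι r * xi ι F (Sum.inl r)
  | Sum.inr (Sum.inl (Sum.inr r)) => -(vQ ι r) ^ 2 * xi ι F (Sum.inl r)
  | Sum.inr (Sum.inr (Sum.inl j)) => vU ι j * ∑ r, (vA ι j r * vQ ι r * xi ι F (Sum.inl r) +
      vL ι r * xi ι F (Sum.inr (j, r)))
  | Sum.inr (Sum.inr (Sum.inr (Sum.inl _))) => -(vJ ι) ^ 2 *
      ∑ k, xi ι F k * em ι (pderiv (Sum.inr k) (jd Sum.inr ι F))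
  | Sum.inr (Sum.inr (Sum.inr (Sum.inr _))) => 0

/-- the derivation -/
noncomputable def Xi : Dn (Rg (S2 π ν ι)) := ofD (mkDerivation ℤ (vals ι F))

lemma Xi_X (s : S2 π ν ι) : Xi ι F (X s) = vals ι F s := by
  unfold Xi
  rw [ofD_apply, mkDerivation_X]

lemma Xi_C (a : ℤ) : Xi ι F (C a) = 0 := by
  unfold Xi
  rw [ofD_apply, derivation_C]

lemma Xi_em (G : Rg (π ⊕ Vr ν)) :
    Xi ι F (em ι G) = ∑ k, xi ι F k * em ι (pderiv (Sum.inr k) G) := by
  induction G using MvPolynomial.induction_on with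
  | C a =>
    rw [em_C, Xi_C]
    symm
    apply Finset.sum_eq_zero
    intro k _
    rw [pderiv_C, map_zero, mul_zero]
  | add G H hG hH =>
    rw [map_add, (Xi ι F).add, hG, hH, ← Finset.sum_add_distrib]
    apply Finset.sum_congr rfl
    intro k _
    rw [map_add, map_add, mul_add]
  | mul_X G n hG =>
    have h1 : Xi ι F (em ι (X n)) = ∑ k, xi ι F k * em ι (pderiv (Sum.inr k) (X n)) := by
      rw [em_X, Xi_X]
      rcases n with z | k'
      · show (0 : Rg (S2 π ν ι)) = _
        symm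
        apply Finset.sum_eq_zero
        intro k _
        rw [pderiv_X_of_ne (by simp), map_zero, mul_zero]
      · show xi ι F k' = _
        rw [Finset.sum_eq_single k']
        · rw [pderiv_X_self, map_one, mul_one]
        · intro k _ hk
          rw [pderiv_X_of_ne (fun h => hk (Sum.inr_injective h).symm), map_zero, mul_zero]
        · intro h
          exact absurd (Finset.mem_univ _) h
    rw [map_mul, (Xi ι F).mul, hG, h1, Finset.mul_sum, Finset.mul_sum, ← Finset.sum_add_distrib]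
    apply Finset.sum_congr rfl
    intro k _
    rw [Derivation.leibniz, smul_eq_mul, smul_eq_mul, map_add, map_mul, map_mul]
    ring

lemma Xi_dd (G : Rg (π ⊕ Vr ν)) :
    Xi ι F (em ι G) = vJ ι * ∑ i : Fv ι, vD ι i * em ι (dd Sum.inr ι F i.1 G) := by
  rw [Xi_em]
  simp only [xi, dd_apply, map_sum, map_mul, Finset.mul_sum, Finset.sum_mul]
  rw [Finset.sum_comm]
  apply Finset.sum_congr rfl
  intro i _
  apply Finset.sum_congr rfl
  intro k _
  ring

/-- the tangent derivations kill the equations -/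
lemma dd_self {σ ν' : Type} [Fintype ν'] [DecidableEq ν'] (u : ν' → σ) (ι' : κ → ν')
    (F' : κ → Rg σ) (i : ν') (a : κ) : dd u ι' F' i (F' a) = 0 := by
  rw [dd_eq]
  have h1 : ∀ a', ∑ b, jm u ι' F' a b * (jm u ι' F').adjugate b a' =
      if a = a' then jd u ι' F' else 0 := by
    intro a'
    have h2 := congrFun (congrFun (Matrix.mul_adjugate (jm u ι' F')) a) a'
    rw [Matrix.mul_apply, Matrix.smul_apply, Matrix.one_apply, smul_eq_mul, mul_ite, mul_one,
      mul_zero] at h2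
    exact h2
  have h3 : ∑ b, ∑ a', (jm u ι' F').adjugate b a' * pderiv (u i) (F' a') *
      pderiv (u (ι' b)) (F' a) = jd u ι' F' * pderiv (u i) (F' a) := by
    rw [Finset.sum_comm]
    calc _ = ∑ a', (∑ b, jm u ι' F' a b * (jm u ι' F').adjugate b a') *
          pderiv (u i) (F' a') := by
          apply Finset.sum_congr rfl
          intro a' _
          rw [Finset.sum_mul]
          apply Finset.sum_congr rfl
          intro b _
          unfold jm
          simp only [Matrix.of_apply]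
          ring
      _ = ∑ a', (if a = a' then jd u ι' F' * pderiv (u i) (F' a') else 0) := by
          apply Finset.sum_congr rfl
          intro a' _
          rw [h1, ite_mul, zero_mul]
      _ = _ := by simp
  rw [h3, sub_self]

lemma Xi_F (a : κ) : Xi ι F (em ι (F a)) = 0 := by
  rw [Xi_dd]
  simp only [dd_self, map_zero, mul_zero, Finset.sum_const_zero]

end

section

variable {R : Type} [CommRing R] {l : ℕ} [hlf : Fact l.Prime]

lemma nul_of_mul {D : Dn R} {φ : R →+* ℤ_[l]} {G H : R} (h : D G = H * G) (h0 : φ G = 0) :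
    Nul D φ G := by
  have h1 : ∀ n, ∃ K, D^[n] G = K * G := by
    intro n
    induction n with
    | zero => exact ⟨1, by simp⟩
    | succ n ih =>
      obtain ⟨K, hK⟩ := ih
      refine ⟨K * H + D K, ?_⟩
      rw [Function.iterate_succ_apply', hK, D.mul, h]
      ring
  intro n
  obtain ⟨K, hK⟩ := h1 n
  rw [hK, map_mul, h0, mul_zero]

lemma nul_zero (D : Dn R) (φ : R →+* ℤ_[l]) : Nul D φ 0 := fun n => by
  rw [iter_zero, map_zero]

lemma lie_int (D : Dn R) (φ : R →+* ℤ_[l]) (hl : 3 ≤ l) (a : ℤ) : lie D φ (a : R) = a := by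
  rw [← lieHom_apply D φ hl, map_intCast]

end

section

variable {ν π κ : Type} [Fintype ν] [DecidableEq ν] [Fintype κ] [DecidableEq κ]
  {ι : κ → Vr ν} {F : κ → Rg (π ⊕ Vr ν)} {l : ℕ} [hlf : Fact l.Prime]

lemma nul_J {φ : Rg (S2 π ν ι) →+* ℤ_[l]} (h : φ (vJ ι) * φ (em ι (jd Sum.inr ι F)) = 1) :
    Nul (Xi ι F) φ (vJ ι * em ι (jd Sum.inr ι F) - 1) := by
  apply nul_of_mul (H := -(vJ ι * ∑ k, xi ι F k * em ι (pderiv (Sum.inr k) (jd Sum.inr ι F))))
  · have h1 : Xi ι F (vJ ι) = -(vJ ι) ^ 2 *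
        ∑ k, xi ι F k * em ι (pderiv (Sum.inr k) (jd Sum.inr ι F)) := by
      unfold vJ
      rw [Xi_X]
      rfl
    rw [(Xi ι F).sub, (Xi ι F).one, (Xi ι F).mul, h1, Xi_em]
    ring
  · rw [map_sub, map_mul, h, map_one, sub_self]

lemma nul_Q {φ : Rg (S2 π ν ι) →+* ℤ_[l]} (r : ν) (h : φ (vP ι r) * φ (vQ ι r) = 1) :
    Nul (Xi ι F) φ (vP ι r * vQ ι r - 1) := by
  apply nul_of_mul (H := -(vQ ι r * xi ι F (Sum.inl r)))
  · have h1 : Xi ι F (vQ ι r) = -(vQ ι r) ^ 2 * xi ι F (Sum.inl r) := by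
      unfold vQ
      rw [Xi_X]
      rfl
    have h2 : Xi ι F (vP ι r) = xi ι F (Sum.inl r) := by
      unfold vP
      rw [Xi_X]
      rfl
    rw [(Xi ι F).sub, (Xi ι F).one, (Xi ι F).mul, h1, h2]
    ring
  · rw [map_sub, map_mul, h, map_one, sub_self]

/-- the velocity of a free coordinate -/
lemma xi_free (i : Fv ι) : xi ι F i.1 = vD ι i +
    vD ι i * (vJ ι * em ι (jd Sum.inr ι F) - 1) := by
  unfold xi
  have h1 : ∀ i' : Fv ι, em ι (kp Sum.inr ι F i'.1 i.1) =
      if i' = i then em ι (jd Sum.inr ι F) else 0 := by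
    intro i'
    unfold kp
    have h2 : ∑ b, ∑ a, (if ι b = i.1 then (jm Sum.inr ι F).adjugate b a *
        pderiv (Sum.inr i'.1) (F a) else 0) = 0 := by
      apply Finset.sum_eq_zero
      intro b _
      apply Finset.sum_eq_zero
      intro a _
      rw [if_neg (fun h => i.2 b h.symm)]
    rw [h2, sub_zero]
    by_cases hi : i' = i
    · rw [if_pos hi, if_pos (by rw [hi])]
    · rw [if_neg hi, if_neg (fun h => hi (Subtype.ext h.symm)), map_zero]
  simp only [h1, mul_ite, mul_zero, Finset.sum_ite_eq', Finset.mem_univ, if_true]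
  ring

lemma lie_free {φ : Rg (S2 π ν ι) →+* ℤ_[l]} (hl : 3 ≤ l)
    (h : φ (vJ ι) * φ (em ι (jd Sum.inr ι F)) = 1) (i : Fv ι) :
    lie (Xi ι F) φ (X (Sum.inl (Sum.inr i.1))) =
      φ (X (Sum.inl (Sum.inr i.1))) + φ (vD ι i) * l := by
  have hD : Xi ι F (X (Sum.inl (Sum.inr i.1))) = vD ι i +
      vD ι i * (vJ ι * em ι (jd Sum.inr ι F) - 1) := by
    rw [Xi_X]
    show xi ι F i.1 = _
    exact xi_free i
  have hD2 : Xi ι F (vD ι i) = 0 := by
    unfold vD
    rw [Xi_X]
    rfl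
  have hn := (nul_J (F := F) h).mul (vD ι i)
  rw [lie_two hl]
  · rw [hD, map_add]
    have := hn 0
    simp only [Function.iterate_zero, id_eq] at this
    rw [this, add_zero]
  · intro n
    rw [Function.iterate_succ_apply, hD, iter_add, map_add, hn, add_zero,
      Function.iterate_succ_apply, hD2, iter_zero, map_zero]

end

end Pool.Agent.Y913.Wm
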