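import Pool.Agent.Y913.Wm.Op

/-!
A zero estimate for exponential polynomials in one variable.
-/

set_option autoImplicit false

namespace Pool.Agent.Y913.Wm

open Finset Polynomial

lemma op_top (c : ℤ) (m d : ℕ) (P : ℤ[X]) (hP : P.natDegree ≤ d) :
    ((op c ^ m) P).natDegree ≤ d ∧ ((op c ^ m) P).coeff d = c ^ m * P.coeff d := by
  induction m with
  | zero =>
    simp only [pow_zero, Module.End.one_apply, one_mul, and_true]
    exact hP
  | succ m ih =>
    obtain ⟨h1, h2⟩ := ih
    have e : (op c ^ (m + 1)) P = op c ((op c ^ m) P) := by rw [pow_succ']; rfl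
    rw [e, op_apply]
    constructor
    · refine (natDegree_add_le _ _).trans (max_le ?_ ?_)
      · exact (natDegree_derivative_le _).trans (by omega)
      · exact (natDegree_C_mul_le _ _).trans h1
    · rw [coeff_add, coeff_derivative, coeff_C_mul, h2,
        coeff_eq_zero_of_natDegree_lt (by omega : ((op c ^ m) P).natDegree < d + 1)]
      ring

lemma prod_top {J : Type} [DecidableEq J] (s : Finset J) (f : J → ℤ[X]) (d : J → ℕ)
    (h : ∀ j, (f j).natDegree ≤ d j) :
    (∏ j ∈ s, f j).natDegree ≤ ∑ j ∈ s, d j ∧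
      (∏ j ∈ s, f j).coeff (∑ j ∈ s, d j) = ∏ j ∈ s, (f j).coeff (d j) := by
  induction s using Finset.induction_on with
  | empty => simp
  | insert j s hj ih =>
    rw [Finset.prod_insert hj, Finset.sum_insert hj, Finset.prod_insert hj]
    constructor
    · exact natDegree_mul_le.trans (Nat.add_le_add (h j) ih.1)
    · rw [coeff_mul_add_eq_of_natDegree_le (h j) ih.1, ih.2]

lemma det_top {n : ℕ} (M : Matrix (Fin n) (Fin n) ℤ[X]) (d : Fin n → ℕ)
    (h : ∀ i j, (M i j).natDegree ≤ d j) :
    M.det.natDegree ≤ ∑ j, d j ∧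
      M.det.coeff (∑ j, d j) = (Matrix.of fun i j => (M i j).coeff (d j)).det := by
  have h1 : ∀ σ : Equiv.Perm (Fin n), (∏ j, M (σ j) j).natDegree ≤ ∑ j, d j ∧
      (∏ j, M (σ j) j).coeff (∑ j, d j) = ∏ j, (M (σ j) j).coeff (d j) :=
    fun σ => prod_top Finset.univ (fun j => M (σ j) j) d (fun j => h (σ j) j)
  constructor
  · rw [Matrix.det_apply]
    apply natDegree_sum_le_of_forall_le
    intro σ _
    rw [Units.smul_def, ← Int.cast_smul_eq_zsmul ℤ, smul_eq_C_mul]
    exact (natDegree_C_mul_le _ _).trans (h1 σ).1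
  · rw [Matrix.det_apply, Matrix.det_apply, finsetSum_coeff]
    apply Finset.sum_congr rfl
    intro σ _
    rw [Units.smul_def, Units.smul_def, ← Int.cast_smul_eq_zsmul ℤ, smul_eq_C_mul, coeff_C_mul,
      (h1 σ).2]
    simp

lemma deriv_op (c : ℤ) (t : ℕ) (P : ℤ[X]) : derivative^[t] P =
    ∑ k ∈ range (t + 1), C ((-c) ^ (t - k) * (t.choose k : ℤ)) * (op c ^ k) P := by
  have h0 : (derivative : Module.End ℤ ℤ[X]) = op c + (-c) • (1 : Module.End ℤ ℤ[X]) := by
    unfold op
    rw [add_assoc, ← add_smul, add_neg_cancel, zero_smul, add_zero]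
  have hc : Commute (op c) ((-c) • (1 : Module.End ℤ ℤ[X])) := by
    apply Commute.smul_right
    exact Commute.one_right _
  have h1 : derivative^[t] P = ((derivative : Module.End ℤ ℤ[X]) ^ t) P := by
    rw [Module.End.pow_apply]
  rw [h1, h0, hc.add_pow, LinearMap.sum_apply]
  apply Finset.sum_congr rfl
  intro k _
  have h1 : (op c) ^ k * ((-c) • (1 : Module.End ℤ ℤ[X])) ^ (t - k) *
      ((t.choose k : ℕ) : Module.End ℤ ℤ[X]) =
      ((-c) ^ (t - k) * (t.choose k : ℤ)) • ((op c) ^ k) := by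
    rw [_root_.smul_pow, one_pow, mul_smul_comm, mul_one, ← nsmul_eq_mul', mul_comm, mul_smul,
      natCast_zsmul]
  rw [h1, LinearMap.smul_apply, Polynomial.smul_eq_C_mul]

section

variable {l : ℕ} [hlf : Fact l.Prime]

/-- **zero estimate** -/
theorem zero_est {T : ℕ} (hT : 36 ≤ T) {n : ℤ} (hn : n ≠ 0) (P : Fin 8 → ℤ[X]) (hP : P ≠ 0)
    (hd : ∀ b, (P b).natDegree < T) (y : Fin 10 → ℤ) (hy : Function.Injective y)
    (v : Fin 10 → ℤ_[l]) (hv : ∀ j, v j ≠ 0)
    (h : ∀ j, ∀ t ≤ T, ps ((y j : ℤ) : ℤ_[l]) (v j) ((De n)^[t]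
      (∑ b : Fin 8, io (P b) * MvPolynomial.X 1 ^ (b : ℕ))) = 0) : False := by
  classical
  obtain ⟨B, hB⟩ : ∃ B : Finset (Fin 8), B = Finset.univ.filter (fun b => P b ≠ 0) := ⟨_, rfl⟩
  obtain ⟨β, hβ⟩ : ∃ β, B.card = β := ⟨_, rfl⟩
  have hβ8 : β ≤ 8 := by
    rw [← hβ]
    exact (Finset.card_le_univ B).trans (by simp)
  have hβ1 : 0 < β := by
    rw [← hβ, Finset.card_pos]
    by_contra hne
    rw [Finset.not_nonempty_iff_eq_empty] at hne
    apply hP
    funext b
    by_contra hb
    have : b ∈ B := by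
      rw [hB, Finset.mem_filter]
      exact ⟨Finset.mem_univ _, hb⟩
    rw [hne] at this
    exact absurd this (Finset.notMem_empty _)
  obtain ⟨e, he⟩ : ∃ e : Fin β → Fin 8, (Function.Injective e ∧ ∀ b, b ∈ B ↔ ∃ k, e k = b) := by
    have f := (B.equivFinOfCardEq hβ).symm
    refine ⟨fun k => (f k : Fin 8), fun a b hab => f.injective (Subtype.ext hab), fun b => ?_⟩
    constructor
    · intro hb
      exact ⟨f.symm ⟨b, hb⟩, by simp⟩
    · rintro ⟨k, rfl⟩
      exact (f k).2
  obtain ⟨heinj, hemem⟩ := he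
  have hPe : ∀ k, P (e k) ≠ 0 := by
    intro k
    have : e k ∈ B := (hemem _).mpr ⟨k, rfl⟩
    rw [hB, Finset.mem_filter] at this
    exact this.2
  obtain ⟨F, hF⟩ : ∃ F : Ep, F = ∑ b : Fin 8, io (P b) * MvPolynomial.X 1 ^ (b : ℕ) := ⟨_, rfl⟩
  have hFe : F = ∑ k, io (P (e k)) * MvPolynomial.X 1 ^ ((e k : Fin 8) : ℕ) := by
    rw [hF, ← Finset.sum_filter_add_sum_filter_not Finset.univ (fun b => P b ≠ 0), ← hB]
    have h1 : ∑ b ∈ Finset.univ.filter (fun b => ¬ P b ≠ 0), io (P b) *
        (MvPolynomial.X 1 : Ep) ^ (b : ℕ) = 0 := by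
      apply Finset.sum_eq_zero
      intro b hb
      rw [Finset.mem_filter] at hb
      have : P b = 0 := by
        by_contra h2
        exact hb.2 h2
      rw [this, map_zero, zero_mul]
    rw [h1, add_zero]
    have h2 : B = Finset.univ.image e := by
      ext b
      rw [hemem, Finset.mem_image]
      simp
    rw [h2, Finset.sum_image (fun a _ b _ hab => heinj hab)]
  rw [← hF] at h
  obtain ⟨M, hM⟩ : ∃ M : Matrix (Fin β) (Fin β) ℤ[X], M = Matrix.of (fun (i k : Fin β) =>
    (op (((e k : Fin 8) : ℕ) * n) ^ (i : ℕ)) (P (e k))) := ⟨_, rfl⟩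
  obtain ⟨W, hW⟩ : ∃ W, W = M.det := ⟨_, rfl⟩
  have hMe : ∀ i k, M i k = (op (((e k : Fin 8) : ℕ) * n) ^ (i : ℕ)) (P (e k)) := by
    intro i k
    rw [hM]
    rfl
  have htop := det_top M (fun k => (P (e k)).natDegree) (fun i k => by
    rw [hMe]
    exact (op_top _ _ _ _ le_rfl).1)
  rw [← hW] at htop
  have hW0 : W ≠ 0 := by
    intro h0
    have h1 := htop.2
    rw [h0, coeff_zero] at h1
    have h2 : (Matrix.of fun i k => (M i k).coeff (P (e k)).natDegree) =
        Matrix.of (fun i k => (P (e k)).leadingCoeff *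
          (Matrix.vandermonde (fun k : Fin β => (((e k : Fin 8) : ℕ) : ℤ) * n)).transpose i k) := by
      ext i k
      simp only [Matrix.of_apply, hMe, (op_top _ _ _ _ le_rfl).2, Matrix.transpose_apply,
        Matrix.vandermonde_apply]
      rw [mul_comm]
      rfl
    rw [h2, Matrix.det_mul_row, Matrix.det_transpose] at h1
    have h3 := mul_eq_zero.mp h1.symm
    rcases h3 with h3 | h3
    · rw [Finset.prod_eq_zero_iff] at h3
      obtain ⟨k, -, hk⟩ := h3
      exact hPe k (leadingCoeff_eq_zero.mp hk)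
    · refine Matrix.det_vandermonde_ne_zero_iff.mpr ?_ h3
      intro a b hab
      have h4 : (((e a : Fin 8) : ℕ) : ℤ) = (((e b : Fin 8) : ℕ) : ℤ) := mul_right_cancel₀ hn hab
      apply heinj
      apply Fin.ext
      exact_mod_cast h4
  -- Cramer's rule
  obtain ⟨k0⟩ : Nonempty (Fin β) := ⟨⟨0, hβ1⟩⟩
  have hcr : ∑ i, io (M.adjugate k0 i) * (De n)^[(i : ℕ)] F =
      io W * MvPolynomial.X 1 ^ ((e k0 : Fin 8) : ℕ) := by
    have h1 : ∀ i : Fin β, (De n)^[(i : ℕ)] F = ∑ k, io (M i k) *
        MvPolynomial.X 1 ^ ((e k : Fin 8) : ℕ) := by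
      intro i
      rw [hFe]
      have h2 : ∀ (s : Finset (Fin β)) (m : ℕ) (f : Fin β → Ep),
          (De n)^[m] (∑ k ∈ s, f k) = ∑ k ∈ s, (De n)^[m] (f k) := by
        intro s m f
        induction m generalizing f with
        | zero => rfl
        | succ m ih => rw [Function.iterate_succ_apply, (De n).sum, ih]; rfl
      rw [h2]
      apply Finset.sum_congr rfl
      intro k _
      rw [De_iter, hMe]
    have h2 : ∀ k, ∑ i, M.adjugate k0 i * M i k = if k0 = k then W else 0 := by
      intro k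
      have h3 := congrFun (congrFun (Matrix.adjugate_mul M) k0) k
      rw [Matrix.mul_apply, Matrix.smul_apply, Matrix.one_apply, smul_eq_mul, mul_ite, mul_one,
        mul_zero, ← hW] at h3
      exact h3
    calc ∑ i, io (M.adjugate k0 i) * (De n)^[(i : ℕ)] F =
          ∑ k, io (∑ i, M.adjugate k0 i * M i k) * MvPolynomial.X 1 ^ ((e k : Fin 8) : ℕ) := by
          simp only [h1, Finset.mul_sum, map_sum, map_mul, Finset.sum_mul]
          rw [Finset.sum_comm]
          apply Finset.sum_congr rfl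
          intro k _
          apply Finset.sum_congr rfl
          intro i _
          ring
      _ = _ := by
          simp only [h2]
          rw [Finset.sum_eq_single k0]
          · rw [if_pos rfl]
          · intro k _ hk
            rw [if_neg (fun h => hk h.symm), map_zero, zero_mul]
          · intro h
            exact absurd (Finset.mem_univ _) h
  -- vanishing of `W`
  have hvan : ∀ j, ∀ t ≤ T - 8, ((op (((e k0 : Fin 8) : ℕ) * n) ^ t) W).eval (y j) = 0 := by
    intro j t ht
    have h1 : ps ((y j : ℤ) : ℤ_[l]) (v j) ((De n)^[t] (∑ i, io (M.adjugate k0 i) *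
        (De n)^[(i : ℕ)] F)) = ps ((y j : ℤ) : ℤ_[l]) (v j) ((De n)^[t] (io W *
        MvPolynomial.X 1 ^ ((e k0 : Fin 8) : ℕ))) := by rw [hcr]
    rw [De_iter, map_mul, ps_io, map_pow, ps_X1] at h1
    have h2 : ps ((y j : ℤ) : ℤ_[l]) (v j) ((De n)^[t] (∑ i, io (M.adjugate k0 i) *
        (De n)^[(i : ℕ)] F)) = 0 := by
      have h3 : ∀ (s : Finset (Fin β)) (m : ℕ) (f : Fin β → Ep),
          (De n)^[m] (∑ k ∈ s, f k) = ∑ k ∈ s, (De n)^[m] (f k) := by
        intro s m f
        induction m generalizing f with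
        | zero => rfl
        | succ m ih => rw [Function.iterate_succ_apply, (De n).sum, ih]; rfl
      rw [h3, map_sum]
      apply Finset.sum_eq_zero
      intro i _
      rw [iter_mul, map_sum]
      apply Finset.sum_eq_zero
      rintro ⟨p, q⟩ hpq
      have hpq' : p + q = t := by simpa using hpq
      simp only
      rw [map_nsmul, map_mul, ← Function.iterate_add_apply, h j (q + i) (by
        have := i.isLt
        omega), mul_zero, smul_zero]
    rw [h2] at h1
    have h3 := (mul_eq_zero.mp h1.symm).resolve_right (pow_ne_zero _ (hv j))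
    exact_mod_cast h3
  have hmult : ∀ j, T - 8 < W.rootMultiplicity (y j) := by
    intro j
    rw [lt_rootMultiplicity_iff_isRoot_iterate_derivative hW0]
    intro t ht
    rw [IsRoot.def, deriv_op (((e k0 : Fin 8) : ℕ) * n), eval_finsetSum]
    apply Finset.sum_eq_zero
    intro k hk
    rw [Finset.mem_range] at hk
    rw [eval_mul, hvan j k (by omega), mul_zero]
  have hcount : ∑ j : Fin 10, W.roots.count (y j) ≤ W.natDegree := by
    calc ∑ j : Fin 10, W.roots.count (y j) = ∑ a ∈ Finset.univ.image y, W.roots.count a := by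
          rw [Finset.sum_image (fun a _ b _ hab => hy hab)]
      _ ≤ ∑ a ∈ Finset.univ.image y ∪ W.roots.toFinset, W.roots.count a :=
          Finset.sum_le_sum_of_subset Finset.subset_union_left
      _ = Multiset.card W.roots := Multiset.sum_count_eq_card (fun a ha =>
          Finset.mem_union_right _ (Multiset.mem_toFinset.mpr ha))
      _ ≤ W.natDegree := card_roots' W
  have h1 : ∑ _j : Fin 10, (T - 7) ≤ ∑ j : Fin 10, W.roots.count (y j) := by
    apply Finset.sum_le_sum
    intro j _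
    rw [count_roots]
    have := hmult j
    omega
  have h2 : ∑ k, (P (e k)).natDegree ≤ 8 * T := by
    calc ∑ k, (P (e k)).natDegree ≤ ∑ _k : Fin β, T := Finset.sum_le_sum (fun k _ => (hd _).le)
      _ = β * T := by simp
      _ ≤ 8 * T := Nat.mul_le_mul_right _ hβ8
  rw [Finset.sum_const, Finset.card_univ, Fintype.card_fin, smul_eq_mul] at h1
  have h3 := htop.1
  omega

end

end Pool.Agent.Y913.Wm
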